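import Pool.Agent.W_448s8_h76.SaM
import Pool.Agent.W_448s8_h94.QdE
import Pool.Agent.W_448b1_h24.BC

/-!
Tools for the star joins: bounded sums from component data with twins, leading term of a
dangerous sum (MP_448cb3_co, S8).
-/

namespace Pool.Agent.GaussPoset

set_option linter.unusedSectionVars false

open Polynomial Finset

universe u

variable {P : Type u} [Fintype P] [PartialOrder P] [DecidableEq P]
variable {ι : Type*}

/-- bounded cleanness off `R` from component data with twins -/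
theorem bounds_of_compT [Fintype ι] [DecidableEq ι] {i : ℕ} {R : Finset P}
    (hR : ∀ x y, x ≤ y → y ∈ R → x ∈ R) (hRlev : ∀ x ∈ R, i < lev x)
    (cp : P → ι) (hcp : ∀ x y, x ≤ y → x ∉ R → cp x = cp y) (b : ι → ℕ) (θ : P → ℕ)
    (B : P → Prop) (hBR : ∀ x ∈ R, ¬ B x) (Tw : Finset (P × P)) (n0 : ℕ)
    (H : ∀ k, CompDataT R cp k i (b k) θ B Tw)
    (htw : ∀ t ∈ Tw, TwinPair i θ n0 t.1 t.2) (hmin : ∀ t ∈ Tw, ∀ y < t.2, y ∈ R)
    (htR : ∀ t ∈ Tw, t.1 ∉ R ∧ t.2 ∉ R)
    (β : P → ℕ) (hβ : ∀ x, x ∉ R → β x ≤ θ x) (n : ℕ) (hn : n < n0) :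
    (1 + X : ℤ[X]) ^ (∑ k, b k) ∣ ZB i R 0 β n := by
  classical
  let θ' : P → ℕ := fun x => if x ∈ R then 0 else θ x
  have hθ' : ∀ x, x ∉ R → θ' x = θ x := fun x hx => if_neg hx
  have hθ0 : ∀ x, 1 ≤ θ' x → x ∉ R := by
    intro x hx hxR
    have : θ' x = 0 := if_pos hxR
    omega
  have hlow : ∀ D ∈ {D | Good i R B D}, ∀ x y, x ≤ y → y ∈ D → x ∈ D := fun D hD => hD.1
  have hlev : ∀ D ∈ {D | Good i R B D}, ∀ x ∈ D, i < lev x := fun D hD => hD.2.2.1
  have hRR : R ∈ {D | Good i R B D} := ⟨hR, Subset.refl R, hRlev, hBR⟩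
  refine dvd_ZB_bounds_twins i _ n0 {D | Good i R B D} θ' Tw hlow hlev ?_ ?_ ?_ ?_ ?_ ?_ R hRR β
    (fun x hx => by rw [hθ' x hx]; exact hβ x hx) n hn
  · intro x hx
    have hxR := hθ0 x hx
    rw [hθ' x hxR] at hx
    exact (H (cp x)).lev x hxR rfl hx
  · intro D hD hbr n _
    rw [ZB_off hD.1 hD.2.2.1]
    refine dvd_Z_of_dvd_W ?_ n
    refine dvd_W_prod (fun x : {x : P // x ∉ D} => cp (x : P)) ?_ i b fun k => ?_
    · intro x y hxy
      exact hcp x y hxy fun h => x.2 (hD.2.1 h)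
    · exact (H k).clean D hD hbr inferInstance
  · intro D hD x hx hθx
    have hxR := hθ0 x hθx
    rw [hθ' x hxR] at hθx
    have hlx := (H (cp x)).lev x hxR rfl hθx
    refine ⟨?_, hD.2.1.trans subset_union_left, ?_, ?_⟩
    · intro a c hac hc
      rw [mem_union, mem_dnf] at hc ⊢
      rcases hc with hc | hc
      · exact Or.inl (hD.1 a c hac hc)
      · exact Or.inr (hac.trans hc)
    · intro a ha
      rw [mem_union, mem_dnf] at ha
      rcases ha with ha | ha
      · exact hD.2.2.1 a ha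
      · rcases eq_or_lt_of_le ha with h | h
        · rw [h]; exact hlx
        · have := lev_strictAnti h; omega
    · intro a ha
      rw [mem_union, mem_dnf] at ha
      rcases ha with ha | ha
      · exact hD.2.2.2 a ha
      · by_cases haR : a ∈ R
        · exact hBR a haR
        · exact (H (cp x)).base x hxR rfl hθx a ha haR
  · intro D hD x hx hθx y hyx hyD x' hyx' hx'x
    have hxR := hθ0 x hθx
    have hyR : y ∉ R := fun h => hyD (hD.2.1 h)
    have hx'R : x' ∉ R := fun h => hyR (hR y x' hyx'.1.le h)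
    rw [hθ' x hxR] at hθx ⊢
    rw [hθ' x' hx'R]
    exact (H (cp x)).step x hxR rfl hθx y hyx hyR x' hx'R hyx' hx'x
  · intro t ht
    have h1 := htR t ht
    have h2 := htw t ht
    refine ⟨h2.ne, h2.up, ?_, ?_, ?_, ?_, ?_⟩
    · rw [hθ' _ h1.1]; exact h2.one_le
    · rw [hθ' _ h1.1, hθ' _ h1.2]; exact h2.eq
    · rw [hθ' _ h1.1]; exact h2.le
    · rw [hθ' _ h1.1]; exact h2.costF
    · rw [hθ' _ h1.1]; exact h2.costT
  · intro t ht D hD y hy
    exact hD.2.1 (hmin t ht y hy)

section Assembly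

variable {i : ℕ} {N : Tops P → Finset P} {b : Tops P → ℕ} {θ : Tops P → P → ℕ}
  {B : Tops P → P → Prop} {Y : Finset P} {τ : P → P}

/-- assembly, bounded sums -/
theorem bounds_of_tops (H : ∀ t, NatTop i t (b t) (N t) (θ t) (B t))
    (T : TwSys (unnat N) Y topOf τ) (n0 : ℕ)
    (htw : ∀ x ∈ Y, TwinPair i (thX Y τ (fun x => θ (topOf x) x)) n0 (τ x) x)
    (β : P → ℕ) (hβ : ∀ x, x ∉ unnat N \ Y → β x ≤ thX Y τ (fun x => θ (topOf x) x) x) (n : ℕ)
    (hn : n < n0) : (1 + X : ℤ[X]) ^ (∑ t, b t) ∣ ZB i (unnat N \ Y) 0 β n := by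
  have HN := natSys_of_tops H
  have hRlev : ∀ x ∈ unnat N, i < lev x := by
    intro x hx
    by_contra hcon
    exact low_natural H (not_lt.mp hcon) hx
  refine bounds_of_compT (T.lower HN.lower) (fun x hx => hRlev x (mem_sdiff.mp hx).1) topOf
    (T.cp' HN.cp) b _ (fun x => x ∉ unnat N ∧ B (topOf x) x)
    (fun x hx h => h.1 (mem_sdiff.mp hx).1) (pairsX Y τ) n0 ?_ ?_ ?_ ?_ β hβ n hn
  · intro t
    refine CompData.toTwins ((H t).data N HN rfl _ _ ?_ ?_) T HN.lower hRlev (fun x hx h => h.1 hx)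
    · intro x hx
      simp only [HN.topOf_eq hx]
    · intro x hx
      simp only [HN.topOf_eq hx, (HN.mem_iff.mp hx).1, not_false_eq_true, true_and]
  · intro t ht
    rw [mem_pairsX] at ht
    have h1 := htw t.2 ht.1
    rw [← ht.2] at h1
    exact h1
  · intro t ht y hy
    rw [mem_pairsX] at ht
    rw [mem_sdiff]
    exact ⟨HN.lower y _ hy.le (T.sub ht.1), fun h => T.anti _ ht.1 y h hy⟩
  · intro t ht
    rw [mem_pairsX] at ht
    rw [mem_sdiff, mem_sdiff, ht.2]
    exact ⟨fun h => T.nat _ ht.1 h.1, fun h => h.2 ht.1⟩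

end Assembly

/-- larger thresholds keep twins -/
lemma TwinPair.mono {i n0 : ℕ} {θ θ' : P → ℕ} {x x' : P} (H : TwinPair i θ n0 x x')
    (h1 : θ x ≤ θ' x) (h2 : θ' x' = θ' x) (h3 : θ' x ≤ lev x - i) : TwinPair i θ' n0 x x' where
  ne := H.ne
  up := H.up
  one_le := H.one_le.trans h1
  eq := h2
  le := h3
  costF := by
    have := H.costF
    omega
  costT := by
    classical
    have h4 := H.costT
    have h5 : ∑ y, (if x < y then min (θ x + 1) (lev y - i) else 0) ≤
        ∑ y, (if x < y then min (θ' x + 1) (lev y - i) else 0) := by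
      refine Finset.sum_le_sum fun y _ => ?_
      split_ifs
      · exact min_le_min (by omega) le_rfl
      · exact le_rfl
    omega

section Lead

variable {i k n : ℕ} {z : P}

/-- dangerous sum below the cost -/
lemma ZD_zero (hz : i < lev z) (hn : n < ct i k z) : ZD i z k n = 0 := by
  classical
  rw [ZD_eq hz]
  refine Finset.sum_eq_zero fun F _ => ?_
  rw [Finset.filter_eq_empty_iff.mpr, Finset.sum_empty]
  rintro e he ⟨hV, hd⟩
  rw [mem_piAntidiag] at he
  have hs : ∑ x, e x = n := he.1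
  have h1 := Finset.sum_le_sum fun x (_ : x ∈ (univ : Finset P)) =>
    ez_le (h := fun _ => k) hV hz hd x
  unfold ct cst at hn
  omega

/-- dangerous sum at the cost -/
lemma ZD_lead (hgr : GradedBelow P) (hk : 1 ≤ k) (hz : k ≤ lev z - i) :
    ZD i z k (ct i k z) = Lt i (fun _ => k) z := by
  classical
  have hlz : i < lev z := by omega
  rw [← lead_eq (i := i) (h := fun _ => k) (z := z) hgr hk hz, ZD_eq hlz, ← sum_vd]
  refine Finset.sum_congr rfl fun F _ => ?_
  by_cases hV : Vd i (ez i (fun _ => k) z) F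
  · rw [if_pos hV, Finset.sum_eq_single (ez i (fun _ => k) z)]
    · intro e he hne
      exfalso
      rw [mem_filter, mem_piAntidiag] at he
      obtain ⟨⟨hs, -⟩, hV', hd⟩ := he
      refine hne ?_
      have h4 := ez_le (h := fun _ => k) hV' hlz hd
      funext x
      have h9 : ∑ x, ez i (fun _ => k) z x = ∑ x, e x := hs.symm
      exact ((Finset.sum_eq_sum_iff_of_le (fun x _ => h4 x)).mp h9 x (mem_univ x)).symm
    · intro h
      exfalso
      refine h (mem_filter.mpr ⟨mem_piAntidiag.mpr ⟨rfl, fun _ _ => mem_univ _⟩, hV, Or.inr ?_⟩)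
      rw [ez_self (h := fun _ => k) hz]
  · rw [if_neg hV]
    refine Finset.sum_eq_zero fun e he => ?_
    exfalso
    rw [mem_filter, mem_piAntidiag] at he
    obtain ⟨⟨hs, -⟩, hV', hd⟩ := he
    refine hV ?_
    have h4 := ez_le (h := fun _ => k) hV' hlz hd
    have h5 : ez i (fun _ => k) z = e := by
      funext x
      have h9 : ∑ x, ez i (fun _ => k) z x = ∑ x, e x := hs.symm
      exact (Finset.sum_eq_sum_iff_of_le (fun x _ => h4 x)).mp h9 x (mem_univ x)
    rw [h5]
    exact hV'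

end Lead

/-- no energy below the bound at an element -/
lemma ZB_bound_zero {i n : ℕ} {β : P → ℕ} {z : P} (hz : i < lev z) (hn : n < ct i (β z) z) :
    ZB i ∅ 0 β n = 0 := by
  classical
  unfold ZB
  refine Finset.sum_eq_zero fun F _ => ?_
  rw [Finset.filter_eq_empty_iff.mpr, Finset.sum_empty]
  intro e he hC
  rw [cst_empty_iff] at hC
  rw [mem_piAntidiag] at he
  have hs : ∑ x, e x = n := he.1
  have hd : Dgz (fun _ => β z) e F z := by
    by_cases hzF : z ∈ F
    · exact Or.inl hzF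
    · right
      have h1 := hC.2 z hzF
      rw [rho_of_lt hz] at h1
      exact_mod_cast h1
  have h1 := Finset.sum_le_sum fun x (_ : x ∈ (univ : Finset P)) =>
    ez_le (h := fun _ => β z) hC.1 hz hd x
  unfold ct cst at hn
  omega

/-- graded subposets -/
lemma gbel_sub {p : P → Prop} [DecidablePred p] (hp : ∀ x y, x ≤ y → p x → p y)
    (hgr : GradedBelow P) : GradedBelow {x : P // p x} := by
  intro z x hzx
  obtain ⟨w, h1, h2, h3⟩ := hgr (z : P) (x : P) hzx
  have hw : p w := hp _ _ h1 z.2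
  refine ⟨⟨w, hw⟩, h1, h2, ?_⟩
  rw [lev_subtype hp, lev_subtype hp]
  exact h3

end Pool.Agent.GaussPoset
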