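import Pool.Agent.W_448s8_h76.SaL

/-!
The ladder: joins with excess, (C) joins, star joins (MP_448cb3_co, S8).
-/

namespace Pool.Agent.GaussPoset

set_option linter.unusedSectionVars false

open Polynomial Finset

universe u

variable {P : Type u} [Fintype P] [PartialOrder P] [DecidableEq P] {r m : ℕ}
  {N : Tops P → Finset P} {b : Tops P → ℕ} {θ : Tops P → P → ℕ}

/-- first pole of a family of blockers -/
structure Fz (m : ℕ) (N : Tops P → Finset P) (θ : Tops P → P → ℕ) (z : P) (E : ℕ) (σ : ℤ) :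
    Prop where
  clean : ∀ n < E, (1 + X : ℤ[X]) ^ (lv P m).card ∣ ZF m (h2 (2 * m) N θ) (fam m N z) n
  lead : ∃ k : P → ℕ, (1 + X : ℤ[X]) ^ (lv P m).card ∣ ZF m (h2 (2 * m) N θ) (fam m N z) E -
    ∑ y ∈ fam m N z, (X : ℤ[X]) ^ (k y) * (1 + X) ^ ((lv P m).card - 1) ∧
    ∀ y ∈ fam m N z, (-1 : ℤ) ^ (k y) = σ

/-- terms of the same sign -/
lemma sum_empty {α : Type*} {B : ℕ} (hB : 1 ≤ B) (S : Finset α) (k : α → ℕ) {σ : ℤ} (hσ : σ ≠ 0)
    (hs : ∀ y ∈ S, (-1 : ℤ) ^ (k y) = σ)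
    (hd : (1 + X : ℤ[X]) ^ B ∣ ∑ y ∈ S, (X : ℤ[X]) ^ (k y) * (1 + X) ^ (B - 1)) : S = ∅ := by
  classical
  have h1 := sum_sign_eq_zero S k (fun _ => B - 1) B (B - 1) (by omega) (fun _ _ => le_rfl) hd
  rw [Finset.filter_true_of_mem (fun _ _ => rfl), Finset.sum_congr rfl hs, Finset.sum_const,
    nsmul_eq_mul] at h1
  rcases mul_eq_zero.mp h1 with h2 | h2
  · have h3 : S.card = 0 := by exact_mod_cast h2
    exact Finset.card_eq_zero.mp h3
  · exact absurd h2 hσ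

/-- the sum over the families -/
lemma fam_sum {p : ℤ[X]} {Bs : Finset P} (hB : ∀ z ∈ Bs, z ∈ bdR (r2 (2 * m) N))
    (hcl : ∀ z ∈ Bs, ∀ y ∈ fam m N z, y ∈ Bs) (Z : Finset P → ℤ[X]) (C : P → Prop)
    [DecidablePred C] (hC : ∀ z ∈ Bs, ∀ y ∈ fam m N z, C z → C y) {c : ℕ} {σ : ℤ}
    (h0 : ∀ z ∈ Bs, ¬ C z → p ∣ Z (fam m N z))
    (h1 : ∀ z ∈ Bs, C z → ∃ k : P → ℕ, p ∣ Z (fam m N z) -
      ∑ y ∈ fam m N z, (X : ℤ[X]) ^ (k y) * (1 + X) ^ c ∧ ∀ y ∈ fam m N z, (-1 : ℤ) ^ (k y) = σ) :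
    ∃ kk : P → ℕ, p ∣ ∑ A ∈ Bs.image (fam m N), Z A -
      ∑ y ∈ Bs.filter C, (X : ℤ[X]) ^ (kk y) * (1 + X) ^ c ∧
      ∀ y ∈ Bs.filter C, (-1 : ℤ) ^ (kk y) = σ := by
  classical
  let Q : Finset P → (P → ℕ) → Prop := fun A k => p ∣ Z A -
      ∑ y ∈ A, (X : ℤ[X]) ^ (k y) * (1 + X) ^ c ∧ ∀ y ∈ A, (-1 : ℤ) ^ (k y) = σ
  let kf : Finset P → P → ℕ := fun A => if h : ∃ k, Q A k then h.choose else 0
  have hkf : ∀ A, (∃ k, Q A k) → Q A (kf A) := by
    intro A h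
    show Q A (if h : ∃ k, Q A k then h.choose else 0)
    rw [dif_pos h]
    exact h.choose_spec
  refine ⟨fun y => kf (fam m N y) y, ?_, ?_⟩
  · have h2 : ∑ y ∈ Bs.filter C, (X : ℤ[X]) ^ (kf (fam m N y) y) * (1 + X) ^ c =
        ∑ A ∈ Bs.image (fam m N), ∑ y ∈ (Bs.filter C).filter (fun y => fam m N y = A),
          (X : ℤ[X]) ^ (kf (fam m N y) y) * (1 + X) ^ c := by
      refine (Finset.sum_fiberwise_of_maps_to ?_ _).symm
      intro y hy
      exact mem_image_of_mem _ (mem_filter.mp hy).1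
    rw [h2, ← Finset.sum_sub_distrib]
    refine Finset.dvd_sum fun A hA => ?_
    obtain ⟨z, hz, rfl⟩ := mem_image.mp hA
    by_cases hCz : C z
    · have h3 : (Bs.filter C).filter (fun y => fam m N y = fam m N z) = fam m N z := by
        ext y
        rw [mem_filter, mem_filter]
        constructor
        · rintro ⟨⟨h4, h5⟩, h6⟩
          rw [← h6]
          exact self_mem_fam (hB y h4)
        · intro h4
          exact ⟨⟨hcl z hz y h4, hC z hz y h4 hCz⟩, fam_eq h4⟩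
      rw [h3]
      have h4 := (hkf (fam m N z) (h1 z hz hCz)).1
      have h5 : ∑ y ∈ fam m N z, (X : ℤ[X]) ^ (kf (fam m N y) y) * (1 + X) ^ c =
          ∑ y ∈ fam m N z, (X : ℤ[X]) ^ (kf (fam m N z) y) * (1 + X) ^ c :=
        Finset.sum_congr rfl fun y hy => by rw [fam_eq hy]
      rw [h5]
      exact h4
    · have h3 : (Bs.filter C).filter (fun y => fam m N y = fam m N z) = ∅ := by
        rw [Finset.filter_eq_empty_iff]
        intro y hy h4
        rw [mem_filter] at hy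
        have h5 : z ∈ fam m N y := by
          rw [h4]
          exact self_mem_fam (hB z hz)
        exact hCz (hC y hy.1 z h5 hy.2)
      rw [h3, Finset.sum_empty, sub_zero]
      exact h0 z hz hCz
  · intro y hy
    rw [mem_filter] at hy
    exact (hkf (fam m N y) (h1 y hy.1 hy.2)).2 y (self_mem_fam (hB y hy.1))

/-- the step with families of blockers -/
theorem WM.stepF (W : WM r m N b θ) {n : ℕ} (hn : n < Kb m - 1) (Bk C : P → Prop)
    (hBk : ∀ z y, Bk z → (∀ w, z < w ↔ y < w) → Bk y)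
    (hC : ∀ z y, C z → (∀ w, z < w ↔ y < w) → C y)
    (hcost : ∀ z ∈ bdR (r2 (2 * m) N), ¬ Bk z → n ≤ cst m (h2 (2 * m) N θ) z)
    (hU : ∀ z ∈ bdR (r2 (2 * m) N), Bk z → ∀ z' ∈ bdR (r2 (2 * m) N), z' ∉ fam m N z →
      n < Uu m (h2 (2 * m) N θ) z z') {σ : ℤ} (hσ : σ ≠ 0)
    (h0 : ∀ z ∈ bdR (r2 (2 * m) N), Bk z → ¬ C z →
      (1 + X : ℤ[X]) ^ (lv P m).card ∣ ZF m (h2 (2 * m) N θ) (fam m N z) n)
    (h1 : ∀ z ∈ bdR (r2 (2 * m) N), Bk z → C z → ∃ k : P → ℕ,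
      (1 + X : ℤ[X]) ^ (lv P m).card ∣ ZF m (h2 (2 * m) N θ) (fam m N z) n -
      ∑ y ∈ fam m N z, (X : ℤ[X]) ^ (k y) * (1 + X) ^ ((lv P m).card - 1) ∧
      ∀ y ∈ fam m N z, (-1 : ℤ) ^ (k y) = σ)
    (hT : ∀ z ∈ bdR (r2 (2 * m) N), ¬ Bk z → cst m (h2 (2 * m) N θ) z = n →
      nab m z = nab (m + h2 (2 * m) N θ z) z + 1 ∧
      (-1 : ℤ) ^ (below P m + nst m (h2 (2 * m) N θ) z) = σ) :
    (∀ z ∈ bdR (r2 (2 * m) N), Bk z → ¬ C z) ∧
      ∀ z ∈ bdR (r2 (2 * m) N), ¬ Bk z → cst m (h2 (2 * m) N θ) z ≠ n := by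
  classical
  set Bs := (bdR (r2 (2 * m) N)).filter Bk with hBs
  have hBs1 : ∀ z ∈ Bs, z ∈ bdR (r2 (2 * m) N) ∧ Bk z := fun z hz => mem_filter.mp hz
  have hcl : ∀ z ∈ Bs, ∀ y ∈ fam m N z, y ∈ Bs := by
    intro z hz y hy
    have h2 := mem_fam.mp hy
    exact mem_filter.mpr ⟨h2.1, hBk z y (hBs1 z hz).2 h2.2⟩
  have F := W.farT
  have hP := F.plusF hn (Bs.image (fam m N)) (by
    intro A hA z hz
    obtain ⟨y, hy, rfl⟩ := mem_image.mp hA
    exact (mem_fam.mp hz).1) (by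
    intro z hz hzA
    refine hcost z hz fun hb => hzA (fam m N z) ?_ (self_mem_fam hz)
    exact mem_image_of_mem _ (mem_filter.mpr ⟨hz, hb⟩)) (by
    intro A hA z hz z' hz' hne
    obtain ⟨y, hy, rfl⟩ := mem_image.mp hA
    have h2 := fam_eq hz
    rw [← h2] at hne
    have h3 := hcl y hy z hz
    exact hU z (hBs1 z h3).1 (hBs1 z h3).2 z' hz' hne) (by
    intro A hA A' hA' hne z hz hz'
    obtain ⟨y, hy, rfl⟩ := mem_image.mp hA
    obtain ⟨y', hy', rfl⟩ := mem_image.mp hA'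
    exact hne ((fam_eq hz).symm.trans (fam_eq hz')))
  have hZ := dvd_Z W.gt.H.gauss m n
  obtain ⟨kk, hk1, hk2⟩ := fam_sum (p := (1 + X : ℤ[X]) ^ (lv P m).card) (Bs := Bs)
    (fun z hz => (hBs1 z hz).1) hcl (fun A => ZF m (h2 (2 * m) N θ) A n) C
    (fun z hz y hy h => hC z y h (mem_fam.mp hy).2)
    (fun z hz h => h0 z (hBs1 z hz).1 (hBs1 z hz).2 h)
    (fun z hz h => h1 z (hBs1 z hz).1 (hBs1 z hz).2 h)
  set T := (bdR (r2 (2 * m) N)).filter (fun z => (∀ A ∈ Bs.image (fam m N), z ∉ A) ∧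
    cst m (h2 (2 * m) N θ) z = n) with hTdef
  have hTm : ∀ z, z ∈ T ↔ z ∈ bdR (r2 (2 * m) N) ∧ ¬ Bk z ∧ cst m (h2 (2 * m) N θ) z = n := by
    intro z
    rw [hTdef, mem_filter]
    constructor
    · rintro ⟨h2, h3, h4⟩
      refine ⟨h2, fun hb => h3 (fam m N z) ?_ (self_mem_fam h2), h4⟩
      exact mem_image_of_mem _ (mem_filter.mpr ⟨h2, hb⟩)
    · rintro ⟨h2, h3, h4⟩
      refine ⟨h2, fun A hA hz => ?_, h4⟩
      obtain ⟨y, hy, rfl⟩ := mem_image.mp hA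
      exact h3 (hBs1 z (hcl y hy z hz)).2
  have hB1 : ∀ z : P, m ≤ lev z → 1 ≤ (lv P m).card := by
    intro z hz
    have h2 := one_le_nab (z := z) (l := m) hz
    unfold nab at h2
    exact h2.trans (Finset.card_filter_le _ _)
  have hlevz : ∀ z ∈ bdR (r2 (2 * m) N), m ≤ lev z := by
    intro z hz
    have := W.lt_lev (mem_sdiff.mp (bd_mem hz)).1
    omega
  -- the combined sum
  set kx : P → ℕ := fun y => if Bk y then kk y else below P m + nst m (h2 (2 * m) N θ) y with hkx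
  have hdis : Disjoint (Bs.filter C) T := by
    rw [Finset.disjoint_left]
    intro y hy hy'
    exact ((hTm y).mp hy').2.1 (hBs1 y (mem_filter.mp hy).1).2
  have hsum : ∑ y ∈ Bs.filter C ∪ T, (X : ℤ[X]) ^ (kx y) * (1 + X) ^ ((lv P m).card - 1) =
      ∑ y ∈ Bs.filter C, (X : ℤ[X]) ^ (kk y) * (1 + X) ^ ((lv P m).card - 1) +
      ∑ z ∈ T, Lt m (h2 (2 * m) N θ) z := by
    rw [Finset.sum_union hdis]
    congr 1
    · refine Finset.sum_congr rfl fun y hy => ?_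
      rw [hkx]
      simp only
      rw [if_pos (hBs1 y (mem_filter.mp hy).1).2]
    · refine Finset.sum_congr rfl fun y hy => ?_
      obtain ⟨g2, h3, h4⟩ := (hTm y).mp hy
      have h5 := (hT y g2 h3 h4).1
      rw [hkx]
      simp only
      rw [if_neg h3]
      unfold Lt
      have h6 := nab_le y m
      rw [show (lv P m).card + nab (m + h2 (2 * m) N θ y) y - nab m y = (lv P m).card - 1 by omega]
  have hmain : (1 + X : ℤ[X]) ^ (lv P m).card ∣
      ∑ y ∈ Bs.filter C ∪ T, (X : ℤ[X]) ^ (kx y) * (1 + X) ^ ((lv P m).card - 1) := by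
    rw [hsum]
    have g2 := dvd_sub hZ hP
    rw [sub_sub_cancel] at g2
    have h3 := dvd_sub g2 hk1
    have h4 : ∑ A ∈ Bs.image (fam m N), ZF m (h2 (2 * m) N θ) A n +
        ∑ z ∈ T, Lt m (h2 (2 * m) N θ) z - (∑ A ∈ Bs.image (fam m N), ZF m (h2 (2 * m) N θ) A n -
        ∑ y ∈ Bs.filter C, (X : ℤ[X]) ^ (kk y) * (1 + X) ^ ((lv P m).card - 1)) =
        ∑ y ∈ Bs.filter C, (X : ℤ[X]) ^ (kk y) * (1 + X) ^ ((lv P m).card - 1) +
        ∑ z ∈ T, Lt m (h2 (2 * m) N θ) z := by ring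
    rw [h4] at h3
    exact h3
  have hsig : ∀ y ∈ Bs.filter C ∪ T, (-1 : ℤ) ^ (kx y) = σ := by
    intro y hy
    rw [mem_union] at hy
    rcases hy with hy | hy
    · rw [hkx]
      simp only
      rw [if_pos (hBs1 y (mem_filter.mp hy).1).2]
      exact hk2 y hy
    · obtain ⟨g2, h3, h4⟩ := (hTm y).mp hy
      rw [hkx]
      simp only
      rw [if_neg h3]
      exact (hT y g2 h3 h4).2
  have hempty : ∀ y ∈ Bs.filter C ∪ T, False := by
    intro y hy
    have hyb : y ∈ bdR (r2 (2 * m) N) := by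
      rw [mem_union] at hy
      rcases hy with hy | hy
      · exact (hBs1 y (mem_filter.mp hy).1).1
      · exact ((hTm y).mp hy).1
    have h2 := sum_empty (hB1 y (hlevz y hyb)) _ kx hσ hsig hmain
    rw [h2] at hy
    exact absurd hy (Finset.notMem_empty y)
  constructor
  · intro z hz hb hc
    exact hempty z (mem_union_left _ (mem_filter.mpr ⟨mem_filter.mpr ⟨hz, hb⟩, hc⟩))
  · intro z hz hb hc
    exact hempty z (mem_union_right _ ((hTm z).mpr ⟨hz, hb, hc⟩))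

/-- the common sign of the (C) joins and the joins with excess -/
noncomputable def sg1 (P : Type u) [Fintype P] [PartialOrder P] [DecidableEq P] (m : ℕ) : ℤ :=
  (-1) ^ (below P m + sgF m + hh m)

lemma sgT_hh (m : ℕ) : (-1 : ℤ) ^ (below P m) * sgT m (hh m ^ 2) = sg1 P m := by
  unfold sgT sg1
  rw [if_neg, mul_one, ← pow_add, Nat.add_assoc]
  rintro ⟨h1, h2⟩
  have : hh m = 2 := by
    unfold hh
    omega
  rw [this] at h2
  norm_num at h2

theorem WM.ladder (W : WM r m N b θ) (S7 : S7M m N b θ) {σ : ℤ}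
    (hcc : ∀ z ∈ bdR (r2 (2 * m) N), CcM m N b θ z → Fz m N θ z (E0 m + hh m ^ 2) (sg1 P m))
    (hst : ∀ z ∈ bdR (r2 (2 * m) N), StM m N b θ z → Fz m N θ z (E0 m + m + 1) σ) :
    ∀ d, d ≤ 10 → (∀ z ∈ bdR (r2 (2 * m) N), ∀ s, ¬ Num m N θ z (hh m) (E0 m + d) 1 s) ∧
      (hh m ^ 2 ≤ d → ∀ z ∈ bdR (r2 (2 * m) N), ¬ CcM m N b θ z) := by
  have I := numI W.ten
  have i4 := I.i4
  have i5 := I.i5
  have hm := W.ten
  have hh1 := hh_pos m
  have hsq : 1 ≤ hh m ^ 2 := Nat.one_le_pow _ _ hh1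
  intro d
  induction d using Nat.strong_induction_on with
  | _ d ih =>
  intro hd
  rcases Nat.eq_zero_or_pos d with h0 | h0
  · subst h0
    exact ⟨fun z hz s hn => W.no_T0 S7 hz hn, fun h => by omega⟩
  have hdead : hh m ^ 2 < d → ∀ z ∈ bdR (r2 (2 * m) N), ¬ CcM m N b θ z := fun h =>
    (ih (d - 1) (by omega) (by omega)).2 (by omega)
  have hrow : ∀ z ∈ bdR (r2 (2 * m) N), ¬ (CcM m N b θ z ∨ StM m N b θ z) →
      (E0 m + d < cst m (h2 (2 * m) N θ) z) ∨ ∃ d' s, d ≤ d' ∧ Num m N θ z (hh m) (E0 m + d') 1 s ∧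
        (-1 : ℤ) ^ s = sgT m d' := by
    intro z hz hb
    rcases W.rows2 S7 hz with h | ⟨y, y', hl', hy, hy', ht, hzy, hzy', hn'⟩ |
      ⟨y, y', Nc', co', hl', hy, hcy, hy', hcy', hzy, hzy', s, hn'⟩ |
      ⟨y, y', hl', hy, hy', h1, ht, hzy, hzy', d', s, hd0, hd', hn', hs⟩ |
      ⟨y, y', hl', hy, hy', h1, ht, hzy, hzy', hq, s, hn'⟩
    · left
      omega
    · left
      have := hn'.cst
      omega
    · exact absurd (Or.inl ⟨hl', y, y', Nc', co', hy, hcy, hy', hcy', hzy, hzy'⟩) hb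
    · right
      refine ⟨d', s, ?_, hn', hs⟩
      by_contra hlt
      exact (ih d' (by omega) (by omega)).1 z hz s hn'
    · exact absurd (Or.inr ⟨hl', y, y', hy, hy', h1, ht, hzy, hzy', hq⟩) hb
  have key := W.stepF (n := E0 m + d) (by omega) (fun z => CcM m N b θ z ∨ StM m N b θ z)
    (fun z => CcM m N b θ z ∧ d = hh m ^ 2)
    (fun z y h hy => h.imp (fun h => h.same hy) (fun h => h.same hy))
    (fun z y h hy => ⟨h.1.same hy, h.2⟩) (fun z hz hb => ?_) (fun z hz hb z' hz' hn => ?_)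
    (σ := (-1) ^ (below P m) * sgT m d)
    (mul_ne_zero (pow_ne_zero _ (by norm_num)) (sgT_ne m d)) (fun z hz hb hc => ?_)
    (fun z hz hb hc => ?_) (fun z hz hb hc => ?_)
  · obtain ⟨k1, k2⟩ := key
    constructor
    · intro z hz s hn
      refine k2 z hz ?_ hn.cst
      rintro (⟨hl, x, x', Nc, co, e1, e2, e3, e4, e5, e6⟩ | ⟨hl, x, x', e1, e2, e3, e4, e5, e6, e7⟩)
      · obtain ⟨s', hn'⟩ := W.num_cc (bd_mem hz) hl e1 e2 e3 e4 e5 e6
        have f1 := hn.drop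
        have f2 := hn'.drop
        omega
      · obtain ⟨-, s', hn'⟩ := W.num_star (bd_mem hz) hl e1 e2 e4 e5 e6 e7
        have f1 := hn.drop
        have f2 := hn'.drop
        omega
    · intro hle z hz hc
      rcases eq_or_lt_of_le hle with h | h
      · exact k1 z hz (Or.inl hc) ⟨hc, h.symm⟩
      · exact hdead h z hz hc
  · rcases hrow z hz hb with h | ⟨d', s, h, hn, -⟩
    · omega
    · rw [hn.cst]
      omega
  · rcases hb with hb | hb
    · have := W.U_cc S7 hz hz' hb hn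
      omega
    · have := W.U_st S7 hz hz' hb hn
      omega
  · by_cases hcz : CcM m N b θ z
    · have hne : d ≠ hh m ^ 2 := fun h => hc ⟨hcz, h⟩
      rcases Nat.lt_or_ge d (hh m ^ 2) with h | h
      · exact (hcc z hz hcz).clean _ (by omega)
      · exact (hdead (by omega) z hz hcz).elim
    · exact (hst z hz (hb.resolve_left hcz)).clean _ (by omega)
  · have h1 := (hcc z hz hc.1).lead
    rw [← hc.2] at h1
    have h2 : (-1 : ℤ) ^ (below P m) * sgT m d = sg1 P m := by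
      rw [hc.2]
      exact sgT_hh m
    rw [h2]
    exact h1
  · rcases hrow z hz hb with h | ⟨d', s, h, hn, hs⟩
    · omega
    · have h3 := hn.cst
      have h4 : d' = d := by omega
      subst h4
      refine ⟨?_, ?_⟩
      · rw [hn.lab]
        exact hn.drop
      · rw [hn.nst, pow_add, hs]

/-- after the ladder: large cost or two fold ends -/
theorem WM.rows3 (W : WM r m N b θ) (S7 : S7M m N b θ) {σ : ℤ} (hσ : σ ≠ 0)
    (hcc : ∀ z ∈ bdR (r2 (2 * m) N), CcM m N b θ z → Fz m N θ z (E0 m + hh m ^ 2) (sg1 P m))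
    (hst : ∀ z ∈ bdR (r2 (2 * m) N), StM m N b θ z → Fz m N θ z (E0 m + m + 1) σ) {z : P}
    (hz : z ∈ bdR (r2 (2 * m) N)) : Kb m - 1 ≤ cst m (h2 (2 * m) N θ) z ∨
      (lev z = 2 * m + 1 ∧ ∃ x x', FoldM m N b θ x ∧ FoldM m N b θ x' ∧ topOf x ≠ topOf x' ∧
        z ⋖ x ∧ z ⋖ x') := by
  have I := numI W.ten
  have i4 := I.i4
  have i5 := I.i5
  have hm := W.ten
  have hh1 := hh_pos m
  have hh2 := hh_le m
  have L := W.ladder S7 hcc hst
  have hsq : hh m ^ 2 ≤ 10 := by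
    calc hh m ^ 2 ≤ 2 ^ 2 := Nat.pow_le_pow_left hh2 2
      _ ≤ 10 := by norm_num
  have hnc := (L 10 le_rfl).2 hsq
  have hrow : ∀ z ∈ bdR (r2 (2 * m) N), ¬ StM m N b θ z →
      E0 m + m + 1 < cst m (h2 (2 * m) N θ) z := by
    intro z hz hb
    rcases W.rows2 S7 hz with h | ⟨y, y', hl', hy, hy', ht, hzy, hzy', hn'⟩ |
      ⟨y, y', Nc', co', hl', hy, hcy, hy', hcy', hzy, hzy', s, hn'⟩ |
      ⟨y, y', hl', hy, hy', h1, ht, hzy, hzy', d', s, hd0, hd', hn', hs⟩ |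
      ⟨y, y', hl', hy, hy', h1, ht, hzy, hzy', hq, s, hn'⟩
    · omega
    · have := hn'.cst
      omega
    · exact absurd ⟨hl', y, y', Nc', co', hy, hcy, hy', hcy', hzy, hzy'⟩ (hnc z hz)
    · exact ((L d' hd').1 z hz s hn').elim
    · exact absurd ⟨hl', y, y', hy, hy', h1, ht, hzy, hzy', hq⟩ hb
  have key := W.stepF (n := E0 m + m + 1) (by omega) (fun z => StM m N b θ z)
    (fun z => StM m N b θ z) (fun z y h hy => h.same hy) (fun z y h hy => h.same hy)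
    (fun z hz hb => (hrow z hz hb).le) (fun z hz hb z' hz' hn => by
      have := W.U_st S7 hz hz' hb hn
      omega) hσ (fun z hz hb hc => absurd hb hc) (fun z hz hb _ => (hst z hz hb).lead)
    (fun z hz hb hc => by
      have := hrow z hz hb
      omega)
  rcases W.rows2 S7 hz with h | ⟨y, y', hl', hy, hy', ht, hzy, hzy', hn'⟩ |
    ⟨y, y', Nc', co', hl', hy, hcy, hy', hcy', hzy, hzy', s, hn'⟩ |
    ⟨y, y', hl', hy, hy', h1, ht, hzy, hzy', d', s, hd0, hd', hn', hs⟩ |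
    ⟨y, y', hl', hy, hy', h1, ht, hzy, hzy', hq, s, hn'⟩
  · exact Or.inl h
  · exact Or.inr ⟨hl', y, y', hy, hy', ht, hzy, hzy'⟩
  · exact absurd ⟨hl', y, y', Nc', co', hy, hcy, hy', hcy', hzy, hzy'⟩ (hnc z hz)
  · exact ((L d' hd').1 z hz s hn').elim
  · have h2 : StM m N b θ z := ⟨hl', y, y', hy, hy', h1, ht, hzy, hzy', hq⟩
    exact absurd h2 (key.1 z hz h2)

end Pool.Agent.GaussPoset
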