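import Pool.Agent.W_448s8_h76.SaF

/-!
Numbers of elements above, labels, costs (MP_448cb3_co, S8).
-/

namespace Pool.Agent.GaussPoset

set_option linter.unusedSectionVars false

open Polynomial Finset

universe u

variable {P : Type u} [Fintype P] [PartialOrder P] [DecidableEq P] {r m : ℕ}
  {N : Tops P → Finset P} {b : Tops P → ℕ} {θ : Tops P → P → ℕ}

section Nab

lemma nab_pend {z x : P} (h : Pend z x) {l : ℕ} (hl : l < lev z) : nab l z = nab l x := by
  classical
  unfold nab
  congr 1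
  ext y
  rw [mem_filter, mem_filter, mem_lv]
  refine and_congr_right fun h1 => ⟨fun h2 => ?_, fun h2 => h.1.le.trans h2⟩
  have hne : z ≠ y := by rintro rfl; omega
  obtain ⟨v, hv, hvy⟩ := Hul.exists_cov (lt_of_le_of_ne h2 hne)
  rw [h.2 v hv] at hvy
  exact hvy

lemma FoldM.lev {x : P} (h : FoldM m N b θ x) : Pool.Agent.GaussPoset.lev x = 2 * m := by
  obtain ⟨Nc, co, h1, h2⟩ := h
  rw [h1.stair.chart.lev x h1.mem, h2]
  simp only
  omega

lemma FoldM.th {x : P} (h : FoldM m N b θ x) : θ (topOf x) x = m % 2 := by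
  obtain ⟨Nc, co, h1, h2⟩ := h
  rw [h1.th, h2]
  simp only
  omega

lemma FoldM.nab {x : P} (h : FoldM m N b θ x) {u : ℕ} (hu : u ≤ m) :
    Pool.Agent.GaussPoset.nab (m + u) x = nF m u := by
  obtain ⟨Nc, co, h1, h2⟩ := h
  rw [nab_chart h1.stair.chart h1.mem, h2]
  have := card_cellsAt_shift (l := m + u) (p := (m, m)) le_rfl (by simp only; omega)
  simp only at this
  unfold nF
  omega

lemma FoldM.pos {x : P} (h : FoldM m N b θ x) : 1 ≤ m := by
  obtain ⟨Nc, co, h1, h2⟩ := h
  have := h1.fst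
  rw [h2] at this
  exact this

/-- the elements above the bottom of a quadric strip -/
lemma WM.nab_quad (W : WM r m N b θ) {a : ℕ} {v : P} (h : QInf m a (topOf v))
    (hl : lev v = 2 * m) {l : ℕ} (hl2 : l ≤ 2 * m) : nab l v = if l = a then 2 else 1 := by
  classical
  rw [← h.cn l hl2]
  unfold nab cn
  congr 1
  ext x
  rw [mem_filter, mem_filter, mem_lv]
  refine and_congr_right fun h1 => ⟨fun h2 => ?_, fun h2 => ?_⟩
  · rw [W.natSys.cp v x h2 (W.low hl.le)]
    exact le_topOf x
  · exact h.bot v (le_topOf v) hl x h2 (by omega)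

lemma WM.nab_le_cn (W : WM r m N b θ) {v : P} (hl : lev v ≤ 2 * m) (l : ℕ) :
    nab l v ≤ cn l (topOf v : P) := by
  classical
  unfold nab cn
  refine Finset.card_le_card fun x hx => ?_
  rw [mem_filter] at hx ⊢
  refine ⟨hx.1, ?_⟩
  rw [W.natSys.cp v x hx.2 (W.low hl)]
  exact le_topOf x

end Nab

/-- the single-up elements of level `2 m` with full threshold -/
inductive VInf (m : ℕ) (v : P) : Prop
  | late (h1 : ∀ l, l ≤ m + 2 → nab l v = 1) (h2 : ∑ l ∈ range (2 * m), (nab l v - 1) ≤ 5)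
  | quad (a : ℕ) (h1 : a = m + 1 ∨ a = m + 2) (h2 : QInf m a (topOf v))

lemma VInf.straight {v : P} (hm : 2 ≤ m) (h : ∀ l, l ≤ 2 * m → nab l v = 1) : VInf m v := by
  refine VInf.late (fun l hl => h l (by omega)) ?_
  rw [Finset.sum_eq_zero]
  · exact Nat.zero_le _
  · intro l hl
    rw [mem_range] at hl
    rw [h l hl.le, Nat.sub_self]

theorem WM.vinf (W : WM r m N b θ) {v : P} (hl : lev v = 2 * m) (hF : FullM m N θ v)
    (h1 : (Win.uc v).card = 1) : VInf m v := by
  have H := W.gt.H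
  have hm := W.ten
  have hth := hF.th
  rcases W.typ (topOf v) with ⟨g1, g2, g3, g5, g6, g7⟩ | ⟨Nc, co, g0, g1, g2, g3⟩ |
    ⟨Nc, co, g0, g1, g2, g3, g4⟩ | ⟨g1, g2, g3, g4⟩
  · rcases g7 with ⟨e1, e2⟩ | ⟨a, e1, e2⟩
    · refine VInf.late (fun l hl2 => ?_) (e2 v (le_topOf v) hl h1)
      have h3 := W.nab_le_cn hl.le l
      rw [e1 l hl2] at h3
      have h4 := one_le_nab (z := v) (l := l) (by omega)
      omega
    · exact VInf.quad a e1 e2
  · have hv : v ∈ Nc := g0.strip (mem_lowPart.mpr ⟨le_topOf v, hl.le⟩)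
    have hcl := g0.chart.lev v hv
    refine VInf.straight (by omega) fun l hl2 => ?_
    have h3 : (co v).1 = 0 ∨ (co v).2 = 0 := by
      by_contra hcon
      have := chart_inner_uc g0.chart H hv (by omega) (by omega)
      omega
    rw [nab_chart g0.chart hv]
    have := card_cellsAt_true (l := l) (p := co v) (by omega)
    omega
  · have hv : v ∈ Nc := g0.strip (mem_lowPart.mpr ⟨le_topOf v, hl.le⟩)
    have hcl := g0.chart.lev v hv
    have hS : (co v).1 ≤ (co v).2 := g0.chart.mem v hv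
    by_cases h3 : (co v).1 = 0
    · refine VInf.straight (by omega) fun l hl2 => ?_
      rw [nab_chart g0.chart hv]
      have := card_cellsAt_shift (l := l) (p := co v) hS (by omega)
      omega
    · exfalso
      by_cases h4 : (co v).1 = (co v).2
      · have hJ : v ∉ junk (fun c => c.1 ≤ c.2) Nc co := by
          intro hJ
          obtain ⟨x1, H1, hz1⟩ := mem_junk.mp hJ
          exact h3 (H1.tail g0.chart hv (mem_jset.mp hz1).1).1
        rw [g2, hl] at hth
        unfold thS at hth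
        rw [if_neg hJ] at hth
        omega
      · have := chartS_inner_uc g0.chart H hv (by omega) (by omega)
        omega
  · rw [g2, hl] at hth
    have h3 : (0 : ℕ) = 2 * m - m := hth
    omega

/-- the sum of the labels `k` above an element of level `2 m` (levels at least `m`) -/
noncomputable def vs (m k : ℕ) (v : P) : ℕ := ∑ u ∈ range (m + 1), min k u * nab (m + u) v

lemma ct_top {z : P} {k : ℕ} (hl : lev z = 2 * m + 1) (hk : k ≤ m + 1) :
    ct m k z = vs m k z + k := by
  unfold ct vs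
  rw [cst_eq, hl, Finset.sum_range_succ, ← hl, nab_self, hl,
    show 2 * m + 1 = m + (m + 1) by ring, Finset.sum_range_add, Finset.sum_eq_zero, zero_add]
  · congr 1
    · refine Finset.sum_congr rfl fun u _ => ?_
      rw [Nat.add_sub_cancel_left]
    · rw [Nat.add_sub_cancel_left, Nat.min_eq_left hk, Nat.mul_one]
  · intro l hl
    rw [mem_range] at hl
    rw [show l - m = 0 by omega, Nat.min_zero, Nat.zero_mul]

lemma vs_congr {k : ℕ} {v w : P} (h : ∀ u, u ≤ m → nab (m + u) v = nab (m + u) w) :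
    vs m k v = vs m k w := by
  unfold vs
  refine Finset.sum_congr rfl fun u hu => ?_
  rw [mem_range] at hu
  rw [h u (by omega)]

lemma vs_add {k : ℕ} {z v w : P} (h : ∀ u, u ≤ m → nab (m + u) z = nab (m + u) v + nab (m + u) w) :
    vs m k z = vs m k v + vs m k w := by
  unfold vs
  rw [← Finset.sum_add_distrib]
  refine Finset.sum_congr rfl fun u hu => ?_
  rw [mem_range] at hu
  rw [h u (by omega)]
  ring

lemma FoldM.vs {x : P} (h : FoldM m N b θ x) (k : ℕ) : vs m k x = NF m k := by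
  unfold Pool.Agent.GaussPoset.vs NF
  refine Finset.sum_congr rfl fun u hu => ?_
  rw [mem_range] at hu
  rw [h.nab (by omega)]

lemma vs_one {k : ℕ} {v : P} (h : ∀ u, 1 ≤ u → u ≤ m → nab (m + u) v = 1) : vs m k v = NL m k := by
  unfold vs NL
  refine Finset.sum_congr rfl fun u hu => ?_
  rw [mem_range] at hu
  rcases Nat.eq_zero_or_pos u with h0 | h0
  · subst h0
    simp
  · rw [h u h0 (by omega), Nat.mul_one]

/-- number of extras between the levels `m` and `2 m` -/
noncomputable def exs (m : ℕ) (v : P) : ℕ := ∑ u ∈ range m, (nab (m + u) v - 1)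

lemma vs_late {k : ℕ} (hk : k ≤ 2) {v : P} (hl : lev v = 2 * m)
    (h1 : ∀ l, l ≤ m + 2 → nab l v = 1) : vs m k v = NL m k + k * exs m v := by
  have h2 : exs m v = ∑ u ∈ range (m + 1), (nab (m + u) v - 1) := by
    unfold exs
    rw [Finset.sum_range_succ, show m + m = lev v by omega, nab_self, Nat.sub_self, Nat.add_zero]
  rw [h2, vs, NL, Finset.mul_sum, ← Finset.sum_add_distrib]
  refine Finset.sum_congr rfl fun u hu => ?_
  rw [mem_range] at hu
  have h3 := one_le_nab (z := v) (l := m + u) (by omega)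
  obtain ⟨n, hn⟩ : ∃ n, nab (m + u) v = n + 1 := ⟨nab (m + u) v - 1, by omega⟩
  rcases Nat.lt_or_ge u 3 with h4 | h4
  · rw [h1 (m + u) (by omega)]
    simp
  · rw [hn, Nat.min_eq_left (by omega), Nat.add_sub_cancel]
    ring

lemma vs_quad {k a : ℕ} {v : P} (ha : m ≤ a) (ha2 : a ≤ 2 * m)
    (h : ∀ u, u ≤ m → nab (m + u) v = if m + u = a then 2 else 1) :
    vs m k v = NL m k + min k (a - m) := by
  have h1 : ∑ u ∈ range (m + 1), (if u = a - m then min k u else 0) = min k (a - m) := by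
    rw [Finset.sum_ite_eq' (range (m + 1)) (a - m), if_pos (mem_range.mpr (by omega))]
  rw [← h1, vs, NL, ← Finset.sum_add_distrib]
  refine Finset.sum_congr rfl fun u hu => ?_
  rw [mem_range] at hu
  rw [h u (by omega)]
  by_cases h2 : m + u = a
  · rw [if_pos h2, if_pos (by omega)]
    ring
  · rw [if_neg h2, if_neg (by omega)]
    ring

lemma exs_le {v : P} (h : ∑ l ∈ range (2 * m), (nab l v - 1) ≤ 5) : exs m v ≤ 5 := by
  rw [show 2 * m = m + m by ring, Finset.sum_range_add] at h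
  unfold exs
  omega

section Labels

/-- the label of a boundary element of level `2 m + 1` -/
lemma WM.h2_eq (W : WM r m N b θ) {z x : P} (hz : z ∈ r2 (2 * m) N) (hl : lev z = 2 * m + 1)
    (hzx : z ⋖ x) (hmin : ∀ y, z ⋖ y → θ (topOf x) x ≤ θ (topOf y) y) :
    h2 (2 * m) N θ z = θ (topOf x) x + 1 := by
  classical
  have H := W.gt.H
  have hlev : ∀ y, z ⋖ y → lev y = 2 * m := by
    intro y hy
    have := (H.covBy_iff.mp hy).2
    omega
  have hnY : ∀ y, z ⋖ y → y ∉ twY (2 * m) N := by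
    intro y hy h
    have h1 := hlev y hy
    have h2 := (mem_twY.mp h).2.1
    omega
  have hnR : ∀ y, z ⋖ y → y ∉ r2 (2 * m) N := fun y hy h =>
    W.low (hlev y hy).le (mem_sdiff.mp h).1
  have hbd : z ∈ bdR (r2 (2 * m) N) := mem_filter.mpr ⟨hz, x, hnR x hzx, hzx⟩
  refine le_antisymm ?_ ?_
  · refine (hcan_le (θ := thX (twY (2 * m) N) (twT N) (fun x => θ (topOf x) x)) (hnR x hzx)
      hzx).trans ?_
    rw [thX_not (hnY x hzx)]
  · obtain ⟨y, hy, hzy, hh⟩ := hcan_spec
      (θ := thX (twY (2 * m) N) (twT N) (fun x => θ (topOf x) x)) hbd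
    rw [thX_not (hnY y hzy)] at hh
    have h3 := hmin y hzy
    show _ ≤ hcan _ _ z
    omega

lemma WM.mem_bd (W : WM r m N b θ) {z : P} (hz : z ∈ r2 (2 * m) N) (hl : lev z = 2 * m + 1) :
    z ∈ bdR (r2 (2 * m) N) := by
  classical
  have hzt : z < (topOf z : P) := lt_of_le_of_ne (le_topOf z) (by
    intro h
    have := (topOf z).2
    rw [← h] at this
    omega)
  obtain ⟨x, hzx, -⟩ := Hul.exists_cov hzt
  refine mem_filter.mpr ⟨hz, x, fun h => ?_, hzx⟩
  have h1 := (W.gt.H.covBy_iff.mp hzx).2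
  exact W.low (by omega) (mem_sdiff.mp h).1

lemma cst_ct {i k : ℕ} {h : P → ℕ} {z : P} (hk : h z = k) : cst i h z = ct i k z := by
  unfold ct cst ez
  rw [hk]

lemma nst_one {h : P → ℕ} {z : P} (hk : h z = 1) : nst m h z = nab m z := by
  rw [nst_eq, hk, Finset.sum_range_one, Nat.add_zero]

lemma nst_two {h : P → ℕ} {z : P} (hk : h z = 2) : nst m h z = nab m z + nab (m + 1) z := by
  rw [nst_eq, hk, Finset.sum_range_succ, Finset.sum_range_one, Nat.add_zero]

/-- joins of natural elements of level `2 m` of different tops -/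
lemma WM.nab_join (W : WM r m N b θ) {z x x' : P} (hl : lev z = 2 * m + 1) (hzx : z ⋖ x)
    (hzx' : z ⋖ x') (ht : topOf x ≠ topOf x') {l : ℕ} (hl2 : l ≤ 2 * m) :
    nab l z = nab l x + nab l x' := by
  have H := W.gt.H
  have HN := W.natSys
  have h1 := (H.covBy_iff.mp hzx).2
  have h2 := (H.covBy_iff.mp hzx').2
  exact nab_join_eq HN H (HN.mem_iff.mpr ⟨W.low (by omega), rfl⟩)
    (HN.mem_iff.mpr ⟨W.low (by omega), rfl⟩) ht hzx hzx' (by omega)

lemma hh_eq (m : ℕ) : hh m = m % 2 + 1 := by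
  unfold hh
  omega

/-- `nF m 0 = nF m h + 1` -/
lemma nF_drop (hm : 1 ≤ m) : nF m 0 = nF m (hh m) + 1 := by
  unfold nF hh
  omega

end Labels

end Pool.Agent.GaussPoset
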