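import Pool.Agent.W_448s8_h76.SaS

/-!
# No joins on the level `j + 1`, `j ≥ 19` (MP_448cb3_co): S7 and S8 together
-/

namespace Pool.Agent.GaussPoset

set_option linter.unusedSectionVars false

open Finset

universe u

variable {P : Type u} [Fintype P] [PartialOrder P] [DecidableEq P] {r j m : ℕ}

section Straight

variable {t : Tops P} {lo hi : ℕ → ℕ} {e : ℕ → ℕ → P}

/-- single-up elements of rectangles are straight -/
lemma straight_rect (G : Win.GoodTo P r j) (C : Cp.Comp j (t : P) lo hi e)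
    (S : RectShape j lo hi) {x : P} (hx : x ≤ (t : P)) (hl : lev x = j)
    (h1 : (Win.uc x).card = 1) : ∀ k, k ≤ j → nab k x = 1 := by
  intro k hk
  have Ch := chart_rect C G.H G.good S
  have hxN : x ∈ lowPart j (t : P) := mem_lowPart.mpr ⟨hx, hl.le⟩
  have hc := Ch.lev x hxN
  have h3 : (ccoord lo hi e x).1 = 0 ∨ (ccoord lo hi e x).2 = 0 := by
    by_contra hcon
    have := chart_inner_uc Ch G.H hxN (by omega) (by omega)
    omega
  rw [nab_chart Ch hxN]
  have := card_cellsAt_true (l := k) (p := ccoord lo hi e x) (by omega)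
  omega

/-- single-up elements of stairs are straight or fold ends -/
lemma straight_stair (G : Win.GoodTo P r j) (C : Cp.Comp j (t : P) lo hi e)
    (S : StairShape j lo hi) {x : P} (hx : x ≤ (t : P)) (hl : lev x = j)
    (h1 : (Win.uc x).card = 1) : (∀ k, k ≤ j → nab k x = 1) ∨
      (j = 2 * (j / 2) ∧ x = e j (j / 2)) := by
  have Ch := chart_stair C G.H G.good S
  have hxN : x ∈ lowPart j (t : P) := mem_lowPart.mpr ⟨hx, hl.le⟩
  have hc := Ch.lev x hxN
  have hS : (ccoord lo hi e x).1 ≤ (ccoord lo hi e x).2 := Ch.mem x hxN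
  by_cases h0 : (ccoord lo hi e x).1 = 0
  · left
    intro k hk
    rw [nab_chart Ch hxN]
    have := card_cellsAt_shift (l := k) (p := ccoord lo hi e x) hS (by omega)
    omega
  · right
    have h3 : (ccoord lo hi e x).1 = (ccoord lo hi e x).2 := by
      by_contra hcon
      have := chartS_inner_uc Ch G.H hxN (by omega) (by omega)
      omega
    refine ⟨by omega, ?_⟩
    have h4 := (scoord_spec C hx hl.le).2.2
    have h5 : (ccoord lo hi e x).1 = scoord lo hi e x := rfl
    have h6 : scoord lo hi e x = j / 2 := by omega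
    rw [hl, h6] at h4
    exact h4.symm

end Straight

/-- both covers of an element below two maximal elements are single-up -/
lemma single_of_join (G : Win.GoodTo P r j) (hj : 2 ≤ j) {z x x' : P} (hl : lev z = j + 1)
    (hzx : z ⋖ x) (hzx' : z ⋖ x') (hne : topOf x ≠ topOf x') :
    (Win.uc x).card = 1 ∧ (Win.uc x').card = 1 := by
  classical
  obtain ⟨i, hi⟩ : ∃ i, j = i + 1 := ⟨j - 1, by omega⟩
  subst hi
  rcases (Win.near_level' G (by omega)).1 z x x' (by omega) hzx hzx'
    (fun h => hne (by rw [h])) with h | ⟨h1, h2, -⟩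
  · exfalso
    obtain ⟨p, hp⟩ := Finset.card_eq_one.mp h
    have hp2 : x ⋖ p ∧ x' ⋖ p := by
      have : p ∈ (univ.filter (fun y : P => x ⋖ y ∧ x' ⋖ y)) := by rw [hp]; simp
      simpa using this
    have l1 := (G.H.covBy_iff.mp hzx).2
    have l2 := (G.H.covBy_iff.mp hzx').2
    have e1 := mem_onlyB.mp (only_of_le G.H G.good (le_topOf x) (by omega)) (topOf p : P)
      (topOf p).2 (hp2.1.le.trans (le_topOf p))
    have e2 := mem_onlyB.mp (only_of_le G.H G.good (le_topOf x') (by omega)) (topOf p : P)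
      (topOf p).2 (hp2.2.le.trans (le_topOf p))
    exact hne (Subtype.ext (e1.symm.trans e2))
  · exact ⟨h1, h2⟩

/-- the seventh step in the context of S8 -/
theorem s7M_of {N : Tops P → Finset P} {b : Tops P → ℕ} {θ : Tops P → P → ℕ} (hm : 10 ≤ m)
    (G : Win.GoodTo P r (2 * m))
    {lo hi : Tops P → ℕ → ℕ} {e : Tops P → ℕ → ℕ → P}
    (C : ∀ t : Tops P, Cp.Comp (2 * m) (t : P) (lo t) (hi t) (e t))
    (hS : ∀ t, Wd.Shape (2 * m) (lo t) (hi t))
    (hF : ∀ t x, topOf x = t → StairShape (2 * m) (lo t) (hi t) → x = e t (2 * m) m →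
      FoldM m N b θ x) : S7M m N b θ := by
  intro z x x' hl hzx hzx' hne
  by_contra hcon
  rw [not_or] at hcon
  obtain ⟨h1, h2⟩ := single_of_join G (by omega) hl hzx hzx' hne
  have l1 := (G.H.covBy_iff.mp hzx).2
  have l2 := (G.H.covBy_iff.mp hzx').2
  have key : ∀ x : P, lev x = 2 * m → (Win.uc x).card = 1 → ¬ FoldM m N b θ x →
      (RectShape (2 * m) (lo (topOf x)) (hi (topOf x)) ∨
        StairShape (2 * m) (lo (topOf x)) (hi (topOf x))) → ∀ k, k ≤ 2 * m → nab k x = 1 := by
    intro x hlx hu hnf hsh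
    rcases hsh with hsh | hsh
    · exact straight_rect G (C (topOf x)) hsh (le_topOf x) hlx hu
    · rcases straight_stair G (C (topOf x)) hsh (le_topOf x) hlx hu with h | ⟨-, h⟩
      · exact h
      · rw [show 2 * m / 2 = m by omega] at h
        exact (hnf (hF _ x rfl hsh h)).elim
  exact no_end_join G (by omega) C hS hl hzx hzx' hne (key x (by omega) h1 hcon.1)
    (key x' (by omega) h2 hcon.2)

/-- no element of level `j + 1` has covers below different maximal elements, `j ≥ 19` -/
theorem no_cross (G : Win.GoodTo P r j) (hr : j + 1 ≤ r) (hj : 19 ≤ j)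
    {lo hi : Tops P → ℕ → ℕ} {e : Tops P → ℕ → ℕ → P}
    (C : ∀ t : Tops P, Cp.Comp j (t : P) (lo t) (hi t) (e t))
    (hS : ∀ t, Wd.Shape j (lo t) (hi t)) {z x x' : P} (hl : lev z = j + 1) (hzx : z ⋖ x)
    (hzx' : z ⋖ x') : topOf x = topOf x' := by
  by_contra hne
  obtain ⟨m, hm | hm⟩ := Nat.even_or_odd' j
  · subst hm
    obtain ⟨N, θ, W, hF⟩ := exists_WM (by omega) G hr C hS
    have S7 := s7M_of (by omega) G C hS (fun t x ht hs hx => (hF t x ht).mpr ⟨hs, hx⟩)
    rcases S7 z x x' hl hzx hzx' hne with h | h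
    · exact hne (W.fold_no_join S7 hl h hzx hzx')
    · exact hne (W.fold_no_join S7 hl h hzx' hzx).symm
  · obtain ⟨h1, h2⟩ := single_of_join G (by omega) hl hzx hzx' hne
    have l1 := (G.H.covBy_iff.mp hzx).2
    have l2 := (G.H.covBy_iff.mp hzx').2
    have key : ∀ x : P, lev x = j → (Win.uc x).card = 1 →
        (RectShape j (lo (topOf x)) (hi (topOf x)) ∨
          StairShape j (lo (topOf x)) (hi (topOf x))) → ∀ k, k ≤ j → nab k x = 1 := by
      intro x hlx hu hsh
      rcases hsh with hsh | hsh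
      · exact straight_rect G (C (topOf x)) hsh (le_topOf x) hlx hu
      · rcases straight_stair G (C (topOf x)) hsh (le_topOf x) hlx hu with h | ⟨h, -⟩
        · exact h
        · omega
    exact no_end_join G (by omega) C hS hl hzx hzx' hne (key x (by omega) h1)
      (key x' (by omega) h2)

/-- the form used in the final assembly: no element of level `j + 1` is below two maximal
elements, `j ≥ 19` -/
theorem no_jn (G : Win.GoodTo P r j) (hr : j + 1 ≤ r) (hj : 19 ≤ j)
    {lo hi : Tops P → ℕ → ℕ} {e : Tops P → ℕ → ℕ → P}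
    (C : ∀ t : Tops P, Cp.Comp j (t : P) (lo t) (hi t) (e t))
    (hS : ∀ t, Wd.Shape j (lo t) (hi t)) (z : P) (hl : lev z = j + 1) : ¬ Hul.Jn z := by
  rintro ⟨s, s', hs, hs', hne, hzs, hzs'⟩
  have hlt : ∀ s : P, lev s = 0 → z ≤ s → z < s := fun s hs hzs =>
    lt_of_le_of_ne hzs (by rintro rfl; omega)
  obtain ⟨x, hzx, hxs⟩ := Hul.exists_cov (hlt s hs hzs)
  obtain ⟨x', hzx', hxs'⟩ := Hul.exists_cov (hlt s' hs' hzs')
  have l1 := (G.H.covBy_iff.mp hzx).2
  have l2 := (G.H.covBy_iff.mp hzx').2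
  have e1 := mem_onlyB.mp (only_of_le G.H G.good (le_topOf x) (by omega)) s hs hxs
  have e2 := mem_onlyB.mp (only_of_le G.H G.good (le_topOf x') (by omega)) s' hs' hxs'
  apply hne
  rw [e1, e2, no_cross G hr hj C hS hl hzx hzx']

end Pool.Agent.GaussPoset
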