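import Pool.Agent.W_448s8_h76.SaD

/-!
Twins, the bound `Kb`, the boundary elements of level at least `2 m + 2` (MP_448cb3_co, S8).
-/

namespace Pool.Agent.GaussPoset

set_option linter.unusedSectionVars false

open Polynomial Finset

universe u

variable {P : Type u} [Fintype P] [PartialOrder P] [DecidableEq P] {r m : ℕ}
  {N : Tops P → Finset P} {b : Tops P → ℕ} {θ : Tops P → P → ℕ}

/-- the system of twins -/
theorem WM.twSys (W : WM r m N b θ) : TwSys (unnat N) (twY (2 * m) N) topOf (twT N) where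
  sub := fun x hx => (mem_twY.mp hx).1
  nat := fun x hx => (twT_spec (mem_twY.mp hx).2.2).1
  up := fun x hx => (twT_spec (mem_twY.mp hx).2.2).2
  inj := by
    intro x hx x' hx' h
    have h1 := mem_twY.mp hx
    have h2 := mem_twY.mp hx'
    have h3 := twT_spec h1.2.2
    have h4 := twT_spec h2.2.2
    by_contra hne
    have h5 : x < (topOf x : P) := lt_of_le_of_ne (le_topOf x) (by
      intro h
      have := (topOf x).2
      rw [← h] at this
      omega)
    obtain ⟨u, hu, -⟩ := Hul.exists_cov h5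
    have hu' : twT N x ⋖ u := (cov_of_up h3.2).mpr hu
    have hu'' : x' ⋖ u := by
      rw [h] at hu'
      exact (cov_of_up h4.2).mp hu'
    refine Win.dc_three W.gt.H hu hu'' hu' hne ?_ ?_
    · intro h6
      exact h3.1 (h6 ▸ h1.1)
    · intro h6
      rw [h] at h6
      exact h4.1 (h6 ▸ h2.1)
  anti := by
    intro x hx y hy h
    have h1 := mem_twY.mp hx
    have h2 := mem_twY.mp hy
    have := lev_strictAnti h
    omega
  cp := by
    intro x hx
    have h1 := mem_twY.mp hx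
    have h3 := twT_spec h1.2.2
    have h5 : x < (topOf x : P) := lt_of_le_of_ne (le_topOf x) (by
      intro h
      have := (topOf x).2
      rw [← h] at this
      omega)
    have h6 : twT N x ∈ N (topOf (twT N x)) := W.natSys.mem_iff.mpr ⟨h3.1, rfl⟩
    exact (Subtype.ext (W.natSys.top_eq h6 (topOf x).2 ((h3.2 _).mpr h5).le)).symm

section Kap

variable {t : P} {Nc : Finset P} {co : P → ℕ × ℕ} {i k k' : ℕ} {x y z : P}

lemma ct_chart {S : ℕ × ℕ → Prop} {shift : Bool} (C : Chart t S Nc co)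
    (hS : ∀ c, S c ↔ (shift = true → c.1 ≤ c.2)) (hx : x ∈ Nc) (i k : ℕ) :
    ct i k x = ∑ a ∈ range ((co x).1 + 1),
      rowW shift (fun l => min k (l - i)) (co x).2 (lev x) a := by
  unfold ct
  rw [cst_eq]
  exact sum_nab_rows C hS hx _

lemma ct_eq_sum (i k : ℕ) (x : P) : ct i k x =
    ∑ y, (by classical exact if x ≤ y then min k (lev y - i) else 0) := by
  classical
  unfold ct cst ez
  rfl

lemma ct_mono (h : x ≤ y) (hk : k ≤ k') : ct i k y ≤ ct i k' x := by
  classical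
  rw [ct_eq_sum, ct_eq_sum]
  refine Finset.sum_le_sum fun w _ => ?_
  by_cases hw : y ≤ w
  · rw [if_pos hw, if_pos (h.trans hw)]
    exact min_le_min hk le_rfl
  · rw [if_neg hw]
    exact Nat.zero_le _

/-- one element and everything strictly above -/
lemma ct_succ (i k : ℕ) (x : P) : ct i k x = min k (lev x - i) +
    ∑ y, (by classical exact if x < y then min k (lev y - i) else 0) := by
  classical
  rw [ct_eq_sum, ← Finset.add_sum_erase univ _ (mem_univ x), if_pos le_rfl,
    ← Finset.add_sum_erase univ (fun y => if x < y then min k (lev y - i) else 0) (mem_univ x),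
    if_neg (lt_irrefl x), zero_add]
  congr 1
  refine Finset.sum_congr rfl fun y hy => ?_
  have hne := (mem_erase.mp hy).1
  by_cases h4 : x < y
  · rw [if_pos h4, if_pos h4.le]
  · rw [if_neg h4, if_neg]
    intro h5
    exact h4 (lt_of_le_of_ne h5 (Ne.symm hne))

/-- an element below: its own label is added -/
lemma ct_cov (h : z < y) : min k (lev z - i) + ct i k y ≤ ct i k z := by
  classical
  rw [ct_succ i k z, ct_eq_sum]
  refine Nat.add_le_add_left (Finset.sum_le_sum fun w _ => ?_) _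
  by_cases hw : y ≤ w
  · rw [if_pos hw, if_pos (h.trans_le hw)]
  · rw [if_neg hw]
    exact Nat.zero_le _

/-- the same strict up-set -/
lemma ct_congr_up (h : ∀ w, x < w ↔ y < w) : ct i k x = ct i k y := by
  classical
  rw [ct_succ i k x, ct_succ i k y, lev_eq_of_up h]
  congr 1
  refine Finset.sum_congr rfl fun w _ => ?_
  by_cases hw : x < w
  · rw [if_pos hw, if_pos ((h w).mp hw)]
  · rw [if_neg hw, if_neg (fun h' => hw ((h w).mpr h'))]

lemma kap_chart_aux (hm : 1 ≤ m) (C : Chart t (fun _ => True) Nc co) (hx : x ∈ Nc)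
    (h1 : 1 ≤ (co x).1) (h3 : (co x).1 ≤ (co x).2) (hl : 2 * m + 1 ≤ lev x)
    (hk : ((co x).1 - m) + ((co x).2 - m) + 1 ≤ k) : (m + 1) * (m + 1) + 2 ≤ ct m k x + k := by
  have hlx := C.lev x hx
  obtain ⟨s, c, hs, hsm, hsc, hs1, hc1⟩ : ∃ s c, 1 ≤ s ∧ s ≤ m ∧ s + c = 2 * m + 1 ∧
      s ≤ (co x).1 ∧ c ≤ (co x).2 := by
    by_cases h4 : (co x).1 ≤ m
    · exact ⟨(co x).1, 2 * m + 1 - (co x).1, h1, h4, by omega, le_rfl, by omega⟩
    · exact ⟨m, m + 1, hm, le_rfl, by omega, by omega, by omega⟩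
  obtain ⟨u, hu, hcu⟩ := C.low x hx (s, c) ⟨hs1, hc1⟩ trivial
  have hxu : x ≤ u := by
    rw [C.le_iff x hx u hu, hcu]
    exact ⟨hs1, hc1⟩
  have hlu : lev u = 2 * m + 1 := by
    rw [C.lev u hu, hcu]
    exact hsc
  have h5 := kap_rect hs hsm hsc
  have h6 := ct_chart C (shift := false) (by simp) hu m (c - m + 1)
  rw [hcu, hlu] at h6
  simp only at h6
  rw [← h6] at h5
  have h7 := ct_mono (i := m) hxu (show c - m + 1 ≤ k by omega)
  omega

lemma kap_chart (hm : 1 ≤ m) (C : Chart t (fun _ => True) Nc co) (hx : x ∈ Nc)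
    (h1 : 1 ≤ (co x).1) (h2 : 1 ≤ (co x).2) (hl : 2 * m + 1 ≤ lev x)
    (hk : ((co x).1 - m) + ((co x).2 - m) + 1 ≤ k) : (m + 1) * (m + 1) + 2 ≤ ct m k x + k := by
  rcases le_total (co x).1 (co x).2 with h3 | h3
  · exact kap_chart_aux hm C hx h1 h3 hl hk
  · refine kap_chart_aux hm C.swap hx ?_ ?_ hl ?_
    · simpa using h2
    · simpa using h3
    · simp only [swp_fst, swp_snd]
      omega

lemma kap_chartS (hm : 6 ≤ m) (C : Chart t (fun c => c.1 ≤ c.2) Nc co) (hx : x ∈ Nc)
    (h1 : 1 ≤ (co x).1) (hl : 2 * m + 1 ≤ lev x)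
    (hk : ((co x).1 - 2 * (m / 2)) + ((co x).2 - m) + 1 ≤ k) : Kb m ≤ ct m k x + k := by
  have hlx := C.lev x hx
  have h3 : (co x).1 ≤ (co x).2 := C.mem x hx
  obtain ⟨s, c, hs, hsm, hsc, hs1, hc1⟩ : ∃ s c, 1 ≤ s ∧ s ≤ m ∧ s + c = 2 * m + 1 ∧
      s ≤ (co x).1 ∧ c ≤ (co x).2 := by
    by_cases h4 : (co x).1 ≤ m
    · exact ⟨(co x).1, 2 * m + 1 - (co x).1, h1, h4, by omega, le_rfl, by omega⟩
    · exact ⟨m, m + 1, by omega, le_rfl, by omega, by omega, by omega⟩
  obtain ⟨u, hu, hcu⟩ := C.low x hx (s, c) ⟨hs1, hc1⟩ (show s ≤ c by omega)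
  have hxu : x ≤ u := by
    rw [C.le_iff x hx u hu, hcu]
    exact ⟨hs1, hc1⟩
  have hlu : lev u = 2 * m + 1 := by
    rw [C.lev u hu, hcu]
    exact hsc
  have h5 := kap_stair hm hs hsm hsc rfl
  have h6 := ct_chart C (shift := true) (by simp) hu m ((s - 2 * (m / 2)) + (c - m) + 1)
  rw [hcu, hlu] at h6
  simp only at h6
  rw [← h6] at h5
  have h7 := ct_mono (i := m) hxu (show (s - 2 * (m / 2)) + (c - m) + 1 ≤ k by omega)
  omega

end Kap

lemma Kb_le_sq (m : ℕ) (hm : 5 ≤ m) : Kb m ≤ (m + 1) * (m + 1) + 2 := by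
  obtain ⟨q, hq | hq⟩ := Nat.even_or_odd' m
  · subst hq
    rw [Kb_even]
    nlinarith
  · subst hq
    rw [Kb_odd]
    nlinarith

/-- natural elements of level at least `2 m + 1` -/
theorem WM.kap (W : WM r m N b θ) {x : P} (hx : x ∉ unnat N) (hl : 2 * m + 1 ≤ lev x) :
    FullM m N θ x ∨ Kb m ≤ ct m (θ (topOf x) x + 1) x + (θ (topOf x) x + 1) := by
  have hm := W.ten
  rcases W.cases hx with h | ⟨Nc, co, h⟩ | ⟨Nc, co, h⟩ | h
  · exact Or.inl h
  · right
    refine (Kb_le_sq m (by omega)).trans (kap_chart (by omega) h.rect.chart h.mem h.fst h.snd hl ?_)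
    rw [h.th]
  · right
    refine kap_chartS (by omega) h.stair.chart h.mem h.fst hl ?_
    rw [h.th]
  · have := h.lev
    omega

lemma WM.tw_inner (W : WM r m N b θ) {x : P} (hx : x ∈ twY (2 * m) N) :
    (∃ Nc co, InRM m N b θ (twT N x) Nc co) ∨ ∃ Nc co, InSM m N b θ (twT N x) Nc co := by
  have h1 := mem_twY.mp hx
  have h3 := twT_spec h1.2.2
  rcases W.cases h3.1 with h | h | h | h
  · exact absurd h3.2 (h.tw x h1.1)
  · exact Or.inl h
  · exact Or.inr h
  · have h4 := h.lev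
    have h5 := W.twSys.lev hx
    omega

lemma WM.tw_kap (W : WM r m N b θ) {x : P} (hx : x ∈ twY (2 * m) N) :
    Kb m ≤ ct m (θ (topOf (twT N x)) (twT N x) + 1) (twT N x) +
      (θ (topOf (twT N x)) (twT N x) + 1) := by
  have h1 := mem_twY.mp hx
  have h3 := twT_spec h1.2.2
  have h5 := W.twSys.lev hx
  rcases W.kap h3.1 (by omega) with h | h
  · exact absurd h3.2 (h.tw x h1.1)
  · exact h

lemma WM.tw_th (W : WM r m N b θ) {x : P} (hx : x ∈ twY (2 * m) N) :
    1 ≤ θ (topOf (twT N x)) (twT N x) ∧ θ (topOf (twT N x)) (twT N x) ≤ m := by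
  have h1 := mem_twY.mp hx
  have h5 := W.twSys.lev hx
  have hm := W.ten
  rcases W.tw_inner hx with ⟨Nc, co, h⟩ | ⟨Nc, co, h⟩
  · have h6 := h.rect.chart.lev _ h.mem
    have h7 := h.fst
    have h8 := h.snd
    have h9 := h.th
    omega
  · have h6 := h.stair.chart.lev _ h.mem
    have h7 := h.fst
    have h8 : (co (twT N x)).1 ≤ (co (twT N x)).2 := h.stair.chart.mem _ h.mem
    have h9 := h.th
    omega

/-- the twins are harmless below energy `Kb m - 1` -/
theorem WM.twinPair (W : WM r m N b θ) {x : P} (hx : x ∈ twY (2 * m) N) :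
    TwinPair m (thX (twY (2 * m) N) (twT N) (fun x => θ (topOf x) x)) (Kb m - 1) (twT N x) x := by
  classical
  have T := W.twSys
  have h1 := mem_twY.mp hx
  have hlev : lev (twT N x) = 2 * m + 1 := by rw [T.lev hx]; exact h1.2.1
  have hnY : twT N x ∉ twY (2 * m) N := fun h => T.nat x hx (mem_twY.mp h).1
  obtain ⟨h3, h4⟩ := W.tw_th hx
  have h5 := W.tw_kap hx
  have hth : thX (twY (2 * m) N) (twT N) (fun x => θ (topOf x) x) (twT N x) =
      θ (topOf (twT N x)) (twT N x) := thX_not hnY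
  have hth' : thX (twY (2 * m) N) (twT N) (fun x => θ (topOf x) x) x =
      θ (topOf (twT N x)) (twT N x) := thX_of hx
  refine ⟨?_, T.up x hx, ?_, ?_, ?_, ?_, ?_⟩
  · intro h
    exact T.nat x hx (h.symm ▸ h1.1)
  · rw [hth]; exact h3
  · rw [hth, hth']
  · rw [hth, hlev]; omega
  · rw [hth]
    have h6 : ct m (θ (topOf (twT N x)) (twT N x) + 1) (twT N x) ≤
        ∑ y, (if twT N x ≤ y then lev y - m else 0) := by
      rw [ct_eq_sum]
      refine Finset.sum_le_sum fun y _ => ?_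
      split_ifs
      · exact Nat.min_le_right _ _
      · exact le_rfl
    omega
  · rw [hth]
    have h6 := ct_succ m (θ (topOf (twT N x)) (twT N x) + 1) (twT N x)
    rw [hlev, Nat.min_eq_left (by omega)] at h6
    omega

/-- thresholds with twins -/
noncomputable abbrev tM (m : ℕ) (N : Tops P → Finset P) (θ : Tops P → P → ℕ) : P → ℕ :=
  thX (twY (2 * m) N) (twT N) (fun x => θ (topOf x) x)

/-- truncated data at window `m` -/
theorem WM.farT (W : WM r m N b θ) : FarT P m (r2 (2 * m) N) (lv P m).card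
    (h2 (2 * m) N θ) (Kb m - 1) := by
  choose B hB using W.natTop
  have h := farT_of_tops W.gt.H.gradedBelow hB W.twSys (Kb m - 1) (fun x hx => W.twinPair hx)
  rw [W.sum_b] at h
  exact h

lemma sq_ge_Kb {m l : ℕ} (hm : 5 ≤ m) (hl : m + 2 ≤ l) : Kb m ≤ l ^ 2 := by
  have h1 : (m + 2) * (m + 2) ≤ l ^ 2 := by
    rw [pow_two]
    exact Nat.mul_le_mul hl hl
  have h2 := Kb_le_sq m hm
  nlinarith

/-- the boundary: level `2 m + 1` or large cost -/
theorem WM.bd (W : WM r m N b θ) {z : P} (hz : z ∈ bdR (r2 (2 * m) N)) :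
    lev z = 2 * m + 1 ∨ Kb m ≤ cst m (h2 (2 * m) N θ) z := by
  classical
  have H := W.gt.H
  have hm := W.ten
  have T := W.twSys
  have hzR : z ∈ unnat N := (mem_sdiff.mp (mem_filter.mp hz).1).1
  have hlz := W.lt_lev hzR
  by_cases hl : lev z = 2 * m + 1
  · exact Or.inl hl
  right
  obtain ⟨u, hu, hzu, hh⟩ := hcan_spec
    (θ := thX (twY (2 * m) N) (twT N) (fun x => θ (topOf x) x)) hz
  have hlu := (H.covBy_iff.mp hzu).2
  have hc : ∀ k, h2 (2 * m) N θ z = k → cst m (h2 (2 * m) N θ) z = ct m k z := by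
    intro k hk
    unfold ct cst ez
    rw [hk]
  have key : ∀ (u' : P) (k : ℕ), ct m k u = ct m k u' → Kb m ≤ ct m k u' + k → k ≤ lev z - m →
      h2 (2 * m) N θ z = k → Kb m ≤ cst m (h2 (2 * m) N θ) z := by
    intro u' k h3 h4 h5 h6
    have h7 := ct_cov (i := m) (k := k) hzu.1
    rw [Nat.min_eq_left h5] at h7
    rw [hc k h6]
    omega
  by_cases huY : u ∈ twY (2 * m) N
  · rw [thX_of huY] at hh
    have h3 := W.tw_th huY
    exact key (twT N u) _ (ct_congr_up fun w => (T.up u huY w).symm) (W.tw_kap huY) (by omega) hh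
  · have huR : u ∉ unnat N := fun h => hu (mem_sdiff.mpr ⟨h, huY⟩)
    rw [thX_not huY] at hh
    rcases W.kap huR (by omega) with hF | hI
    · rw [hF.th] at hh
      have h3 := sq_le_cst (i := m) (h := h2 (2 * m) N θ) (z := z) (by omega)
        (by show h2 (2 * m) N θ z = _; rw [show h2 (2 * m) N θ z = _ from hh]; omega) (by
          intro k hk hk2
          exact hF.two z hzR hzu.le k (by omega) (by omega))
      exact (sq_ge_Kb (by omega) (by omega)).trans h3
    · have h5 := W.farT.le_lev z hz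
      exact key u _ rfl hI (by rw [show h2 (2 * m) N θ z = _ from hh] at h5; exact h5) hh

end Pool.Agent.GaussPoset
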