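import Pool.Agent.W_448s8_h76.SaO

/-!
The two factors off the frozen set (MP_448cb3_co, S8).
-/

namespace Pool.Agent.GaussPoset

set_option linter.unusedSectionVars false

open Polynomial Finset

universe u

variable {P : Type u} [Fintype P] [PartialOrder P] [DecidableEq P]

section Sub

variable {p : P → Prop} [DecidablePred p]

lemma card_sub' (q : P → Prop) [DecidablePred q] :
    (univ.filter (fun x : {x : P // p x} => q x)).card =
      (univ.filter (fun x : P => p x ∧ q x)).card := by
  classical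
  rw [← Finset.card_map (Function.Embedding.subtype p)]
  congr 1
  ext x
  rw [mem_map, mem_filter]
  constructor
  · rintro ⟨y, hy, rfl⟩
    exact ⟨mem_univ _, y.2, (mem_filter.mp hy).2⟩
  · rintro ⟨-, h1, h2⟩
    exact ⟨⟨x, h1⟩, mem_filter.mpr ⟨mem_univ _, h2⟩, rfl⟩

variable (hp : ∀ x y, x ≤ y → p x → p y)

include hp in
lemma nab_sub (z : {x : P // p x}) (l : ℕ) : nab l z = nab l (z : P) := by
  classical
  unfold nab lv
  rw [Finset.filter_filter, Finset.filter_filter]
  have h1 : (univ.filter (fun x : {x : P // p x} => lev x = l ∧ z ≤ x)) =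
      (univ.filter (fun x : {x : P // p x} => lev (x : P) = l ∧ (z : P) ≤ x)) := by
    refine Finset.filter_congr fun x _ => ?_
    rw [lev_subtype hp]
    exact Iff.rfl
  rw [h1, card_sub' (p := p) (fun x : P => lev x = l ∧ (z : P) ≤ x)]
  congr 1
  refine Finset.filter_congr fun x _ => ?_
  exact ⟨fun h => h.2, fun h => ⟨hp _ _ h.2 z.2, h⟩⟩

include hp in
lemma nst_sub (z : {x : P // p x}) (i k : ℕ) :
    nst i (fun _ => k) z = nst i (fun _ => k) (z : P) := by
  classical
  unfold nst
  have h1 : (univ.filter (fun x : {x : P // p x} => z ≤ x ∧ i ≤ lev x ∧ lev x < i + k)) =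
      (univ.filter (fun x : {x : P // p x} => (z : P) ≤ x ∧ i ≤ lev (x : P) ∧
        lev (x : P) < i + k)) := by
    refine Finset.filter_congr fun x _ => ?_
    rw [lev_subtype hp]
    exact Iff.rfl
  rw [h1, card_sub' (p := p) (fun x : P => (z : P) ≤ x ∧ i ≤ lev x ∧ lev x < i + k)]
  congr 1
  refine Finset.filter_congr fun x _ => ?_
  exact ⟨fun h => h.2, fun h => ⟨hp _ _ h.1 z.2, h⟩⟩

include hp in
lemma ct_sub (z : {x : P // p x}) (i k : ℕ) : ct i k z = ct i k (z : P) := by
  unfold ct
  rw [cst_eq, cst_eq, lev_subtype hp]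
  exact Finset.sum_congr rfl fun l _ => by rw [nab_sub hp]

end Sub

lemma nst_congr {i : ℕ} {h h' : P → ℕ} {z : P} (e : h z = h' z) : nst i h z = nst i h' z := by
  unfold nst
  rw [e]

variable {r m : ℕ} {N : Tops P → Finset P} {b : Tops P → ℕ} {θ : Tops P → P → ℕ}

lemma WM.top_iff (W : WM r m N b θ) {x : P} (hl : lev x ≤ 2 * m) (t : Tops P) :
    topOf x = t ↔ x ≤ (t : P) := by
  constructor
  · rintro rfl
    exact le_topOf x
  · intro h
    have hx : x ∈ N (topOf x) := W.natSys.mem_iff.mpr ⟨W.low hl, rfl⟩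
    exact (Subtype.ext (W.natSys.top_eq hx t.2 h)).symm

section

variable {f v : P} {Nc : Finset P} {co : P → ℕ × ℕ}

/-- the elements off the frozen set -/
abbrev QO (m : ℕ) (N : Tops P → Finset P) (v : P) : Type u := {x : P // x ∉ Rq m N v}

/-- the part below the top of `v` -/
abbrev QT (m : ℕ) (N : Tops P → Finset P) (v : P) : Type u :=
  {x : QO m N v // topOf (x : P) = topOf v}

/-- the rest -/
abbrev QR (m : ℕ) (N : Tops P → Finset P) (v : P) : Type u :=
  {x : QO m N v // ¬ topOf (x : P) = topOf v}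

lemma StarF.cp (W : WM r m N b θ) (S : StarF m N b θ f v Nc co) {x y : P} (hxy : x ≤ y)
    (hx : x ∉ Rq m N v) : topOf x = topOf y :=
  (S.twSys W).cp' (S.natSys W).cp x y hxy hx

lemma StarF.up (W : WM r m N b θ) (S : StarF m N b θ f v Nc co) :
    ∀ x y : P, x ≤ y → x ∉ Rq m N v → y ∉ Rq m N v :=
  fun x y hxy hx hy => hx (S.lower W x y hxy hy)

lemma StarF.upT (W : WM r m N b θ) (S : StarF m N b θ f v Nc co) :
    ∀ x y : QO m N v, x ≤ y → topOf (x : P) = topOf v → topOf (y : P) = topOf v :=
  fun x y hxy hx => (S.cp W hxy x.2).symm.trans hx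

lemma StarF.upR (W : WM r m N b θ) (S : StarF m N b θ f v Nc co) :
    ∀ x y : QO m N v, x ≤ y → ¬ topOf (x : P) = topOf v → ¬ topOf (y : P) = topOf v :=
  fun x y hxy hx hy => hx ((S.cp W hxy x.2).trans hy)

lemma StarF.levT (W : WM r m N b θ) (S : StarF m N b θ f v Nc co) (x : QT m N v) :
    lev x = lev (x.1.1 : P) := by
  rw [lev_subtype (S.upT W), lev_subtype (S.up W)]

lemma StarF.levR (W : WM r m N b θ) (S : StarF m N b θ f v Nc co) (x : QR m N v) :
    lev x = lev (x.1.1 : P) := by
  rw [lev_subtype (S.upR W), lev_subtype (S.up W)]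

lemma StarF.nabR (W : WM r m N b θ) (S : StarF m N b θ f v Nc co) (x : QR m N v) (l : ℕ) :
    nab l x = nab l (x.1.1 : P) := by
  rw [nab_sub (S.upR W), nab_sub (S.up W)]

lemma StarF.ctT (W : WM r m N b θ) (S : StarF m N b θ f v Nc co) (x : QT m N v) (i k : ℕ) :
    ct i k x = ct i k (x.1.1 : P) := by
  rw [ct_sub (S.upT W), ct_sub (S.up W)]

lemma StarF.ctR (W : WM r m N b θ) (S : StarF m N b θ f v Nc co) (x : QR m N v) (i k : ℕ) :
    ct i k x = ct i k (x.1.1 : P) := by
  rw [ct_sub (S.upR W), ct_sub (S.up W)]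

lemma StarF.nstR (W : WM r m N b θ) (S : StarF m N b θ f v Nc co) (x : QR m N v) (i k : ℕ) :
    nst i (fun _ => k) x = nst i (fun _ => k) (x.1.1 : P) := by
  rw [nst_sub (S.upR W), nst_sub (S.up W)]

lemma StarF.off (W : WM r m N b θ) (S : StarF m N b θ f v Nc co) {x : P} (hl : lev x ≤ 2 * m) :
    x ∉ Rq m N v := by
  intro h
  have := S.lev_Rq W h
  omega

lemma StarF.mem_T (W : WM r m N b θ) (S : StarF m N b θ f v Nc co) {x : P}
    (hx : x ∉ Rq m N v) (ht : topOf x = topOf v) : x ≤ (topOf v : P) ∧ lev x ≤ 2 * m := by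
  refine ⟨by rw [← ht]; exact le_topOf x, ?_⟩
  by_contra hcon
  exact hx ((S.mem_Rq W).mpr (Or.inr ⟨ht, by omega⟩))

/-- the bottom -/
noncomputable def StarF.vT (W : WM r m N b θ) (S : StarF m N b θ f v Nc co) : QT m N v :=
  ⟨⟨v, S.off W S.hlv.le⟩, rfl⟩

lemma StarF.vT_le (W : WM r m N b θ) (S : StarF m N b θ f v Nc co) (x : QT m N v) :
    S.vT W ≤ x := by
  have h1 := S.mem_T W x.1.2 x.2
  exact S.q.bot v (le_topOf v) S.hlv x.1.1 h1.1 h1.2

/-- the fold end -/
noncomputable def StarF.fR (W : WM r m N b θ) (S : StarF m N b θ f v Nc co) : QR m N v :=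
  ⟨⟨f, S.off W S.fold.lev.le⟩, S.ne⟩

/-- the component of `v` is a quadric strip -/
theorem StarF.isoT (W : WM r m N b θ) (S : StarF m N b θ f v Nc co) :
    Nonempty (QT m N v ≃o Qd (m + hh m) (m - hh m)) := by
  obtain ⟨e⟩ := S.q.iso
  have h1 : 2 * m - (m + hh m) = m - hh m := by omega
  rw [h1] at e
  let e2 : QT m N v ≃o {x : P // x ∈ lowPart (2 * m) (topOf v : P)} :=
    { toFun := fun x => ⟨x.1.1, mem_lowPart.mpr (S.mem_T W x.1.2 x.2)⟩
      invFun := fun x => ⟨⟨x.1, S.off W (mem_lowPart.mp x.2).2⟩,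
        (W.top_iff (mem_lowPart.mp x.2).2 _).mpr (mem_lowPart.mp x.2).1⟩
      left_inv := fun x => rfl
      right_inv := fun x => rfl
      map_rel_iff' := Iff.rfl }
  exact ⟨e2.trans e⟩

lemma StarF.card_top (W : WM r m N b θ) (S : StarF m N b θ f v Nc co) {l : ℕ} (hl : l < m + hh m) :
    (univ.filter (fun x : P => lev x = l ∧ topOf x = topOf v)).card = 1 := by
  classical
  have hm := W.ten
  have hh2 := hh_le m
  have h1 := S.q.cn l (by omega)
  rw [if_neg (by omega)] at h1
  rw [← h1]
  unfold cn lv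
  rw [Finset.filter_filter]
  congr 1
  refine Finset.filter_congr fun x _ => ?_
  refine and_congr_right fun h2 => ?_
  rw [W.top_iff (by omega)]

/-- the number of elements of level `m` in the rest -/
lemma StarF.lv_R (W : WM r m N b θ) (S : StarF m N b θ f v Nc co) :
    (lv (QR m N v) m).card + 1 = (lv P m).card := by
  classical
  have hm := W.ten
  have hh1 := hh_pos m
  have h1 := S.card_top W (l := m) (by omega)
  have h2 : (lv (QR m N v) m).card =
      (univ.filter (fun x : P => lev x = m ∧ ¬ topOf x = topOf v)).card := by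
    unfold lv
    have h3 : (univ.filter (fun x : QR m N v => lev x = m)) =
        (univ.filter (fun x : QR m N v => lev (x.1.1 : P) = m)) :=
      Finset.filter_congr fun x _ => by rw [S.levR W]
    rw [h3, card_sub' (p := fun x : QO m N v => ¬ topOf (x : P) = topOf v)
      (fun x : QO m N v => lev (x : P) = m),
      card_sub' (p := fun x : P => x ∉ Rq m N v)
        (fun x : P => ¬ topOf x = topOf v ∧ lev x = m)]
    congr 1
    refine Finset.filter_congr fun x _ => ?_
    constructor
    · rintro ⟨-, h4, h5⟩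
      exact ⟨h5, h4⟩
    · rintro ⟨h4, h5⟩
      exact ⟨S.off W (by omega), h5, h4⟩
  rw [h2, ← h1]
  have h3 := Finset.card_filter_add_card_filter_not (s := (univ : Finset P).filter
    (fun x => lev x = m)) (fun x => topOf x = topOf v)
  rw [Finset.filter_filter, Finset.filter_filter] at h3
  unfold lv
  omega

/-- the number of elements of level below `m` in the rest -/
lemma StarF.below_R (W : WM r m N b θ) (S : StarF m N b θ f v Nc co) :
    below (QR m N v) m + m = below P m := by
  classical
  have hm := W.ten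
  have hh1 := hh_pos m
  have h2 : below (QR m N v) m =
      (univ.filter (fun x : P => lev x < m ∧ ¬ topOf x = topOf v)).card := by
    unfold below
    have h3 : (univ.filter (fun x : QR m N v => lev x < m)) =
        (univ.filter (fun x : QR m N v => lev (x.1.1 : P) < m)) :=
      Finset.filter_congr fun x _ => by rw [S.levR W]
    rw [h3, card_sub' (p := fun x : QO m N v => ¬ topOf (x : P) = topOf v)
      (fun x : QO m N v => lev (x : P) < m),
      card_sub' (p := fun x : P => x ∉ Rq m N v)
        (fun x : P => ¬ topOf x = topOf v ∧ lev x < m)]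
    congr 1
    refine Finset.filter_congr fun x _ => ?_
    constructor
    · rintro ⟨-, h4, h5⟩
      exact ⟨h5, h4⟩
    · rintro ⟨h4, h5⟩
      exact ⟨S.off W (by omega), h5, h4⟩
  have h4 : (univ.filter (fun x : P => lev x < m ∧ topOf x = topOf v)).card = m := by
    have h5 := Finset.card_eq_sum_card_fiberwise (f := fun x : P => lev x)
      (s := univ.filter (fun x : P => lev x < m ∧ topOf x = topOf v)) (t := range m)
      (fun x hx => by
        have := (mem_filter.mp hx).2.1
        exact mem_coe.mpr (mem_range.mpr this))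
    rw [h5]
    have h6 : ∀ l ∈ range m, ((univ.filter (fun x : P => lev x < m ∧ topOf x = topOf v)).filter
        (fun x => lev x = l)).card = 1 := by
      intro l hl
      rw [mem_range] at hl
      rw [← S.card_top W (l := l) (by omega), Finset.filter_filter]
      congr 1
      refine Finset.filter_congr fun x _ => ?_
      constructor
      · rintro ⟨⟨-, h7⟩, h8⟩
        exact ⟨h8, h7⟩
      · rintro ⟨h7, h8⟩
        exact ⟨⟨by omega, h8⟩, h7⟩
    rw [Finset.sum_congr rfl h6, Finset.sum_const, card_range, smul_eq_mul, mul_one]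
  have h3 := Finset.card_filter_add_card_filter_not (s := (univ : Finset P).filter
    (fun x => lev x < m)) (fun x => topOf x = topOf v)
  rw [Finset.filter_filter, Finset.filter_filter] at h3
  rw [h2]
  unfold below
  omega

end

end Pool.Agent.GaussPoset
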