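import Pool.Agent.W_448tw_h76.TwF

/-!
The quadric poset `1^a 2 1^b` (levels `0, …, a + b`; two elements of level `a`).
-/

namespace Pool.Agent.GaussPoset

/-- elements `0, …, a + b + 1`, numbered from the top; `a` and `a + 1` are incomparable -/
def Qd (a b : ℕ) : Type := Fin (a + b + 2)

instance (a b : ℕ) : Fintype (Qd a b) := inferInstanceAs (Fintype (Fin (a + b + 2)))
instance (a b : ℕ) : DecidableEq (Qd a b) := inferInstanceAs (DecidableEq (Fin (a + b + 2)))

/-- the number of an element -/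
def Qd.val {a b : ℕ} (x : Qd a b) : ℕ := Fin.val (n := a + b + 2) x

/-- the element with a given number -/
def Qd.mk {a b : ℕ} (k : ℕ) (h : k < a + b + 2) : Qd a b := (⟨k, h⟩ : Fin (a + b + 2))

@[simp] lemma Qd.val_mk {a b k : ℕ} (h : k < a + b + 2) : (Qd.mk (a := a) (b := b) k h).val = k :=
  rfl

lemma Qd.lt {a b : ℕ} (x : Qd a b) : x.val < a + b + 2 := Fin.isLt (n := a + b + 2) x

lemma Qd.ext {a b : ℕ} {x y : Qd a b} (h : x.val = y.val) : x = y :=
  Fin.ext (n := a + b + 2) h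

instance (a b : ℕ) : PartialOrder (Qd a b) where
  le x y := x.val = y.val ∨ (y.val < x.val ∧ ¬ (y.val = a ∧ x.val = a + 1))
  le_refl x := Or.inl rfl
  le_trans := by
    intro x y z h1 h2
    omega
  le_antisymm := by
    intro x y h1 h2
    exact Qd.ext (by omega)

lemma Qd.le_iff {a b : ℕ} {x y : Qd a b} :
    x ≤ y ↔ x.val = y.val ∨ (y.val < x.val ∧ ¬ (y.val = a ∧ x.val = a + 1)) := Iff.rfl

lemma Qd.lt_iff {a b : ℕ} {x y : Qd a b} :
    x < y ↔ (y.val < x.val ∧ ¬ (y.val = a ∧ x.val = a + 1)) := by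
  rw [lt_iff_le_and_ne, Qd.le_iff]
  constructor
  · rintro ⟨h, hne⟩
    rcases h with h | h
    · exact absurd (Qd.ext h) hne
    · exact h
  · intro h
    refine ⟨Or.inr h, ?_⟩
    rintro rfl
    omega

end Pool.Agent.GaussPoset
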