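import Pool.Agent.W_448s8_h76.QdA
import Pool.Agent.W_448rr_h67.RrE

/-!
Sums over the cells above a cell.
-/

namespace Pool.Agent.GaussPoset

set_option linter.unusedSectionVars false

open Finset

universe u

/-- sum of the small weights -/
lemma two_sum_min (L : ℕ) : ∀ a : ℕ, 2 * ∑ u ∈ range (a + L), min L u = L * (L - 1) + 2 * (L * a) := by
  intro a
  induction a with
  | zero =>
    rw [Nat.zero_add, Nat.mul_zero, Nat.mul_zero, Nat.add_zero, Nat.mul_comm 2]
    have h1 : ∑ u ∈ range L, min L u = ∑ u ∈ range L, u :=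
      Finset.sum_congr rfl fun u hu => Nat.min_eq_right (mem_range.mp hu).le
    rw [h1]
    exact Finset.sum_range_id_mul_two L
  | succ a ih =>
    rw [show a + 1 + L = (a + L) + 1 by ring, Finset.sum_range_succ, Nat.mul_add, ih,
      Nat.min_eq_left (by omega)]
    ring

section RowSum

/-- the cells of the row `a` up to the column `c`, the level counted with the weight `w` -/
def rowW (shift : Bool) (w : ℕ → ℕ) (c lv a : ℕ) : ℕ :=
  ∑ k ∈ range (lv + 1), if a ≤ k ∧ k - a ≤ c ∧ (shift = true → a ≤ k - a) then w k else 0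

/-- lower bound of a row by a piece of it -/
lemma rowW_ge {shift : Bool} {w : ℕ → ℕ} {c lv a : ℕ} (k0 n : ℕ) (v : ℕ → ℕ)
    (h : ∀ u < n, 1 ≤ v u → k0 + u ≤ lv ∧ a ≤ k0 + u ∧ k0 + u - a ≤ c ∧
      (shift = true → a ≤ k0 + u - a) ∧ v u ≤ w (k0 + u)) :
    ∑ u ∈ range n, v u ≤ rowW shift w c lv a := by
  classical
  unfold rowW
  have h1 : ∑ u ∈ range n, v u = ∑ u ∈ (range n).filter (fun u => 1 ≤ v u), v u := by
    symm
    refine Finset.sum_filter_of_ne fun u _ hu => by omega
  rw [h1]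
  have h2 : ∑ u ∈ (range n).filter (fun u => 1 ≤ v u), v u =
      ∑ k ∈ ((range n).filter (fun u => 1 ≤ v u)).map (addLeftEmbedding k0), v (k - k0) := by
    rw [Finset.sum_map]
    refine Finset.sum_congr rfl fun u _ => ?_
    rw [addLeftEmbedding_apply, Nat.add_sub_cancel_left]
  rw [h2]
  refine le_trans (Finset.sum_le_sum (g := fun k => if a ≤ k ∧ k - a ≤ c ∧
    (shift = true → a ≤ k - a) then w k else 0) ?_) (Finset.sum_le_sum_of_subset ?_)
  · intro k hk
    rw [mem_map] at hk
    obtain ⟨u, hu, rfl⟩ := hk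
    rw [mem_filter, mem_range] at hu
    have h3 := h u hu.1 hu.2
    rw [addLeftEmbedding_apply, Nat.add_sub_cancel_left]
    rw [if_pos ⟨h3.2.1, h3.2.2.1, h3.2.2.2.1⟩]
    exact h3.2.2.2.2
  · intro k hk
    rw [mem_map] at hk
    obtain ⟨u, hu, rfl⟩ := hk
    rw [mem_filter, mem_range] at hu
    have h3 := h u hu.1 hu.2
    rw [mem_range, addLeftEmbedding_apply]
    omega

/-- a row with `2 a ≤ m + 1` -/
lemma rowW_low {shift : Bool} {m c lv a L : ℕ} (ha : shift = true → 2 * a ≤ m + 1) (hm : a ≤ m)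
    (hc : m + L = c + 1) (hlv : a + c ≤ lv) :
    L * (L - 1) + 2 * (L * a) ≤ 2 * rowW shift (fun k => min L (k - m)) c lv a := by
  rw [← two_sum_min L a]
  refine Nat.mul_le_mul_left 2 (rowW_ge m (a + L) (fun u => min L u) ?_)
  intro u hu hu1
  have hu2 : 1 ≤ u := by
    by_contra hcon
    have h0 : u = 0 := by omega
    have h2 : 1 ≤ min L u := hu1
    rw [h0, Nat.min_zero] at h2
    omega
  refine ⟨by omega, by omega, by omega, fun h => ?_, ?_⟩
  · have := ha h
    omega
  show min L u ≤ min L (m + u - m)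
  rw [Nat.add_sub_cancel_left]

/-- a row with `2 a ≥ m + v`: every cell has weight at least `v` -/
lemma rowW_high {shift : Bool} {m c lv a L v : ℕ} (ha : m + v ≤ 2 * a) (hv : v ≤ L)
    (hlv : a + c ≤ lv) : v * (c + 1 - a) ≤ rowW shift (fun k => min L (k - m)) c lv a := by
  have h := rowW_ge (shift := shift) (w := fun k => min L (k - m)) (c := c) (lv := lv) (a := a)
    (2 * a) (c + 1 - a) (fun _ => v) ?_
  · rw [Finset.sum_const, card_range, smul_eq_mul, Nat.mul_comm] at h
    exact h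
  · intro u hu _
    refine ⟨by omega, by omega, by omega, fun _ => by omega, ?_⟩
    show v ≤ min L (2 * a + u - m)
    rw [Nat.le_min]
    omega

end RowSum

section Chart

variable {P : Type u} [Fintype P] [PartialOrder P] [DecidableEq P] {r : ℕ}
variable {t : P} {N : Finset P} {co : P → ℕ × ℕ}

/-- sums over the elements above a cell, by rows -/
theorem sum_nab_rows {S : ℕ × ℕ → Prop} {shift : Bool} (C : Chart t S N co)
    (hS : ∀ c, S c ↔ (shift = true → c.1 ≤ c.2)) {x : P} (hx : x ∈ N) (w : ℕ → ℕ) :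
    ∑ k ∈ range (lev x + 1), w k * nab k x =
      ∑ a ∈ range ((co x).1 + 1), rowW shift w (co x).2 (lev x) a := by
  classical
  unfold rowW
  rw [Finset.sum_comm]
  refine Finset.sum_congr rfl fun k _ => ?_
  rw [nab_chart C hx k]
  unfold cellsAt
  rw [Finset.card_filter, Finset.mul_sum]
  refine Finset.sum_congr rfl fun a _ => ?_
  have h1 : (a ≤ k ∧ k - a ≤ (co x).2 ∧ S (a, k - a)) ↔
      (a ≤ k ∧ k - a ≤ (co x).2 ∧ (shift = true → a ≤ k - a)) := by
    rw [hS]
  by_cases h : a ≤ k ∧ k - a ≤ (co x).2 ∧ S (a, k - a)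
  · rw [if_pos h, if_pos (h1.mp h), Nat.mul_one]
  · rw [if_neg h, if_neg (fun h' => h (h1.mpr h')), Nat.mul_zero]

end Chart

end Pool.Agent.GaussPoset
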