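import Pool.Agent.W_448s8_h76.SaA

/-!
Lower bounds for the cost at the cells of level `2 m + 1`, window `m`; closed forms.
-/

namespace Pool.Agent.GaussPoset

set_option linter.unusedSectionVars false

open Finset

lemma sum_low (L : ℕ) : ∀ n : ℕ, ∑ a ∈ range n, (L * (L - 1) + 2 * (L * a)) =
    n * (L * (L - 1)) + L * (n * (n - 1)) := by
  intro n
  rw [Finset.sum_add_distrib, Finset.sum_const, card_range, smul_eq_mul, ← Finset.mul_sum,
    ← Finset.mul_sum]
  have h := Finset.sum_range_id_mul_two n
  have h2 : 2 * (L * ∑ i ∈ range n, i) = L * ((∑ i ∈ range n, i) * 2) := by ring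
  rw [h2, h]

lemma sum_dec (D : ℕ) : ∀ n ≤ D, 2 * ∑ i ∈ range n, (D - i) + n * (n - 1) = 2 * (n * D) := by
  intro n
  induction n with
  | zero => intro _; simp
  | succ n ih =>
    intro h
    have h1 := ih (by omega)
    rw [Finset.sum_range_succ, Nat.mul_add]
    obtain ⟨D', rfl⟩ : ∃ D', D = n + D' := ⟨D - n, by omega⟩
    rw [Nat.add_sub_cancel_left, Nat.add_sub_cancel]
    rcases Nat.eq_zero_or_pos n with h0 | h0
    · subst h0
      simp at h1 ⊢
    · obtain ⟨k, rfl⟩ : ∃ k, n = k + 1 := ⟨n - 1, by omega⟩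
      rw [Nat.add_sub_cancel] at h1
      nlinarith

/-- rectangle-like cells -/
theorem kap_rect {m s c : ℕ} (hs : 1 ≤ s) (hsm : s ≤ m) (hc : s + c = 2 * m + 1) :
    (m + 1) * (m + 1) + 2 ≤ (c - m + 1) + ∑ a ∈ range (s + 1),
      rowW false (fun k => min (c - m + 1) (k - m)) c (2 * m + 1) a := by
  obtain ⟨d, rfl⟩ : ∃ d, m = s + d := ⟨m - s, by omega⟩
  have hcd : c = s + 2 * d + 1 := by omega
  subst hcd
  have hL : s + 2 * d + 1 - (s + d) + 1 = d + 2 := by omega
  rw [hL]
  have h1 : ∑ a ∈ range (s + 1), ((d + 2) * (d + 2 - 1) + 2 * ((d + 2) * a)) ≤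
      ∑ a ∈ range (s + 1), 2 * rowW false (fun k => min (d + 2) (k - (s + d)))
        (s + 2 * d + 1) (2 * (s + d) + 1) a := by
    refine Finset.sum_le_sum fun a ha => ?_
    rw [mem_range] at ha
    exact rowW_low (fun h => by cases h) (by omega) (by omega) (by omega)
  rw [sum_low, ← Finset.mul_sum] at h1
  have e1 : d + 2 - 1 = d + 1 := by omega
  have e2 : s + 1 - 1 = s := by omega
  rw [e1, e2] at h1
  obtain ⟨s', rfl⟩ : ∃ s', s = s' + 1 := ⟨s - 1, by omega⟩
  nlinarith [Nat.zero_le (d * s'), Nat.zero_le (d * s' * s'), Nat.zero_le (d * d * s')]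

/-- the bound `K` -/
def Kb (m : ℕ) : ℕ :=
  if m % 2 = 0 then 2 * (m / 2) * (m / 2) + 2 * (m / 2) + 3
  else 2 * (m / 2) * (m / 2) + 9 * (m / 2) + 8

lemma Kb_even (q : ℕ) : Kb (2 * q) = 2 * q * q + 2 * q + 3 := by
  unfold Kb
  rw [if_pos (by omega), show 2 * q / 2 = q by omega]

lemma Kb_odd (q : ℕ) : Kb (2 * q + 1) = 2 * q * q + 9 * q + 8 := by
  unfold Kb
  rw [if_neg (by omega), show (2 * q + 1) / 2 = q by omega]

/-- the low rows -/
lemma stair_low {m c L A : ℕ} (hA : 2 * A ≤ m + 1) (hc : m + L = c + 1)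
    (hlv : A + c ≤ 2 * m + 1) :
    (A + 1) * (L * (L - 1)) + L * ((A + 1) * A) ≤
      2 * ∑ a ∈ range (A + 1), rowW true (fun k => min L (k - m)) c (2 * m + 1) a := by
  have h1 : ∑ a ∈ range (A + 1), (L * (L - 1) + 2 * (L * a)) ≤
      ∑ a ∈ range (A + 1), 2 * rowW true (fun k => min L (k - m)) c (2 * m + 1) a := by
    refine Finset.sum_le_sum fun a ha => ?_
    rw [mem_range] at ha
    refine rowW_low (fun _ => by omega) ?_ hc (by omega)
    rcases Nat.eq_zero_or_pos a with h0 | h0
    · omega
    · omega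
  rw [sum_low, ← Finset.mul_sum, Nat.add_sub_cancel] at h1
  exact h1

/-- the high rows -/
lemma stair_high {m c L A n v D : ℕ} (hA : m + v ≤ 2 * (A + 1)) (hv : v ≤ L)
    (hlv : A + n + c ≤ 2 * m + 1) (hD : D + A = c) (hn : n ≤ D) :
    v * (2 * (n * D)) ≤ 2 * (∑ i ∈ range n,
      rowW true (fun k => min L (k - m)) c (2 * m + 1) (A + 1 + i)) + v * (n * (n - 1)) := by
  have h1 : ∑ i ∈ range n, v * (D - i) ≤ ∑ i ∈ range n,
      rowW true (fun k => min L (k - m)) c (2 * m + 1) (A + 1 + i) := by
    refine Finset.sum_le_sum fun i hi => ?_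
    rw [mem_range] at hi
    have h2 := rowW_high (shift := true) (m := m) (c := c) (lv := 2 * m + 1) (a := A + 1 + i)
      (L := L) (v := v) (by omega) hv (by omega)
    rwa [show c + 1 - (A + 1 + i) = D - i by omega] at h2
  rw [← Finset.mul_sum] at h1
  have h3 := sum_dec D n hn
  calc v * (2 * (n * D)) = v * (2 * ∑ i ∈ range n, (D - i) + n * (n - 1)) := by rw [h3]
    _ = 2 * (v * ∑ i ∈ range n, (D - i)) + v * (n * (n - 1)) := by ring
    _ ≤ _ := Nat.add_le_add_right (Nat.mul_le_mul_left 2 h1) _

lemma low_ge (A l : ℕ) : (A + 1) * 12 + 4 * ((A + 1) * A) ≤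
    (A + 1) * ((l + 4) * (l + 3)) + (l + 4) * ((A + 1) * A) := by
  refine Nat.add_le_add (Nat.mul_le_mul_left _ ?_) (Nat.mul_le_mul_right _ (by omega))
  exact (Nat.mul_le_mul (show 4 ≤ l + 4 by omega) (show 3 ≤ l + 3 by omega))

/-- the fold cell, `m` odd: the low rows -/
lemma fold_row {m c a : ℕ} (hc : c = m + 1) (ha : 2 * a ≤ m + 1) (hm : 1 ≤ m) :
    3 * a + (if a = 0 then 1 else 0) ≤
      rowW true (fun k => min 3 (k - m)) c (2 * m + 1) a := by
  subst hc
  rcases Nat.eq_zero_or_pos a with h0 | h0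
  · subst h0
    have h7 := rowW_ge (shift := true) (w := fun k => min 3 (k - m))
      (c := m + 1) (lv := 2 * m + 1) (a := 0) (m + 1) 1 (fun _ => 1) (by
        intro u hu _
        have hu0 : u = 0 := by omega
        subst hu0
        refine ⟨by omega, Nat.zero_le _, by omega, fun _ => Nat.zero_le _, ?_⟩
        show 1 ≤ min 3 (m + 1 + 0 - m)
        rw [Nat.le_min]
        omega)
    simpa using h7
  · have h7 := rowW_ge (shift := true) (w := fun k => min 3 (k - m))
      (c := m + 1) (lv := 2 * m + 1) (a := a) m (a - 1 + 3)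
      (fun u => min 3 u) (by
        intro u hu hu1
        have hu2 : 1 ≤ u := by
          by_contra hcon
          have h0 : u = 0 := by omega
          have h2 : 1 ≤ min 3 u := hu1
          rw [h0, Nat.min_zero] at h2
          omega
        refine ⟨by omega, by omega, by omega, fun _ => by omega, ?_⟩
        show min 3 u ≤ min 3 (m + u - m)
        rw [Nat.add_sub_cancel_left])
    have h8 := two_sum_min 3 (a - 1)
    rw [if_neg (by omega)]
    omega

lemma fold_low {m c A : ℕ} (hc : c = m + 1) (hA : 2 * A ≤ m + 1) (hm : 1 ≤ m) :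
    3 * (A * (A + 1)) + 2 ≤
      2 * ∑ a ∈ range (A + 1), rowW true (fun k => min 3 (k - m)) c (2 * m + 1) a := by
  have h7 := Finset.sum_le_sum fun a (ha : a ∈ range (A + 1)) =>
    fold_row hc (a := a) (by have := mem_range.mp ha; omega) hm
  rw [Finset.sum_add_distrib, Finset.sum_ite_eq' (range (A + 1)) 0,
    if_pos (mem_range.mpr (by omega)), ← Finset.mul_sum] at h7
  have h8 := Finset.sum_range_id_mul_two (A + 1)
  rw [Nat.add_sub_cancel] at h8
  have h9 : 2 * (3 * ∑ i ∈ range (A + 1), i) = 3 * ((∑ i ∈ range (A + 1), i) * 2) := by ring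
  rw [h8] at h9
  have h10 : 3 * ((A + 1) * A) = 3 * (A * (A + 1)) := by ring
  omega

/-- stair-like cells -/
theorem kap_stair {m s c L : ℕ} (hm : 6 ≤ m) (hs : 1 ≤ s) (hsm : s ≤ m) (hc : s + c = 2 * m + 1)
    (hL : L = (s - 2 * (m / 2)) + (c - m) + 1) :
    Kb m ≤ L + ∑ a ∈ range (s + 1), rowW true (fun k => min L (k - m)) c (2 * m + 1) a := by
  have hKm : Kb m ≤ (m + 1) * (m + 1) + 2 := by
    obtain ⟨q, hq | hq⟩ := Nat.even_or_odd' m
    · subst hq
      rw [Kb_even]
      nlinarith
    · subst hq
      rw [Kb_odd]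
      nlinarith
  by_cases h1 : 2 * s ≤ m + 1
  · -- all rows are low
    have hL' : L = c - m + 1 := by omega
    obtain ⟨d, rfl⟩ : ∃ d, m = s + d := ⟨m - s, by omega⟩
    have hLd : L = d + 2 := by omega
    have h2 := stair_low (m := s + d) (c := c) (L := L) (A := s) h1 (by omega) (by omega)
    rw [hLd] at h2 ⊢
    have e1 : d + 2 - 1 = d + 1 := by omega
    rw [e1] at h2
    obtain ⟨s', rfl⟩ : ∃ s', s = s' + 1 := ⟨s - 1, by omega⟩
    refine hKm.trans ?_
    nlinarith [Nat.zero_le (d * s'), Nat.zero_le (d * s' * s'), Nat.zero_le (d * d * s')]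
  · have hAs : (m + 1) / 2 + 1 ≤ s := by omega
    obtain ⟨n, hn⟩ : ∃ n, s + 1 = ((m + 1) / 2 + 1) + n := ⟨s + 1 - ((m + 1) / 2 + 1), by omega⟩
    rw [hn, Finset.sum_range_add]
    obtain ⟨S1, hS1⟩ : ∃ S1, S1 = ∑ a ∈ range ((m + 1) / 2 + 1),
      rowW true (fun k => min L (k - m)) c (2 * m + 1) a := ⟨_, rfl⟩
    obtain ⟨S2, hS2⟩ : ∃ S2, S2 = ∑ a ∈ range n,
      rowW true (fun k => min L (k - m)) c (2 * m + 1) ((m + 1) / 2 + 1 + a) := ⟨_, rfl⟩
    rw [← hS1, ← hS2]
    by_cases h2 : s + 2 ≤ m
    · -- `L ≥ 4`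
      have hL' : m + L = c + 1 := by omega
      have h3 := stair_low (m := m) (c := c) (L := L) (A := (m + 1) / 2) (by omega) hL'
        (by omega)
      rw [← hS1] at h3
      clear hS1 hS2
      obtain ⟨l, rfl⟩ : ∃ l, L = l + 4 := ⟨L - 4, by omega⟩
      have e1 : l + 4 - 1 = l + 3 := by omega
      rw [e1] at h3
      obtain ⟨q, hq | hq⟩ := Nat.even_or_odd' m
      · subst hq
        rw [Kb_even]
        rw [show (2 * q + 1) / 2 = q by omega] at h3
        have h5 := (low_ge q l).trans h3
        clear h3 hKm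
        nlinarith
      · subst hq
        rw [Kb_odd]
        rw [show (2 * q + 1 + 1) / 2 = q + 1 by omega] at h3
        have h5 := (low_ge (q + 1) l).trans h3
        clear h3 hKm
        nlinarith
    · by_cases h3 : s + 1 = m
      · -- `L = 3`
        have hL3 : L = 3 := by omega
        subst hL3
        have h4 := stair_low (m := m) (c := c) (L := 3) (A := (m + 1) / 2) (by omega)
          (by omega) (by omega)
        have h5 := stair_high (m := m) (c := c) (L := 3) (A := (m + 1) / 2) (n := n) (v := 2)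
          (D := c - (m + 1) / 2) (by omega) (by omega) (by omega) (by omega) (by omega)
        rw [← hS1] at h4
        rw [← hS2] at h5
        clear hS1 hS2 hKm
        obtain ⟨q, hq | hq⟩ := Nat.even_or_odd' m
        · subst hq
          rw [Kb_even]
          have e2 : (2 * q + 1) / 2 = q := by omega
          rw [e2] at h4 h5 hn
          obtain ⟨p, rfl⟩ : ∃ p, q = p + 3 := ⟨q - 3, by omega⟩
          have e3 : n = p + 2 := by omega
          have e4 : c - (p + 3) = p + 5 := by omega
          rw [e3, e4] at h5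
          have e5 : p + 2 - 1 = p + 1 := by omega
          rw [e5] at h5
          norm_num at h4
          clear hm hsm hc h1 hAs hn hL h2 h3
          nlinarith
        · subst hq
          rw [Kb_odd]
          have e2 : (2 * q + 1 + 1) / 2 = q + 1 := by omega
          rw [e2] at h4 h5 hn
          obtain ⟨p, rfl⟩ : ∃ p, q = p + 2 := ⟨q - 2, by omega⟩
          have e3 : n = p + 1 := by omega
          have e4 : c - (p + 2 + 1) = p + 4 := by omega
          rw [e3, e4] at h5
          have e5 : p + 1 - 1 = p := by omega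
          rw [e5] at h5
          norm_num at h4
          clear hm hsm hc h1 hAs hn hL h2 h3
          nlinarith
      · have hsm' : s = m := by omega
        subst hsm'
        clear hKm
        obtain ⟨q, hq | hq⟩ := Nat.even_or_odd' s
        · have hL2 : L = 2 := by omega
          subst hL2
          have h4 := stair_low (m := s) (c := c) (L := 2) (A := (s + 1) / 2) (by omega)
            (by omega) (by omega)
          have h5 := stair_high (m := s) (c := c) (L := 2) (A := (s + 1) / 2) (n := n) (v := 2)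
            (D := c - (s + 1) / 2) (by omega) (by omega) (by omega) (by omega) (by omega)
          rw [← hS1] at h4
          rw [← hS2] at h5
          clear hS1 hS2
          subst hq
          rw [Kb_even]
          have e2 : (2 * q + 1) / 2 = q := by omega
          rw [e2] at h4 h5 hn
          obtain ⟨p, rfl⟩ : ∃ p, q = p + 3 := ⟨q - 3, by omega⟩
          have e3 : n = p + 3 := by omega
          have e4 : c - (p + 3) = p + 4 := by omega
          rw [e3, e4] at h5
          have e5 : p + 3 - 1 = p + 2 := by omega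
          rw [e5] at h5
          norm_num at h4
          clear hm hsm hc h1 hAs hn hL h2 h3
          nlinarith
        · have hL3 : L = 3 := by omega
          subst hL3
          have h4 := fold_low (m := s) (c := c) (A := (s + 1) / 2) (by omega) (by omega)
            (by omega)
          have h5 := stair_high (m := s) (c := c) (L := 3) (A := (s + 1) / 2) (n := n) (v := 3)
            (D := c - (s + 1) / 2) (by omega) (by omega) (by omega) (by omega) (by omega)
          rw [← hS1] at h4
          rw [← hS2] at h5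
          clear hS1 hS2
          subst hq
          rw [Kb_odd]
          have e2 : (2 * q + 1 + 1) / 2 = q + 1 := by omega
          rw [e2] at h4 h5 hn
          obtain ⟨p, rfl⟩ : ∃ p, q = p + 1 := ⟨q - 1, by omega⟩
          have e3 : n = p + 1 := by omega
          have e4 : c - (p + 1 + 1) = p + 2 := by omega
          rw [e3, e4] at h5
          have e5 : p + 1 - 1 = p := by omega
          rw [e5] at h5
          clear hm hsm hc h1 hAs hn hL h2 h3
          nlinarith

end Pool.Agent.GaussPoset
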