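import Pool.Agent.W_448s8_h76.SaB

/-!
Numbers of the fold end.
-/

namespace Pool.Agent.GaussPoset

set_option linter.unusedSectionVars false

open Finset

/-- the label `h` -/
def hh (m : ℕ) : ℕ := 1 + m % 2

lemma hh_even (q : ℕ) : hh (2 * q) = 1 := by unfold hh; omega
lemma hh_odd (q : ℕ) : hh (2 * q + 1) = 2 := by unfold hh; omega
lemma hh_pos (m : ℕ) : 1 ≤ hh m := by unfold hh; omega
lemma hh_le (m : ℕ) : hh m ≤ 2 := by unfold hh; omega

/-- number of elements of level `m + u` above the fold end `(m, m)` -/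
def nF (m u : ℕ) : ℕ := (m + u) / 2 + 1 - u

/-- cost of the label `k` above the fold end -/
def NF (m k : ℕ) : ℕ := ∑ u ∈ range (m + 1), min k u * nF m u

/-- cost of the label `k` above an element of level `2 m` with one element on every level -/
def NL (m k : ℕ) : ℕ := ∑ u ∈ range (m + 1), min k u

lemma NF_aux1 (q : ℕ) : ∀ n ≤ q, ∑ u ∈ range (2 * n + 1), min 1 u * nF (2 * q) u + n * (n + 1) =
    2 * (n * (q + 1)) := by
  intro n
  induction n with
  | zero => intro _; simp
  | succ n ih =>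
    intro h
    have h1 := ih (by omega)
    rw [show 2 * (n + 1) + 1 = 2 * n + 1 + 1 + 1 by ring, Finset.sum_range_succ,
      Finset.sum_range_succ]
    have e1 : min 1 (2 * n + 1) * nF (2 * q) (2 * n + 1) = q - n := by
      rw [Nat.min_eq_left (by omega)]; unfold nF; omega
    have e2 : min 1 (2 * n + 1 + 1) * nF (2 * q) (2 * n + 1 + 1) = q - n := by
      rw [Nat.min_eq_left (by omega)]; unfold nF; omega
    rw [e1, e2]
    obtain ⟨d, rfl⟩ : ∃ d, q = n + 1 + d := ⟨q - (n + 1), by omega⟩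
    have e3 : n + 1 + d - n = d + 1 := by omega
    rw [e3]
    nlinarith

lemma NF_even (q : ℕ) : NF (2 * q) 1 = q * (q + 1) := by
  have h := NF_aux1 q q le_rfl
  unfold NF
  nlinarith

lemma NF_aux2 (q : ℕ) : ∀ n ≤ q, ∑ u ∈ range (2 * n + 2), min 2 u * nF (2 * q + 1) u +
    2 * (n * n) = (q + 1) + 4 * (n * q) + 2 * n := by
  intro n
  induction n with
  | zero =>
    intro _
    simp only [Nat.mul_zero, Nat.zero_add, Finset.sum_range_succ, Finset.sum_range_zero]
    unfold nF
    rw [Nat.min_eq_right (by omega), Nat.min_eq_right (by omega)]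
    omega
  | succ n ih =>
    intro h
    have h1 := ih (by omega)
    rw [show 2 * (n + 1) + 2 = 2 * n + 2 + 1 + 1 by ring, Finset.sum_range_succ,
      Finset.sum_range_succ]
    have e1 : min 2 (2 * n + 2) * nF (2 * q + 1) (2 * n + 2) = 2 * (q - n) := by
      rw [Nat.min_eq_left (by omega)]; unfold nF; omega
    have e2 : min 2 (2 * n + 2 + 1) * nF (2 * q + 1) (2 * n + 2 + 1) = 2 * (q - n) := by
      rw [Nat.min_eq_left (by omega)]; unfold nF; omega
    rw [e1, e2]
    obtain ⟨d, rfl⟩ : ∃ d, q = n + 1 + d := ⟨q - (n + 1), by omega⟩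
    have e3 : n + 1 + d - n = d + 1 := by omega
    rw [e3]
    nlinarith

lemma NF_odd (q : ℕ) : NF (2 * q + 1) 2 = (q + 1) * (2 * q + 1) := by
  have h := NF_aux2 q q le_rfl
  unfold NF
  rw [show 2 * q + 1 + 1 = 2 * q + 2 by ring]
  nlinarith

lemma NF_aux3 (q : ℕ) : ∀ n ≤ q, ∑ u ∈ range (2 * n + 2), min 1 u * nF (2 * q + 1) u +
    n * n = (q + 1) + 2 * (n * q) + n := by
  intro n
  induction n with
  | zero =>
    intro _
    simp only [Nat.mul_zero, Nat.zero_add, Finset.sum_range_succ, Finset.sum_range_zero]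
    unfold nF
    rw [Nat.min_eq_right (by omega), Nat.min_eq_right (by omega)]
    omega
  | succ n ih =>
    intro h
    have h1 := ih (by omega)
    rw [show 2 * (n + 1) + 2 = 2 * n + 2 + 1 + 1 by ring, Finset.sum_range_succ,
      Finset.sum_range_succ]
    have e1 : min 1 (2 * n + 2) * nF (2 * q + 1) (2 * n + 2) = (q - n) := by
      rw [Nat.min_eq_left (by omega)]; unfold nF; omega
    have e2 : min 1 (2 * n + 2 + 1) * nF (2 * q + 1) (2 * n + 2 + 1) = (q - n) := by
      rw [Nat.min_eq_left (by omega)]; unfold nF; omega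
    rw [e1, e2]
    obtain ⟨d, rfl⟩ : ∃ d, q = n + 1 + d := ⟨q - (n + 1), by omega⟩
    have e3 : n + 1 + d - n = d + 1 := by omega
    rw [e3]
    nlinarith

lemma NF_odd1 (q : ℕ) : NF (2 * q + 1) 1 = (q + 1) * (q + 1) := by
  have h := NF_aux3 q q le_rfl
  unfold NF
  rw [show 2 * q + 1 + 1 = 2 * q + 2 by ring]
  nlinarith

lemma NL_one (m : ℕ) : NL m 1 = m := by
  unfold NL
  induction m with
  | zero => simp
  | succ m ih =>
    rw [Finset.sum_range_succ, ih, Nat.min_eq_left (by omega)]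

lemma NL_two (m : ℕ) (hm : 1 ≤ m) : NL m 2 + 1 = 2 * m := by
  induction m with
  | zero => omega
  | succ m ih =>
    unfold NL at ih ⊢
    rw [Finset.sum_range_succ]
    rcases Nat.eq_zero_or_pos m with h | h
    · subst h
      decide
    · have := ih h
      rw [Nat.min_eq_left (by omega)]
      omega

/-- energy of the joins of the fold end with an end without extras -/
def E0 (m : ℕ) : ℕ := NF m (hh m) + NL m (hh m) + hh m

lemma E0_even (q : ℕ) : E0 (2 * q) = q * q + 3 * q + 1 := by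
  unfold E0
  rw [hh_even, NF_even, NL_one]
  ring

lemma E0_odd (q : ℕ) : E0 (2 * q + 1) = 2 * q * q + 7 * q + 4 := by
  unfold E0
  rw [hh_odd, NF_odd]
  have := NL_two (2 * q + 1) (by omega)
  have e : NL (2 * q + 1) 2 = 4 * q + 1 := by omega
  rw [e]
  ring

/-- everything relevant happens below `K - 1` -/
lemma E0_lt (m : ℕ) (hm : 8 ≤ m) : E0 m + m + 1 < Kb m - 1 := by
  obtain ⟨q, hq | hq⟩ := Nat.even_or_odd' m
  · subst hq
    rw [E0_even, Kb_even]
    obtain ⟨p, rfl⟩ : ∃ p, q = p + 4 := ⟨q - 4, by omega⟩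
    have : 2 * (p + 4) * (p + 4) + 2 * (p + 4) + 3 - 1 = 2 * (p + 4) * (p + 4) + 2 * (p + 4) + 2 := by
      omega
    rw [this]
    nlinarith
  · subst hq
    rw [E0_odd, Kb_odd]
    have : 2 * q * q + 9 * q + 8 - 1 = 2 * q * q + 9 * q + 7 := by omega
    rw [this]
    nlinarith

/-- `m` even: joins of two fold ends are cheaper than `K - 1` -/
lemma EFF_even (q : ℕ) : 2 * NF (2 * q) 1 + 1 < Kb (2 * q) - 1 := by
  rw [NF_even, Kb_even]
  have : 2 * q * q + 2 * q + 3 - 1 = 2 * q * q + 2 * q + 2 := by omega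
  rw [this]
  nlinarith

end Pool.Agent.GaussPoset
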