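import Pool.Agent.W_448s8_h76.SaC

/-!
The natural system at window `m`, level `2 m` (MP_448cb3_co, S8).
-/

namespace Pool.Agent.GaussPoset

set_option linter.unusedSectionVars false

open Polynomial Finset

universe u

variable {P : Type u} [Fintype P] [PartialOrder P] [DecidableEq P] {r m : ℕ}
  {N : Tops P → Finset P} {b : Tops P → ℕ} {θ : Tops P → P → ℕ}

open Classical in
/-- number of elements of level `l` below `t` -/
noncomputable def cn (l : ℕ) (t : P) : ℕ := ((lv P l).filter (fun x => x ≤ t)).card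

/-- a quadric strip: two elements on level `a` only -/
structure QInf (m a : ℕ) (t : Tops P) : Prop where
  cn : ∀ l, l ≤ 2 * m → cn l (t : P) = if l = a then 2 else 1
  bot : ∀ v ≤ (t : P), lev v = 2 * m → ∀ x ≤ (t : P), lev x ≤ 2 * m → v ≤ x
  iso : Nonempty ({x : P // x ∈ lowPart (2 * m) (t : P)} ≃o Qd a (2 * m - a))

/-- what is used about the light components -/
inductive LInf (m : ℕ) (t : Tops P) : Prop
  | late (h1 : ∀ l, l ≤ m + 2 → cn l (t : P) = 1)
      (h2 : ∀ v ≤ (t : P), lev v = 2 * m → (Win.uc v).card = 1 →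
        ∑ l ∈ range (2 * m), (nab l v - 1) ≤ 5)
  | quad (a : ℕ) (h1 : a = m + 1 ∨ a = m + 2) (h2 : QInf m a t)

/-- no pendants below the doubles of level `2 m` -/
def NopT (m : ℕ) (t : Tops P) : Prop := ∀ x z : P, x ≤ (t : P) → lev x = 2 * m →
  (Win.uc x).card = 2 → z ⋖ x → ¬ ∀ y, z ⋖ y → y = x

/-- the types at window `m` -/
inductive TyM (m : ℕ) (t : Tops P) (b : ℕ) (N : Finset P) (θ : P → ℕ) : Prop
  | light (h1 : N = onlyB t) (h2 : θ = fun x => lev x - m) (h3 : b = 1)
      (h5 : ∀ x, x ≤ (t : P) → lev x ≤ 2 * m → x ∈ onlyB t) (h6 : ∃ x ≤ (t : P), lev x = m)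
      (h7 : LInf m t)
  | rect (Nc : Finset P) (co : P → ℕ × ℕ) (h0 : RectNat (2 * m) m t b Nc co)
      (h1 : N = natR Nc co) (h2 : θ = thR m b Nc co) (h3 : NopT m t)
  | stair (Nc : Finset P) (co : P → ℕ × ℕ) (h0 : StairNat (2 * m) m t Nc co)
      (h1 : N = natS Nc co) (h2 : θ = thS m Nc co) (h3 : b = m / 2 + 1) (h4 : NopT m t)
  | quad (h1 : N = lowPart (2 * m) (t : P)) (h2 : θ = fun _ => 0) (h3 : b = 2)
      (h4 : QInf m m t)

/-- the complete quadric as a natural set of order 2 -/
theorem natTop_quad {t : Tops P} (hm : 1 ≤ m)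
    (hQ : (1 + X : Polynomial (PowerSeries ℤ)) ^ 2 ∣ W (Qd m m) m) (h : QInf m m t)
    (hup : ∀ x ∈ lowPart (2 * m) (t : P), ∀ y, x ≤ y → y ∈ lowPart (2 * m) (t : P)) :
    NatTop m t 2 (lowPart (2 * m) (t : P)) (fun _ => 0)
      (fun x => x ∈ lowPart (2 * m) (t : P)) := by
  refine LocData.natTop ⟨?_, ?_, ?_, ?_, ?_⟩ hup (fun x hx => (mem_lowPart.mp hx).1)
    (fun x hx hxi => mem_lowPart.mpr ⟨hx, by omega⟩)
  · intro U hUN _ _ hB
    obtain ⟨e⟩ := h.iso
    have hU : U = lowPart (2 * m) (t : P) := Finset.Subset.antisymm hUN fun x hx => hB x hx hx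
    subst hU
    rw [show 2 * m - m = m by omega] at e
    rw [W_iso e]
    exact hQ
  · intro x _ h; exact absurd h (by norm_num)
  · intro x _ h; exact absurd h (by norm_num)
  · intro x _ h; exact absurd h (by norm_num)
  · intro x _; exact Nat.zero_le _

/-- the context -/
structure WM (r m : ℕ) (N : Tops P → Finset P) (b : Tops P → ℕ) (θ : Tops P → P → ℕ) : Prop where
  gt : Win.GoodTo P r (2 * m)
  hr : 2 * m + 1 ≤ r
  ten : 10 ≤ m
  hQ : (1 + X : Polynomial (PowerSeries ℤ)) ^ 2 ∣ W (Qd m m) m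
  typ : ∀ t, TyM m t (b t) (N t) (θ t)
  sum_b : ∑ t, b t = (lv P m).card

lemma WM.lowUp (W : WM r m N b θ) (t : Tops P) :
    ∀ x ∈ lowPart (2 * m) (t : P), ∀ y, x ≤ y → y ∈ lowPart (2 * m) (t : P) := by
  intro x hx y hxy
  rw [mem_lowPart] at hx ⊢
  refine ⟨Cp.up_le W.gt.H W.gt.good t.2 hx.1 hx.2 hxy, ?_⟩
  rcases eq_or_lt_of_le hxy with h | h
  · rw [← h]; exact hx.2
  · have := lev_strictAnti h; omega

theorem WM.natTop (W : WM r m N b θ) (t : Tops P) : ∃ B, NatTop m t (b t) (N t) (θ t) B := by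
  have hm := W.ten
  have hgr := W.gt.H.gradedBelow
  rcases W.typ t with ⟨h1, h2, h3, h5, h6, h7⟩ | ⟨Nc, co, h0, h1, h2, h3⟩ |
    ⟨Nc, co, h0, h1, h2, h3, h4⟩ | ⟨h1, h2, h3, h4⟩
  · rw [h1, h2, h3]
    exact ⟨_, natTop_light hgr (fun x hx hxi => h5 x hx (by omega)) h6⟩
  · rw [h1, h2]
    exact ⟨_, h0.natTop hgr (by omega)⟩
  · rw [h1, h2, h3]
    exact ⟨_, h0.natTop hgr (by omega) (by omega)⟩
  · rw [h1, h2, h3]
    exact ⟨_, natTop_quad (by omega) W.hQ h4 (W.lowUp t)⟩

lemma WM.natSys (W : WM r m N b θ) : NatSys N := by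
  choose B hB using W.natTop
  exact natSys_of_tops hB

lemma WM.low (W : WM r m N b θ) {x : P} (hx : lev x ≤ 2 * m) : x ∉ unnat N := by
  intro h
  refine mem_unnat.mp h (topOf x) ?_
  rcases W.typ (topOf x) with ⟨h1, h2, h3, h5, h6, h7⟩ | ⟨Nc, co, h0, h1, h2, h3⟩ |
    ⟨Nc, co, h0, h1, h2, h3, h4⟩ | ⟨h1, h2, h3, h4⟩
  · rw [h1]; exact h5 x (le_topOf x) hx
  · rw [h1]; exact mem_natR.mpr (Or.inl (h0.strip (mem_lowPart.mpr ⟨le_topOf x, hx⟩)))
  · rw [h1]; exact mem_natS.mpr (Or.inl (h0.strip (mem_lowPart.mpr ⟨le_topOf x, hx⟩)))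
  · rw [h1]; exact mem_lowPart.mpr ⟨le_topOf x, hx⟩

lemma WM.lt_lev (W : WM r m N b θ) {x : P} (hx : x ∈ unnat N) : 2 * m < lev x := by
  by_contra hcon
  exact W.low (not_lt.mp hcon) hx

/-- natural elements with full threshold -/
structure FullM (m : ℕ) (N : Tops P → Finset P) (θ : Tops P → P → ℕ) (x : P) : Prop where
  th : θ (topOf x) x = lev x - m
  two : ∀ z ∈ unnat N, z ≤ x → ∀ k, 2 ≤ k → k ≤ lev x → 2 ≤ nab k z
  tw : ∀ z ∈ unnat N, ¬ ∀ w, x < w ↔ z < w

/-- inner cells of rectangle-like components -/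
structure InRM (m : ℕ) (N : Tops P → Finset P) (b : Tops P → ℕ) (θ : Tops P → P → ℕ) (x : P)
    (Nc : Finset P) (co : P → ℕ × ℕ) : Prop where
  rect : RectNat (2 * m) m (topOf x) (b (topOf x)) Nc co
  nat : N (topOf x) = natR Nc co
  mem : x ∈ Nc
  fst : 1 ≤ (co x).1
  snd : 1 ≤ (co x).2
  th : θ (topOf x) x = ((co x).1 - m) + ((co x).2 - m)
  nop : NopT m (topOf x)

/-- inner cells of stair-like components -/
structure InSM (m : ℕ) (N : Tops P → Finset P) (b : Tops P → ℕ) (θ : Tops P → P → ℕ) (x : P)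
    (Nc : Finset P) (co : P → ℕ × ℕ) : Prop where
  stair : StairNat (2 * m) m (topOf x) Nc co
  nat : N (topOf x) = natS Nc co
  mem : x ∈ Nc
  fst : 1 ≤ (co x).1
  th : θ (topOf x) x = ((co x).1 - 2 * (m / 2)) + ((co x).2 - m)
  nop : NopT m (topOf x)

/-- elements of complete quadrics -/
structure QdM (m : ℕ) (N : Tops P → Finset P) (θ : Tops P → P → ℕ) (x : P) : Prop where
  nat : N (topOf x) = lowPart (2 * m) (topOf x : P)
  th : θ (topOf x) x = 0
  lev : Pool.Agent.GaussPoset.lev x ≤ 2 * m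
  inf : QInf m m (topOf x)

/-- straight cells of stairs have no unnatural twins -/
lemma straight_twinS (H : Gr P r) {t : Tops P} {i j : ℕ} {Nc : Finset P} {co : P → ℕ × ℕ}
    (R : StairNat j i t Nc co) (hj : 1 ≤ j) (hNt : N t = natS Nc co) {x u z : P} (hx : x ∈ Nc)
    (hu : u ∈ Nc) (hxu : Prd (co x) (co u)) (hun : ∀ y ∈ Nc, Prd (co x) (co y) → co y = co u)
    (h0 : (co u).1 = 0) (hz : z ∈ unnat N) (h : ∀ w, x < w ↔ z < w) : False := by
  have h1 : x ⋖ u := (chart_cov R.chart H hx hu).mpr hxu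
  have h2 : z ⋖ u := (cov_of_up h).mp h1
  have h3 := stair_pendant H R hj hNt hz (x := u) (by rw [hNt]; exact mem_natS.mpr (Or.inl hu)) h2
    (by
    intro y hy
    have hy1 : x ⋖ y := (cov_of_up h).mpr hy
    have hyN := R.chart.up x hx y hy1.le
    exact R.chart.inj y hyN u hu (hun y hyN ((chart_cov R.chart H hx hyN).mp hy1)))
  have := h3.2.2
  omega

/-- the kinds of natural elements -/
theorem WM.cases (W : WM r m N b θ) {x : P} (hx : x ∉ unnat N) : FullM m N θ x ∨
    (∃ Nc co, InRM m N b θ x Nc co) ∨ (∃ Nc co, InSM m N b θ x Nc co) ∨ QdM m N θ x := by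
  have H := W.gt.H
  have HN := W.natSys
  have hxt : x ∈ N (topOf x) := HN.mem_iff.mpr ⟨hx, rfl⟩
  have hm := W.ten
  have hT := W.typ (topOf x)
  generalize ht : topOf x = t at hxt hT
  rcases hT with ⟨h1, h2, h3, h5, h6, h7⟩ | ⟨Nc, co, h0, h1, h2, h3⟩ |
    ⟨Nc, co, h0, h1, h2, h3, h4⟩ | ⟨h1, h2, h3, h4⟩
  · left
    have hs : ∀ z ∈ unnat N, ∃ s : P, lev s = 0 ∧ z ≤ s ∧ s ≠ t := by
      intro z hz
      have h7 : z ∉ onlyB t := by
        rw [← h1]
        exact mem_unnat.mp hz t
      rw [mem_onlyB] at h7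
      push Not at h7
      exact h7
    refine ⟨by rw [ht, h2], ?_, ?_⟩
    · intro z hz hzx k _ hk
      obtain ⟨s, hs1, hs2, hs3⟩ := hs z hz
      exact two_le_nab_join HN H.gradedBelow hxt hzx hs1 hs3 hs2 hk
    · intro z hz h
      obtain ⟨s, hs1, hs2, hs3⟩ := hs z hz
      have h7 := W.lt_lev hz
      have h8 : z < s := lt_of_le_of_ne hs2 (by rintro rfl; omega)
      exact hs3 (HN.top_eq hxt hs1 ((h s).mpr h8).le)
  · -- rectangles
    by_cases hJ : x ∈ junk (fun _ => True) Nc co ∨ x ∈ junk (fun _ => True) Nc (swp co)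
    · left
      refine ⟨?_, ?_, ?_⟩
      · rw [ht, h2]
        unfold thR
        rw [if_pos hJ]
      · intro z hz hzx k hk hkx
        refine rect_two_le_nab H h0 h1 hz hzx ?_ (by omega) hkx
        rcases hJ with h | h
        · exact Or.inl h
        · exact Or.inr (Or.inl h)
      · intro z hz h
        refine mem_unnat.mp hz t ?_
        rw [h1, mem_natR]
        rcases hJ with h' | h'
        · exact Or.inr (Or.inl (junk_twin h' h))
        · exact Or.inr (Or.inr (junk_twin h' h))
    · have hxN : x ∈ Nc := by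
        rw [h1, mem_natR] at hxt
        rcases hxt with h | h | h
        · exact h
        · exact absurd (Or.inl h) hJ
        · exact absurd (Or.inr h) hJ
      have hl := h0.chart.lev x hxN
      have hb1 := h0.b_two
      have hb2 := h0.b_le
      have hrow : b t = m + 1 ∨ (co x).1 ≤ b t - 1 := by
        rcases h0.rows with h | h
        · exact Or.inl h
        · exact Or.inr (h x hxN)
      by_cases h7 : (co x).1 = 0 ∨ (co x).2 = 0
      · left
        refine ⟨?_, ?_, ?_⟩
        · rw [ht, h2]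
          unfold thR
          rw [if_neg hJ]
          omega
        · intro z hz hzx k hk hkx
          exact rect_two_le_nab H h0 h1 hz hzx (Or.inr (Or.inr ⟨hxN, h7⟩)) (by omega) hkx
        · intro z hz h
          have h8 := W.lt_lev hz
          rw [← lev_eq_of_up h] at h8
          rcases h7 with h7 | h7
          · obtain ⟨u, hu, hcu⟩ := h0.chart.low x hxN (0, (co x).2 - 1)
              ⟨Nat.zero_le _, Nat.sub_le _ _⟩ trivial
            refine straight_twin H h0 h1 hxN hu ?_ ?_ ?_ hz h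
            · rw [hcu]
              exact Or.inr ⟨by simp only; omega, by simp only; omega⟩
            · intro y hy hp
              rw [hcu]
              rcases hp with hp | hp
              · omega
              · exact Prod.ext (by simp only; omega) (by simp only; omega)
            · rw [hcu]
              exact Or.inl rfl
          · obtain ⟨u, hu, hcu⟩ := h0.chart.low x hxN ((co x).1 - 1, 0)
              ⟨Nat.sub_le _ _, Nat.zero_le _⟩ trivial
            refine straight_twin H h0 h1 hxN hu ?_ ?_ ?_ hz h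
            · rw [hcu]
              exact Or.inl ⟨by simp only; omega, by simp only; omega⟩
            · intro y hy hp
              rw [hcu]
              rcases hp with hp | hp
              · exact Prod.ext (by simp only; omega) (by simp only; omega)
              · omega
            · rw [hcu]
              exact Or.inr rfl
      · right; left
        refine ⟨Nc, co, ?_, ?_, hxN, by omega, by omega, ?_, ?_⟩
        · rw [ht]; exact h0
        · rw [ht]; exact h1
        · rw [ht, h2]
          unfold thR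
          rw [if_neg hJ]
          omega
        · rw [ht]; exact h3
  · -- stairs
    by_cases hJ : x ∈ junk (fun c => c.1 ≤ c.2) Nc co
    · left
      refine ⟨?_, ?_, ?_⟩
      · rw [ht, h2]
        unfold thS
        rw [if_pos hJ]
      · intro z hz hzx k hk hkx
        exact stair_two_le_nab H h0 h1 hz hzx (Or.inl hJ) hk hkx
      · intro z hz h
        refine mem_unnat.mp hz t ?_
        rw [h1, mem_natS]
        exact Or.inr (junk_twin hJ h)
    · have hxN : x ∈ Nc := by
        rw [h1, mem_natS] at hxt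
        rcases hxt with h | h
        · exact h
        · exact absurd h hJ
      have hl := h0.chart.lev x hxN
      by_cases h7 : (co x).1 = 0
      · left
        refine ⟨?_, ?_, ?_⟩
        · rw [ht, h2]
          unfold thS
          rw [if_neg hJ]
          omega
        · intro z hz hzx k hk hkx
          exact stair_two_le_nab H h0 h1 hz hzx (Or.inr ⟨hxN, h7⟩) hk hkx
        · intro z hz h
          have h8 := W.lt_lev hz
          rw [← lev_eq_of_up h] at h8
          obtain ⟨u, hu, hcu⟩ := h0.chart.low x hxN (0, (co x).2 - 1)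
            ⟨Nat.zero_le _, Nat.sub_le _ _⟩ (Nat.zero_le _)
          refine straight_twinS H h0 (by omega) h1 hxN hu ?_ ?_ ?_ hz h
          · rw [hcu]
            exact Or.inr ⟨by simp only; omega, by simp only; omega⟩
          · intro y hy hp
            rw [hcu]
            rcases hp with hp | hp
            · omega
            · exact Prod.ext (by simp only; omega) (by simp only; omega)
          · rw [hcu]
      · right; right; left
        refine ⟨Nc, co, ?_, ?_, hxN, by omega, ?_, ?_⟩
        · rw [ht]; exact h0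
        · rw [ht]; exact h1
        · rw [ht, h2]
          unfold thS
          rw [if_neg hJ]
        · rw [ht]; exact h4
  · right; right; right
    rw [h1, mem_lowPart] at hxt
    refine ⟨by rw [ht]; exact h1, by rw [ht, h2], hxt.2, by rw [ht]; exact h4⟩

end Pool.Agent.GaussPoset
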