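import Pool.Agent.W_448s8_h76.SaE

/-!
The unnatural elements of level `2 m + 1`: classification (MP_448cb3_co, S8).
-/

namespace Pool.Agent.GaussPoset

set_option linter.unusedSectionVars false

open Polynomial Finset

universe u

variable {P : Type u} [Fintype P] [PartialOrder P] [DecidableEq P] {r m : ℕ}
  {N : Tops P → Finset P} {b : Tops P → ℕ} {θ : Tops P → P → ℕ}

/-- the fold ends -/
def FoldM (m : ℕ) (N : Tops P → Finset P) (b : Tops P → ℕ) (θ : Tops P → P → ℕ) (x : P) : Prop :=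
  ∃ Nc co, InSM m N b θ x Nc co ∧ co x = (m, m)

/-- an inner cell of a stair has two covers -/
lemma chartS_inner_uc {t : P} {Nc : Finset P} {co : P → ℕ × ℕ}
    (C : Chart t (fun c => c.1 ≤ c.2) Nc co) (H : Gr P r) {x : P} (hx : x ∈ Nc)
    (h1 : 1 ≤ (co x).1) (h2 : (co x).1 < (co x).2) : (Win.uc x).card = 2 := by
  classical
  obtain ⟨y1, hy1, hc1⟩ := C.low x hx ((co x).1 - 1, (co x).2)
    ⟨Nat.sub_le _ _, le_rfl⟩ (by simp only; omega)
  obtain ⟨y2, hy2, hc2⟩ := C.low x hx ((co x).1, (co x).2 - 1)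
    ⟨le_rfl, Nat.sub_le _ _⟩ (by simp only; omega)
  have e1 : x ⋖ y1 := by
    rw [chart_cov C H hx hy1, hc1]
    exact Or.inl ⟨by simp only; omega, rfl⟩
  have e2 : x ⋖ y2 := by
    rw [chart_cov C H hx hy2, hc2]
    exact Or.inr ⟨rfl, by simp only; omega⟩
  have hne : y1 ≠ y2 := by
    rintro rfl
    rw [hc1] at hc2
    simp only [Prod.mk.injEq] at hc2
    omega
  have h3 : ({y1, y2} : Finset P) ⊆ Win.uc x := by
    intro y hy
    rw [mem_insert, mem_singleton] at hy
    rcases hy with rfl | rfl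
    · exact Win.mem_uc.mpr e1
    · exact Win.mem_uc.mpr e2
  have h4 := Finset.card_le_card h3
  rw [Finset.card_pair hne] at h4
  have := Win.uc_card_le H x
  omega

/-- the kinds of elements of level `2 m` -/
theorem WM.kind (W : WM r m N b θ) {x : P} (hl : lev x = 2 * m) :
    FullM m N θ x ∨ FoldM m N b θ x ∨ QdM m N θ x ∨
      ((Win.uc x).card = 2 ∧ NopT m (topOf x)) := by
  have H := W.gt.H
  have hm := W.ten
  rcases W.cases (W.low hl.le) with h | ⟨Nc, co, h⟩ | ⟨Nc, co, h⟩ | h
  · exact Or.inl h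
  · exact Or.inr (Or.inr (Or.inr ⟨chart_inner_uc h.rect.chart H h.mem h.fst h.snd, h.nop⟩))
  · have h1 := h.stair.chart.lev x h.mem
    have h2 : (co x).1 ≤ (co x).2 := h.stair.chart.mem x h.mem
    by_cases h3 : (co x).1 = m
    · exact Or.inr (Or.inl ⟨Nc, co, h, Prod.ext h3 (by simp only; omega)⟩)
    · exact Or.inr (Or.inr (Or.inr ⟨chartS_inner_uc h.stair.chart H h.mem h.fst (by omega),
        h.nop⟩))
  · exact Or.inr (Or.inr (Or.inl h))

/-- two elements of level `2 m` below a quadric top are equal -/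
lemma QInf.unique {a : ℕ} {t : Tops P} (h : QInf m a t) {x x' : P} (hx : x ≤ (t : P))
    (hx' : x' ≤ (t : P)) (hl : lev x = 2 * m) (hl' : lev x' = 2 * m) : x = x' :=
  le_antisymm (h.bot x hx hl x' hx' hl'.le) (h.bot x' hx' hl' x hx hl.le)

/-- the seventh step: no join without a fold end -/
def S7M (m : ℕ) (N : Tops P → Finset P) (b : Tops P → ℕ) (θ : Tops P → P → ℕ) : Prop :=
  ∀ z x x' : P, lev z = 2 * m + 1 → z ⋖ x → z ⋖ x' → topOf x ≠ topOf x' →
    FoldM m N b θ x ∨ FoldM m N b θ x'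

/-- pendants -/
def Pend (z x : P) : Prop := z ⋖ x ∧ ∀ y, z ⋖ y → y = x

/-- the unnatural elements of level `2 m + 1` which are no twins -/
inductive KM (m : ℕ) (N : Tops P → Finset P) (b : Tops P → ℕ) (θ : Tops P → P → ℕ) (z : P) : Prop
  | penF (x : P) (hx : FoldM m N b θ x) (hzx : Pend z x)
  | penQ (x : P) (hx : QdM m N θ x) (hzx : Pend z x)
  | fq (x x' : P) (hx : FoldM m N b θ x) (hx' : QdM m N θ x') (ht : topOf x ≠ topOf x')
      (hzx : z ⋖ x) (hzx' : z ⋖ x')
  | ff (x x' : P) (hx : FoldM m N b θ x) (hx' : FoldM m N b θ x') (ht : topOf x ≠ topOf x')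
      (hzx : z ⋖ x) (hzx' : z ⋖ x')
  | fv (x x' : P) (hx : FoldM m N b θ x) (hx' : FullM m N θ x') (h1 : (Win.uc x').card = 1)
      (ht : topOf x ≠ topOf x') (hzx : z ⋖ x) (hzx' : z ⋖ x')
  | cc (x x' : P) (Nc : Finset P) (co : P → ℕ × ℕ) (hx : InSM m N b θ x Nc co)
      (hcx : co x = (m, m)) (hx' : x' ∈ Nc) (hcx' : co x' = (0, 2 * m)) (hzx : z ⋖ x)
      (hzx' : z ⋖ x')
  | full (h : ∀ x, z ⋖ x → FullM m N θ x)

lemma uc_pair {x x' z y : P} (H : Gr P r) (hzx : z ⋖ x) (hzx' : z ⋖ x') (hne : x ≠ x')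
    (h : z ⋖ y) : y = x ∨ y = x' := by
  by_contra hcon
  push Not at hcon
  exact Win.uc_three H h hzx hzx' hcon.1 hcon.2 hne

/-- elements with the same two covers -/
lemma up_of_pair {x x' z y : P} (H : Gr P r) (hzx : z ⋖ x) (hzx' : z ⋖ x') (hyx : y ⋖ x)
    (hyx' : y ⋖ x') (hne : x ≠ x') : ∀ w, y < w ↔ z < w := by
  refine up_of_cov fun w => ⟨fun h => ?_, fun h => ?_⟩
  · rcases uc_pair H hyx hyx' hne h with h1 | h1
    · rw [h1]; exact hzx
    · rw [h1]; exact hzx'
  · rcases uc_pair H hzx hzx' hne h with h1 | h1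
    · rw [h1]; exact hyx
    · rw [h1]; exact hyx'

/-- two neighbours of the level `2 m`: the element is natural or a twin -/
lemma WM.near (W : WM r m N b θ) {z x x' : P} (hz : z ∈ r2 (2 * m) N) (hl : lev z = 2 * m + 1)
    (hzx : z ⋖ x) (hzx' : z ⋖ x') (hne : x ≠ x') (h1 : ucv x x' = 1) : False := by
  classical
  have H := W.gt.H
  have HN := W.natSys
  have hm := W.ten
  have hlx : lev x = 2 * m := by
    have := (H.covBy_iff.mp hzx).2
    omega
  have hlx' : lev x' = 2 * m := by
    have := (H.covBy_iff.mp hzx').2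
    omega
  rw [mem_sdiff] at hz
  have hzU := hz.1
  obtain ⟨p, hp⟩ := Finset.card_eq_one.mp h1
  have hp2 : x ⋖ p ∧ x' ⋖ p := by
    have : p ∈ (univ.filter (fun y : P => x ⋖ y ∧ x' ⋖ y)) := by rw [hp]; simp
    simpa using this
  have hxt : topOf x = topOf p := HN.cp x p hp2.1.le (W.low hlx.le)
  have hxt' : topOf x' = topOf p := HN.cp x' p hp2.2.le (W.low hlx'.le)
  have hxle : x ≤ (topOf p : P) := by rw [← hxt]; exact le_topOf x
  have hxle' : x' ≤ (topOf p : P) := by rw [← hxt']; exact le_topOf x'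
  have hxN : x ∈ N (topOf p) := HN.mem_iff.mpr ⟨W.low hlx.le, hxt⟩
  have hxN' : x' ∈ N (topOf p) := HN.mem_iff.mpr ⟨W.low hlx'.le, hxt'⟩
  have twin : ∀ y : P, y ∉ unnat N → y ⋖ x → y ⋖ x' → False := fun y hy hyx hyx' =>
    hz.2 (mem_twY.mpr ⟨hzU, hl, y, hy, up_of_pair H hzx hzx' hyx hyx' hne⟩)
  rcases W.typ (topOf p) with ⟨g1, g2, g3, g5, g6, g7⟩ | ⟨Nc, co, g0, g1, g2, g3⟩ |
    ⟨Nc, co, g0, g1, g2, g3, g4⟩ | ⟨g1, g2, g3, g4⟩
  · refine mem_unnat.mp hzU (topOf p) ?_
    rw [g1, mem_onlyB]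
    intro s hs hzs
    have hne2 : z ≠ s := by rintro rfl; omega
    obtain ⟨v, hv, hvs⟩ := Hul.exists_cov (lt_of_le_of_ne hzs hne2)
    rcases uc_pair H hzx hzx' hne hv with h | h
    · rw [h] at hvs
      exact HN.top_eq hxN hs hvs
    · rw [h] at hvs
      exact HN.top_eq hxN' hs hvs
  · have hx : x ∈ Nc := g0.strip (mem_lowPart.mpr ⟨hxle, hlx.le⟩)
    have hx' : x' ∈ Nc := g0.strip (mem_lowPart.mpr ⟨hxle', hlx'.le⟩)
    have hpN := g0.chart.up x hx p hp2.1.le
    have e1 := (chart_cov g0.chart H hx hpN).mp hp2.1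
    have e2 := (chart_cov g0.chart H hx' hpN).mp hp2.2
    have hcne : co x ≠ co x' := fun h => hne (g0.chart.inj x hx x' hx' h)
    have hzN : z ∉ Nc := fun h => mem_unnat.mp hzU (topOf p) (by
      rw [g1]
      exact mem_natR.mpr (Or.inl h))
    have key : ∀ x x' : P, x ∈ Nc → x' ∈ Nc → z ⋖ x → z ⋖ x' →
        co x = ((co p).1 + 1, (co p).2) → co x' = ((co p).1, (co p).2 + 1) →
        ∃ y, y ∉ unnat N ∧ y ⋖ x ∧ y ⋖ x' := by
      intro x x' hx hx' hzx hzx' hcx hcx'
      obtain ⟨y, hy, -, hyx, hyx', hyz⟩ := max_pair g0.chart g0.max H hzN hx hx' hzx hzx' hcx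
        hcx' trivial
      refine ⟨y, (HN.mem_iff (t := topOf p).mp ?_).1, hyx, hyx'⟩
      rw [g1]
      exact mem_natR.mpr (Or.inl hy)
    rcases e1 with e1 | e1
    · rcases e2 with e2 | e2
      · exact hcne (Prod.ext (by omega) (by omega))
      · obtain ⟨y, h3, h4, h5⟩ := key x x' hx hx' hzx hzx' (Prod.ext e1.1 e1.2)
          (Prod.ext e2.1 e2.2)
        exact twin y h3 h4 h5
    · rcases e2 with e2 | e2
      · obtain ⟨y, h3, h4, h5⟩ := key x' x hx' hx hzx' hzx (Prod.ext e2.1 e2.2)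
          (Prod.ext e1.1 e1.2)
        exact twin y h3 h5 h4
      · exact hcne (Prod.ext (by omega) (by omega))
  · have hx : x ∈ Nc := g0.strip (mem_lowPart.mpr ⟨hxle, hlx.le⟩)
    have hx' : x' ∈ Nc := g0.strip (mem_lowPart.mpr ⟨hxle', hlx'.le⟩)
    have hpN := g0.chart.up x hx p hp2.1.le
    have e1 := (chart_cov g0.chart H hx hpN).mp hp2.1
    have e2 := (chart_cov g0.chart H hx' hpN).mp hp2.2
    have hcne : co x ≠ co x' := fun h => hne (g0.chart.inj x hx x' hx' h)
    have hzN : z ∉ Nc := fun h => mem_unnat.mp hzU (topOf p) (by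
      rw [g1]
      exact mem_natS.mpr (Or.inl h))
    have hSx : (co x).1 ≤ (co x).2 := g0.chart.mem x hx
    have hSx' : (co x').1 ≤ (co x').2 := g0.chart.mem x' hx'
    have key : ∀ x x' : P, x ∈ Nc → x' ∈ Nc → z ⋖ x → z ⋖ x' → (co x).1 ≤ (co x).2 →
        co x = ((co p).1 + 1, (co p).2) → co x' = ((co p).1, (co p).2 + 1) →
        ∃ y, y ∉ unnat N ∧ y ⋖ x ∧ y ⋖ x' := by
      intro x x' hx hx' hzx hzx' hS hcx hcx'
      obtain ⟨y, hy, -, hyx, hyx', hyz⟩ := max_pair g0.chart g0.max H hzN hx hx' hzx hzx' hcx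
        hcx' (by
          rw [hcx] at hS
          simp only at hS ⊢
          omega)
      refine ⟨y, (HN.mem_iff (t := topOf p).mp ?_).1, hyx, hyx'⟩
      rw [g1]
      exact mem_natS.mpr (Or.inl hy)
    rcases e1 with e1 | e1
    · rcases e2 with e2 | e2
      · exact hcne (Prod.ext (by omega) (by omega))
      · obtain ⟨y, h3, h4, h5⟩ := key x x' hx hx' hzx hzx' hSx (Prod.ext e1.1 e1.2)
          (Prod.ext e2.1 e2.2)
        exact twin y h3 h4 h5
    · rcases e2 with e2 | e2
      · obtain ⟨y, h3, h4, h5⟩ := key x' x hx' hx hzx' hzx hSx' (Prod.ext e2.1 e2.2)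
          (Prod.ext e1.1 e1.2)
        exact twin y h3 h5 h4
      · exact hcne (Prod.ext (by omega) (by omega))
  · exact hne (g4.unique hxle hxle' hlx hlx')

/-- a single-up element of level `2 m` of the stair of a fold end -/
lemma WM.stair_single (W : WM r m N b θ) {x x' : P} {Nc : Finset P} {co : P → ℕ × ℕ}
    (h : InSM m N b θ x Nc co) (hcx : co x = (m, m)) (hlx' : lev x' = 2 * m)
    (hxt : topOf x' = topOf x) (hne : x ≠ x') (h1 : (Win.uc x').card = 1) :
    x' ∈ Nc ∧ co x' = (0, 2 * m) := by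
  have hx' : x' ∈ Nc := h.stair.strip (mem_lowPart.mpr ⟨by rw [← hxt]; exact le_topOf x',
    hlx'.le⟩)
  refine ⟨hx', ?_⟩
  have h2 := h.stair.chart.lev x' hx'
  have h3 : (co x').1 ≤ (co x').2 := h.stair.chart.mem x' hx'
  by_cases h4 : (co x').1 = 0
  · exact Prod.ext h4 (by simp only; omega)
  · exfalso
    by_cases h5 : (co x').1 = (co x').2
    · exact hne (h.stair.chart.inj x h.mem x' hx' (by
        rw [hcx]
        exact Prod.ext (by simp only; omega) (by simp only; omega)))
    · have := chartS_inner_uc h.stair.chart W.gt.H hx' (by omega) (by omega)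
      omega

/-- the classification -/
theorem WM.class (W : WM r m N b θ) (S7 : S7M m N b θ) {z : P} (hz : z ∈ r2 (2 * m) N)
    (hl : lev z = 2 * m + 1) : KM m N b θ z := by
  classical
  have H := W.gt.H
  have HN := W.natSys
  have hm := W.ten
  have hzt : z < (topOf z : P) := lt_of_le_of_ne (le_topOf z) (by
    intro h
    have := (topOf z).2
    rw [← h] at this
    omega)
  obtain ⟨x, hzx, hxt⟩ := Hul.exists_cov hzt
  have hlev : ∀ y, z ⋖ y → lev y = 2 * m := by
    intro y hy
    have := (H.covBy_iff.mp hy).2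
    omega
  have hlx := hlev x hzx
  by_cases honly : ∀ y, z ⋖ y → y = x
  · rcases W.kind hlx with h | h | h | h
    · refine KM.full fun y hy => ?_
      rw [honly y hy]
      exact h
    · exact KM.penF x h ⟨hzx, honly⟩
    · exact KM.penQ x h ⟨hzx, honly⟩
    · exact absurd honly (h.2 x z (le_topOf x) hlx h.1 hzx)
  · push Not at honly
    obtain ⟨x', hzx', hne'⟩ := honly
    have hne : x ≠ x' := Ne.symm hne'
    have hlx' := hlev x' hzx'
    obtain ⟨i, hi⟩ : ∃ i, 2 * m = i + 1 := ⟨2 * m - 1, by omega⟩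
    have hgt := W.gt
    rw [hi] at hgt
    rcases (Win.near_level' hgt (by omega)).1 z x x' (by omega) hzx hzx' hne with
      h7 | ⟨h7, h8, -⟩
    · exact (W.near hz hl hzx hzx' hne h7).elim
    · by_cases ht : topOf x = topOf x'
      · -- the same top
        have hQ : ∀ y, z ⋖ y → ¬ QdM m N θ y := by
          intro y hy hQ
          have hty : topOf y = topOf x := by
            rcases uc_pair H hzx hzx' hne hy with h | h
            · rw [h]
            · rw [h, ht]
          have hy1 : x ≤ (topOf y : P) := by rw [hty]; exact le_topOf x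
          have hy2 : x' ≤ (topOf y : P) := by rw [hty, ht]; exact le_topOf x'
          exact hne (hQ.inf.unique hy1 hy2 hlx hlx')
        rcases W.kind hlx with h | ⟨Nc, co, h, hcx⟩ | h | h
        · rcases W.kind hlx' with h' | ⟨Nc, co, h', hcx⟩ | h' | h'
          · refine KM.full fun y hy => ?_
            rcases uc_pair H hzx hzx' hne hy with e | e
            · rw [e]; exact h
            · rw [e]; exact h'
          · obtain ⟨h9, h10⟩ := W.stair_single h' hcx hlx ht hne' h7
            exact KM.cc x' x Nc co h' hcx h9 h10 hzx' hzx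
          · exact (hQ x' hzx' h').elim
          · omega
        · obtain ⟨h9, h10⟩ := W.stair_single h hcx hlx' ht.symm hne h8
          exact KM.cc x x' Nc co h hcx h9 h10 hzx hzx'
        · exact (hQ x hzx h).elim
        · omega
      · -- different tops
        rcases W.kind hlx with h | h | h | h
        · rcases W.kind hlx' with h' | h' | h' | h'
          · refine KM.full fun y hy => ?_
            rcases uc_pair H hzx hzx' hne hy with e | e
            · rw [e]; exact h
            · rw [e]; exact h'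
          · exact KM.fv x' x h' h h7 (Ne.symm ht) hzx' hzx
          · rcases S7 z x x' hl hzx hzx' ht with h9 | h9
            · exact KM.fq x x' h9 h' ht hzx hzx'
            · exact KM.fv x' x h9 h h7 (Ne.symm ht) hzx' hzx
          · omega
        · rcases W.kind hlx' with h' | h' | h' | h'
          · exact KM.fv x x' h h' h8 ht hzx hzx'
          · exact KM.ff x x' h h' ht hzx hzx'
          · exact KM.fq x x' h h' ht hzx hzx'
          · omega
        · rcases W.kind hlx' with h' | h' | h' | h'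
          · rcases S7 z x x' hl hzx hzx' ht with h9 | h9
            · exact KM.fv x x' h9 h' h8 ht hzx hzx'
            · exact KM.fq x' x h9 h (Ne.symm ht) hzx' hzx
          · exact KM.fq x' x h' h (Ne.symm ht) hzx' hzx
          · rcases S7 z x x' hl hzx hzx' ht with h9 | h9
            · exact KM.fq x x' h9 h' ht hzx hzx'
            · exact KM.fq x' x h9 h (Ne.symm ht) hzx' hzx
          · omega
        · omega

end Pool.Agent.GaussPoset
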