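import Pool.Agent.W_448s8_h76.SaG

/-!
The table of costs, drops and signs (MP_448cb3_co, S8).
-/

namespace Pool.Agent.GaussPoset

set_option linter.unusedSectionVars false

open Polynomial Finset

universe u

variable {P : Type u} [Fintype P] [PartialOrder P] [DecidableEq P] {r m : ℕ}
  {N : Tops P → Finset P} {b : Tops P → ℕ} {θ : Tops P → P → ℕ}

/-- label, cost, drop and sign exponent of a boundary element -/
structure Num (m : ℕ) (N : Tops P → Finset P) (θ : Tops P → P → ℕ) (z : P) (k c d s : ℕ) :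
    Prop where
  lab : h2 (2 * m) N θ z = k
  cst : Pool.Agent.GaussPoset.cst m (h2 (2 * m) N θ) z = c
  drop : nab m z = nab (m + k) z + d
  nst : Pool.Agent.GaussPoset.nst m (h2 (2 * m) N θ) z = s

/-- sign exponent of a fold end -/
def sgF (m : ℕ) : ℕ := ∑ k ∈ range (hh m), nF m k

lemma Num.mk' {z : P} {k c d s : ℕ} (hl : lev z = 2 * m + 1) (hk : k ≤ m + 1)
    (h1 : h2 (2 * m) N θ z = k) (h3 : vs m k z + k = c) (h4 : nab m z = nab (m + k) z + d)
    (h5 : ∑ u ∈ range k, nab (m + u) z = s) : Num m N θ z k c d s where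
  lab := h1
  cst := by rw [cst_ct h1, ct_top hl hk, h3]
  drop := h4
  nst := by rw [nst_eq, h1, h5]

section Rows

variable {z x x' : P}

lemma WM.num_penQ (W : WM r m N b θ) (hz : z ∈ r2 (2 * m) N) (hl : lev z = 2 * m + 1)
    (hx : QdM m N θ x) (hp : Pend z x) : Num m N θ z 1 (m + 1) 1 2 := by
  have hm := W.ten
  have hlx : lev x = 2 * m := by
    have := (W.gt.H.covBy_iff.mp hp.1).2
    omega
  have hn : ∀ u, u ≤ m → nab (m + u) z = if m + u = m then 2 else 1 := by
    intro u hu
    rw [nab_pend hp (by omega)]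
    exact W.nab_quad hx.inf hlx (by omega)
  refine Num.mk' hl (by omega) ?_ ?_ ?_ ?_
  · rw [W.h2_eq hz hl hp.1 (fun y hy => by rw [hp.2 y hy]), hx.th]
  · rw [vs_quad (a := m) le_rfl (by omega) hn, NL_one, Nat.sub_self, Nat.min_zero]
  · have h1 := hn 0 (by omega)
    have h2 := hn 1 (by omega)
    rw [if_pos (by omega)] at h1
    rw [if_neg (by omega)] at h2
    rw [Nat.add_zero] at h1
    omega
  · have h1 := hn 0 (by omega)
    rw [if_pos (by omega)] at h1
    rw [Finset.sum_range_one, h1]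

lemma WM.num_penF (W : WM r m N b θ) (hz : z ∈ r2 (2 * m) N) (hl : lev z = 2 * m + 1)
    (hx : FoldM m N b θ x) (hp : Pend z x) :
    Num m N θ z (hh m) (NF m (hh m) + hh m) 1 (sgF m) := by
  have hm := W.ten
  have hh2 := hh_le m
  have hn : ∀ u, u ≤ m → nab (m + u) z = nab (m + u) x := by
    intro u hu
    exact nab_pend hp (by omega)
  refine Num.mk' hl (by omega) ?_ ?_ ?_ ?_
  · rw [W.h2_eq hz hl hp.1 (fun y hy => by rw [hp.2 y hy]), hx.th, hh_eq]
  · rw [vs_congr hn, hx.vs]
  · have h1 := hn 0 (by omega)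
    rw [Nat.add_zero] at h1
    have h3 := hx.nab (u := 0) (by omega)
    rw [Nat.add_zero] at h3
    rw [h1, h3, hn (hh m) (by omega), hx.nab (by omega), nF_drop (by omega)]
  · unfold sgF
    refine Finset.sum_congr rfl fun u hu => ?_
    rw [mem_range] at hu
    rw [hn u (by omega), hx.nab (by omega)]

lemma WM.num_ff (W : WM r m N b θ) (hz : z ∈ r2 (2 * m) N) (hl : lev z = 2 * m + 1)
    (hx : FoldM m N b θ x) (hx' : FoldM m N b θ x') (ht : topOf x ≠ topOf x') (hzx : z ⋖ x)
    (hzx' : z ⋖ x') : Num m N θ z (hh m) (2 * NF m (hh m) + hh m) 2 (2 * sgF m) := by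
  have hm := W.ten
  have hh2 := hh_le m
  have hn : ∀ u, u ≤ m → nab (m + u) z = nab (m + u) x + nab (m + u) x' := by
    intro u hu
    exact W.nab_join hl hzx hzx' ht (by omega)
  have hne : x ≠ x' := fun h => ht (by rw [h])
  refine Num.mk' hl (by omega) ?_ ?_ ?_ ?_
  · rw [W.h2_eq hz hl hzx (fun y hy => ?_), hx.th, hh_eq]
    rcases uc_pair W.gt.H hzx hzx' hne hy with h | h
    · rw [h]
    · rw [h, hx.th, hx'.th]
  · rw [vs_add hn, hx.vs, hx'.vs]
    ring
  · have h1 := hn 0 (by omega)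
    rw [Nat.add_zero] at h1
    have h3 := hx.nab (u := 0) (by omega)
    have h4 := hx'.nab (u := 0) (by omega)
    rw [Nat.add_zero] at h3 h4
    rw [h1, h3, h4, hn (hh m) (by omega), hx.nab (by omega), hx'.nab (by omega),
      nF_drop (by omega)]
    ring
  · unfold sgF
    rw [Finset.mul_sum]
    refine Finset.sum_congr rfl fun u hu => ?_
    rw [mem_range] at hu
    rw [hn u (by omega), hx.nab (by omega), hx'.nab (by omega)]
    ring

lemma WM.num_fq (W : WM r m N b θ) (hz : z ∈ r2 (2 * m) N) (hl : lev z = 2 * m + 1)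
    (hx : FoldM m N b θ x) (hx' : QdM m N θ x') (ht : topOf x ≠ topOf x') (hzx : z ⋖ x)
    (hzx' : z ⋖ x') : Num m N θ z 1 (NF m 1 + m + 1) (2 - m % 2) (nF m 0 + 2) := by
  have hm := W.ten
  have hlx' : lev x' = 2 * m := by
    have := (W.gt.H.covBy_iff.mp hzx').2
    omega
  have hn : ∀ u, u ≤ m → nab (m + u) z = nab (m + u) x + nab (m + u) x' := by
    intro u hu
    exact W.nab_join hl hzx hzx' ht (by omega)
  have hq : ∀ u, u ≤ m → nab (m + u) x' = if m + u = m then 2 else 1 := by
    intro u hu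
    exact W.nab_quad hx'.inf hlx' (by omega)
  have hne : x ≠ x' := fun h => ht (by rw [h])
  refine Num.mk' hl (by omega) ?_ ?_ ?_ ?_
  · rw [W.h2_eq hz hl hzx' (fun y hy => by rw [hx'.th]; exact Nat.zero_le _), hx'.th]
  · rw [vs_add hn, hx.vs, vs_quad (a := m) le_rfl (by omega) hq, NL_one, Nat.sub_self,
      Nat.min_zero]
    ring
  · have h1 := hn 0 (by omega)
    have h5 := hn 1 (by omega)
    have h3 := hx.nab (u := 0) (by omega)
    have h4 := hq 0 (by omega)
    rw [if_pos (by omega)] at h4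
    have h6 := hx.nab (u := 1) (by omega)
    have h7 := hq 1 (by omega)
    rw [if_neg (by omega)] at h7
    rw [Nat.add_zero] at h1 h3 h4
    rw [h1, h3, h4, h5, h6, h7]
    unfold nF
    omega
  · have h1 := hn 0 (by omega)
    have h3 := hx.nab (u := 0) (by omega)
    have h4 := hq 0 (by omega)
    rw [if_pos (by omega)] at h4
    rw [Finset.sum_range_one, h1, h3, h4]

/-- the straight end of the stair of a fold end -/
lemma WM.cc_full (W : WM r m N b θ) {Nc : Finset P} {co : P → ℕ × ℕ} (hx : InSM m N b θ x Nc co)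
    (hcx : co x = (m, m)) (hx' : x' ∈ Nc) (hcx' : co x' = (0, 2 * m)) :
    FullM m N θ x' ∧ topOf x' = topOf x := by
  classical
  have H := W.gt.H
  have hm := W.ten
  have C := hx.stair.chart
  have hlx : lev x = 2 * m := by
    rw [C.lev x hx.mem, hcx]
    simp only
    omega
  have hlx' : lev x' = 2 * m := by
    rw [C.lev x' hx', hcx']
    simp only
    omega
  have hxN : x ∈ N (topOf x) := W.natSys.mem_iff.mpr ⟨W.low hlx.le, rfl⟩
  have htop : topOf x' = topOf x := by
    have h1 : x' ∈ N (topOf x) := by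
      rw [hx.nat]
      exact mem_natS.mpr (Or.inl hx')
    exact W.natSys.topOf_eq h1
  refine ⟨?_, htop⟩
  rcases W.kind hlx' with h | h | h | h
  · exact h
  · exfalso
    have h1 := h.nab (u := 0) (by omega)
    rw [Nat.add_zero, nab_chart C hx', hcx'] at h1
    have := card_cellsAt_shift (l := m) (p := (0, 2 * m)) (Nat.zero_le _) (by simp only; omega)
    simp only at this
    unfold nF at h1
    omega
  · exfalso
    have h1 := h.inf.unique (x := x) (x' := x') (by rw [htop]; exact le_topOf x) (le_topOf x')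
      hlx hlx'
    rw [h1, hcx'] at hcx
    simp only [Prod.mk.injEq] at hcx
    omega
  · exfalso
    obtain ⟨y1, y2, hne, hyy⟩ := Finset.card_eq_two.mp h.1
    have e1 : x' ⋖ y1 := Win.mem_uc.mp (by rw [hyy]; simp)
    have e2 : x' ⋖ y2 := Win.mem_uc.mp (by rw [hyy]; simp)
    have hy1 := C.up x' hx' y1 e1.le
    have hy2 := C.up x' hx' y2 e2.le
    have f1 := (chart_cov C H hx' hy1).mp e1
    have f2 := (chart_cov C H hx' hy2).mp e2
    rw [hcx'] at f1 f2
    unfold Prd at f1 f2
    simp only at f1 f2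
    exact hne (C.inj y1 hy1 y2 hy2 (Prod.ext (by omega) (by omega)))

/-- elements above a join of the fold end and the straight end of the same stair -/
lemma WM.nab_cc (W : WM r m N b θ) {Nc : Finset P} {co : P → ℕ × ℕ} (hl : lev z = 2 * m + 1)
    (hx : InSM m N b θ x Nc co) (hcx : co x = (m, m)) (hx' : x' ∈ Nc) (hcx' : co x' = (0, 2 * m))
    (hzx : z ⋖ x) (hzx' : z ⋖ x') :
    nab m z = nF m 0 ∧ ∀ u, 1 ≤ u → u ≤ m → nab (m + u) z = nF m u + 1 := by
  classical
  have H := W.gt.H
  have hm := W.ten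
  have C := hx.stair.chart
  have hF : FoldM m N b θ x := ⟨Nc, co, hx, hcx⟩
  have hne : x ≠ x' := by
    rintro rfl
    rw [hcx] at hcx'
    simp only [Prod.mk.injEq] at hcx'
    omega
  have hup : ∀ l, l ≤ 2 * m → ∀ y, lev y = l → z ≤ y → x ≤ y ∨ x' ≤ y := by
    intro l hl2 y hy hzy
    have hne2 : z ≠ y := by rintro rfl; omega
    obtain ⟨v, hv, hvy⟩ := Hul.exists_cov (lt_of_le_of_ne hzy hne2)
    rcases uc_pair H hzx hzx' hne hv with h | h
    · rw [h] at hvy; exact Or.inl hvy
    · rw [h] at hvy; exact Or.inr hvy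
  have hS : ∀ y, x' ≤ y → y ∈ Nc ∧ co y = (0, lev y) := by
    intro y hy
    have hyN := C.up x' hx' y hy
    have h1 := (C.le_iff x' hx' y hyN).mp hy
    have h2 : (co y).1 ≤ (co x').1 := h1.1
    rw [hcx'] at h2
    simp only at h2
    have h3 := C.lev y hyN
    exact ⟨hyN, Prod.ext (by simp only; omega) (by simp only; omega)⟩
  constructor
  · have h1 := hF.nab (u := 0) (by omega)
    rw [Nat.add_zero] at h1
    rw [← h1]
    unfold nab
    congr 1
    ext y
    rw [mem_filter, mem_filter, mem_lv]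
    refine and_congr_right fun h2 => ⟨fun h3 => ?_, fun h3 => hzx.le.trans h3⟩
    rcases hup m (by omega) y h2 h3 with h | h
    · exact h
    · obtain ⟨hy, hcy⟩ := hS y h
      rw [C.le_iff x hx.mem y hy, hcy, hcx, h2]
      exact ⟨Nat.zero_le _, le_rfl⟩
  · intro u hu hum
    have h1 := hF.nab (u := u) hum
    have h2 : nab (m + u) x' = 1 := by
      rw [nab_chart C hx', hcx']
      have := card_cellsAt_shift (l := m + u) (p := (0, 2 * m)) (Nat.zero_le _)
        (by simp only; omega)
      simp only at this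
      omega
    rw [← h1, ← h2]
    unfold nab
    rw [← Finset.card_union_of_disjoint]
    · congr 1
      ext y
      rw [mem_union, mem_filter, mem_filter, mem_filter, mem_lv]
      constructor
      · rintro ⟨h3, h4⟩
        rcases hup (m + u) (by omega) y h3 h4 with h | h
        · exact Or.inl ⟨h3, h⟩
        · exact Or.inr ⟨h3, h⟩
      · rintro (⟨h3, h4⟩ | ⟨h3, h4⟩)
        · exact ⟨h3, hzx.le.trans h4⟩
        · exact ⟨h3, hzx'.le.trans h4⟩
    · rw [Finset.disjoint_left]
      intro y hy hy'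
      rw [mem_filter, mem_lv] at hy hy'
      obtain ⟨hyN, hcy⟩ := hS y hy'.2
      have h3 := (C.le_iff x hx.mem y hyN).mp hy.2
      have h4 : (co y).2 ≤ (co x).2 := h3.2
      rw [hcy, hcx, hy.1] at h4
      simp only at h4
      omega

lemma WM.num_cc (W : WM r m N b θ) {Nc : Finset P} {co : P → ℕ × ℕ} (hz : z ∈ r2 (2 * m) N)
    (hl : lev z = 2 * m + 1) (hx : InSM m N b θ x Nc co) (hcx : co x = (m, m)) (hx' : x' ∈ Nc)
    (hcx' : co x' = (0, 2 * m)) (hzx : z ⋖ x) (hzx' : z ⋖ x') :
    ∃ s, Num m N θ z (hh m) (E0 m) 0 s := by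
  have hm := W.ten
  have hh2 := hh_le m
  have hh1 := hh_pos m
  have hF : FoldM m N b θ x := ⟨Nc, co, hx, hcx⟩
  obtain ⟨hfull, htop⟩ := W.cc_full hx hcx hx' hcx'
  obtain ⟨h1, h2⟩ := W.nab_cc hl hx hcx hx' hcx' hzx hzx'
  have hlx' : lev x' = 2 * m := by
    have := (W.gt.H.covBy_iff.mp hzx').2
    omega
  have hne : x ≠ x' := by
    rintro rfl
    rw [hcx] at hcx'
    simp only [Prod.mk.injEq] at hcx'
    omega
  refine ⟨_, Num.mk' hl (by omega) ?_ ?_ ?_ rfl⟩
  · rw [W.h2_eq hz hl hzx (fun y hy => ?_), hF.th, hh_eq]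
    rcases uc_pair W.gt.H hzx hzx' hne hy with h | h
    · rw [h]
    · rw [h, hF.th, hfull.th, hlx']
      omega
  · unfold E0 vs NF NL
    rw [← Finset.sum_add_distrib]
    congr 1
    refine Finset.sum_congr rfl fun u hu => ?_
    rw [mem_range] at hu
    rcases Nat.eq_zero_or_pos u with h0 | h0
    · subst h0
      simp
    · rw [h2 u h0 (by omega)]
      ring
  · rw [h1, h2 (hh m) hh1 (by omega), nF_drop (by omega)]

/-- all covers have full thresholds: large cost -/
lemma WM.cst_full (W : WM r m N b θ) (hz : z ∈ r2 (2 * m) N) (hl : lev z = 2 * m + 1)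
    (h : ∀ x, z ⋖ x → FullM m N θ x) : (m + 1) ^ 2 ≤ cst m (h2 (2 * m) N θ) z := by
  have hm := W.ten
  have hzt : z < (topOf z : P) := lt_of_le_of_ne (le_topOf z) (by
    intro h
    have := (topOf z).2
    rw [← h] at this
    omega)
  obtain ⟨x, hzx, -⟩ := Hul.exists_cov hzt
  have hlev : ∀ y, z ⋖ y → lev y = 2 * m := by
    intro y hy
    have := (W.gt.H.covBy_iff.mp hy).2
    omega
  have h3 := W.h2_eq hz hl hzx (fun y hy => by
    rw [(h x hzx).th, (h y hy).th, hlev x hzx, hlev y hy])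
  rw [(h x hzx).th, hlev x hzx] at h3
  have h4 := sq_le_cst (i := m) (h := h2 (2 * m) N θ) (z := z) (by omega)
    (by rw [h3]; omega) (by
      intro k hk hk2
      exact (h x hzx).two z (mem_sdiff.mp hz).1 hzx.le k (by omega) (by rw [hlev x hzx]; omega))
  rwa [hl, show 2 * m + 1 - m = m + 1 by omega] at h4

end Rows

end Pool.Agent.GaussPoset
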