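import Pool.Agent.W_448s8_h76.SaH

/-!
Joins of fold ends with full ends; the master table; the step (MP_448cb3_co, S8).
-/

namespace Pool.Agent.GaussPoset

set_option linter.unusedSectionVars false

open Polynomial Finset

universe u

variable {P : Type u} [Fintype P] [PartialOrder P] [DecidableEq P] {r m : ℕ}
  {N : Tops P → Finset P} {b : Tops P → ℕ} {θ : Tops P → P → ℕ}

/-- the sign of a join with excess `d` -/
def sgT (m d : ℕ) : ℤ := (-1) ^ (sgF m + hh m) * if m % 2 = 1 ∧ d = 1 then -1 else 1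

section Rows

variable {z x x' : P}

lemma WM.num_fv (W : WM r m N b θ) (hz : z ∈ r2 (2 * m) N) (hl : lev z = 2 * m + 1)
    (hx : FoldM m N b θ x) (hx' : FullM m N θ x') (ht : topOf x ≠ topOf x') (hzx : z ⋖ x)
    (hzx' : z ⋖ x') {n d : ℕ} (h1 : vs m (hh m) x' = NL m (hh m) + n)
    (h2 : nab m x' = 1) (h3 : nab (m + hh m) x' + d = 2) :
    Num m N θ z (hh m) (E0 m + n) d (sgF m + ∑ u ∈ range (hh m), nab (m + u) x') := by
  have hm := W.ten
  have hh2 := hh_le m
  have hlx' : lev x' = 2 * m := by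
    have := (W.gt.H.covBy_iff.mp hzx').2
    omega
  have hn : ∀ u, u ≤ m → nab (m + u) z = nab (m + u) x + nab (m + u) x' := by
    intro u hu
    exact W.nab_join hl hzx hzx' ht (by omega)
  have hne : x ≠ x' := fun h => ht (by rw [h])
  refine Num.mk' hl (by omega) ?_ ?_ ?_ ?_
  · rw [W.h2_eq hz hl hzx (fun y hy => ?_), hx.th, hh_eq]
    rcases uc_pair W.gt.H hzx hzx' hne hy with h | h
    · rw [h]
    · rw [h, hx.th, hx'.th, hlx']
      omega
  · rw [vs_add hn, hx.vs, h1]
    unfold E0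
    ring
  · have e1 := hn 0 (by omega)
    have e3 := hx.nab (u := 0) (by omega)
    rw [Nat.add_zero] at e1 e3
    rw [e1, e3, h2, hn (hh m) (by omega), hx.nab (by omega), nF_drop (by omega)]
    omega
  · unfold sgF
    rw [← Finset.sum_add_distrib]
    refine Finset.sum_congr rfl fun u hu => ?_
    rw [mem_range] at hu
    rw [hn u (by omega), hx.nab (by omega)]

/-- a fold end and a full end: normal or star -/
lemma WM.num_T (W : WM r m N b θ) (hz : z ∈ r2 (2 * m) N) (hl : lev z = 2 * m + 1)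
    (hx : FoldM m N b θ x) (hx' : FullM m N θ x') (h1 : (Win.uc x').card = 1)
    (ht : topOf x ≠ topOf x') (hzx : z ⋖ x) (hzx' : z ⋖ x') :
    (∃ d s, d ≤ 10 ∧ Num m N θ z (hh m) (E0 m + d) 1 s ∧ (-1 : ℤ) ^ s = sgT m d) ∨
      (QInf m (m + hh m) (topOf x') ∧ ∃ s, Num m N θ z (hh m) (E0 m + hh m) 0 s) := by
  have hm := W.ten
  have hh2 := hh_le m
  have hh1 := hh_pos m
  have hlx' : lev x' = 2 * m := by
    have := (W.gt.H.covBy_iff.mp hzx').2
    omega
  rcases W.vinf hlx' hx' h1 with ⟨e1, e2⟩ | ⟨a, ha, e2⟩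
  · left
    have h3 := vs_late hh2 hlx' e1
    have h4 := exs_le e2
    refine ⟨hh m * exs m x', _, ?_, W.num_fv hz hl hx hx' ht hzx hzx' h3 (e1 m (by omega))
      (by rw [e1 (m + hh m) (by omega)]), ?_⟩
    · calc hh m * exs m x' ≤ 2 * 5 := Nat.mul_le_mul hh2 h4
        _ = 10 := rfl
    · have h5 : ∑ u ∈ range (hh m), nab (m + u) x' = hh m := by
        rw [Finset.sum_congr rfl (g := fun _ => 1)]
        · simp
        · intro u hu
          rw [mem_range] at hu
          exact e1 (m + u) (by omega)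
      rw [h5]
      unfold sgT
      rw [if_neg, mul_one]
      rintro ⟨h6, h7⟩
      have h8 : hh m = 2 := by
        unfold hh
        omega
      rw [h8] at h7
      omega
  · have hq : ∀ u, u ≤ m → nab (m + u) x' = if m + u = a then 2 else 1 := by
      intro u hu
      exact W.nab_quad e2 hlx' (by omega)
    have h3 := vs_quad (k := hh m) (a := a) (by omega) (by omega) hq
    have h4 : nab m x' = 1 := by
      have := hq 0 (by omega)
      rw [if_neg (by omega)] at this
      simpa using this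
    by_cases hstar : a = m + hh m
    · right
      subst hstar
      have h5 : nab (m + hh m) x' + 0 = 2 := by
        rw [hq (hh m) (by omega), if_pos rfl]
      have h6 := W.num_fv hz hl hx hx' ht hzx hzx' h3 h4 h5
      rw [show min (hh m) (m + hh m - m) = hh m by omega] at h6
      exact ⟨e2, _, h6⟩
    · left
      have h5 : nab (m + hh m) x' + 1 = 2 := by
        rw [hq (hh m) (by omega), if_neg (by omega)]
      refine ⟨_, _, ?_, W.num_fv hz hl hx hx' ht hzx hzx' h3 h4 h5, ?_⟩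
      · omega
      · rcases Nat.mod_two_eq_zero_or_one m with hp | hp
        · have h8 : hh m = 1 := by
            unfold hh
            omega
          rw [h8, Finset.sum_range_one, Nat.add_zero, h4]
          unfold sgT
          rw [if_neg (by omega), mul_one, h8]
        · have h8 : hh m = 2 := by
            unfold hh
            omega
          have h9 : a = m + 1 := by omega
          subst h9
          have h10 := hq 1 (by omega)
          rw [if_pos rfl] at h10
          rw [h8, Finset.sum_range_succ, Finset.sum_range_one, Nat.add_zero, h4, h10]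
          unfold sgT
          rw [if_pos ⟨hp, by omega⟩, h8, show sgF m + (1 + 2) = (sgF m + 2) + 1 by ring, pow_succ]

end Rows

/-- the master table -/
inductive RowM (m : ℕ) (N : Tops P → Finset P) (b : Tops P → ℕ) (θ : Tops P → P → ℕ) (z : P) :
    Prop
  | high (h : Kb m - 1 ≤ cst m (h2 (2 * m) N θ) z)
  | penQ (x : P) (hx : QdM m N θ x) (hp : Pend z x) (hn : Num m N θ z 1 (m + 1) 1 2)
  | penF (x : P) (hx : FoldM m N b θ x) (hp : Pend z x)
      (hn : Num m N θ z (hh m) (NF m (hh m) + hh m) 1 (sgF m))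
  | fq (x x' : P) (hx : FoldM m N b θ x) (hx' : QdM m N θ x') (ht : topOf x ≠ topOf x')
      (hzx : z ⋖ x) (hzx' : z ⋖ x') (hn : Num m N θ z 1 (NF m 1 + m + 1) (2 - m % 2) (nF m 0 + 2))
  | ff (x x' : P) (hx : FoldM m N b θ x) (hx' : FoldM m N b θ x') (ht : topOf x ≠ topOf x')
      (hzx : z ⋖ x) (hzx' : z ⋖ x')
      (hn : Num m N θ z (hh m) (2 * NF m (hh m) + hh m) 2 (2 * sgF m))
  | cc (x x' : P) (Nc : Finset P) (co : P → ℕ × ℕ) (hx : InSM m N b θ x Nc co)
      (hcx : co x = (m, m)) (hx' : x' ∈ Nc) (hcx' : co x' = (0, 2 * m)) (hzx : z ⋖ x)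
      (hzx' : z ⋖ x') (s : ℕ) (hn : Num m N θ z (hh m) (E0 m) 0 s)
  | norm (x x' : P) (hx : FoldM m N b θ x) (hx' : FullM m N θ x') (h1 : (Win.uc x').card = 1)
      (ht : topOf x ≠ topOf x') (hzx : z ⋖ x) (hzx' : z ⋖ x') (d s : ℕ) (hd : d ≤ 10)
      (hn : Num m N θ z (hh m) (E0 m + d) 1 s) (hs : (-1 : ℤ) ^ s = sgT m d)
  | star (x x' : P) (hx : FoldM m N b θ x) (hx' : FullM m N θ x') (h1 : (Win.uc x').card = 1)
      (ht : topOf x ≠ topOf x') (hzx : z ⋖ x) (hzx' : z ⋖ x') (hq : QInf m (m + hh m) (topOf x'))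
      (s : ℕ) (hn : Num m N θ z (hh m) (E0 m + hh m) 0 s)

lemma bd_mem {R : Finset P} {z : P} (hz : z ∈ bdR R) : z ∈ R := by
  classical
  exact (mem_filter.mp hz).1

theorem WM.rows (W : WM r m N b θ) (S7 : S7M m N b θ) {z : P} (hz : z ∈ bdR (r2 (2 * m) N)) :
    Kb m ≤ cst m (h2 (2 * m) N θ) z ∨ (lev z = 2 * m + 1 ∧ RowM m N b θ z) := by
  have hm := W.ten
  rcases W.bd hz with hl | h
  · right
    have hzR := bd_mem hz
    refine ⟨hl, ?_⟩
    rcases W.class S7 hzR hl with ⟨x, hx, hp⟩ | ⟨x, hx, hp⟩ | ⟨x, x', hx, hx', ht, hzx, hzx'⟩ |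
      ⟨x, x', hx, hx', ht, hzx, hzx'⟩ | ⟨x, x', hx, hx', h1, ht, hzx, hzx'⟩ |
      ⟨x, x', Nc, co, hx, hcx, hx', hcx', hzx, hzx'⟩ | h
    · exact RowM.penF x hx hp (W.num_penF hzR hl hx hp)
    · exact RowM.penQ x hx hp (W.num_penQ hzR hl hx hp)
    · exact RowM.fq x x' hx hx' ht hzx hzx' (W.num_fq hzR hl hx hx' ht hzx hzx')
    · exact RowM.ff x x' hx hx' ht hzx hzx' (W.num_ff hzR hl hx hx' ht hzx hzx')
    · rcases W.num_T hzR hl hx hx' h1 ht hzx hzx' with ⟨d, s, hd, hn, hs⟩ | ⟨hq, s, hn⟩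
      · exact RowM.norm x x' hx hx' h1 ht hzx hzx' d s hd hn hs
      · exact RowM.star x x' hx hx' h1 ht hzx hzx' hq s hn
    · obtain ⟨s, hn⟩ := W.num_cc hzR hl hx hcx hx' hcx' hzx hzx'
      exact RowM.cc x x' Nc co hx hcx hx' hcx' hzx hzx' s hn
    · refine RowM.high ?_
      have h2 := W.cst_full hzR hl h
      have h3 := Kb_le_sq m (by omega)
      have h4 : (m + 1) ^ 2 = (m + 1) * (m + 1) := pow_two _
      refine le_trans ?_ h2
      rw [h4]
      have h5 : Kb m - 1 ≤ (m + 1) * (m + 1) := by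
        obtain ⟨q, hq | hq⟩ := Nat.even_or_odd' m
        · rw [hq, Kb_even]
          have : 2 * q * q + 2 * q + 3 - 1 = 2 * q * q + 2 * q + 2 := by omega
          rw [this]
          nlinarith
        · rw [hq, Kb_odd]
          have : 2 * q * q + 9 * q + 8 - 1 = 2 * q * q + 9 * q + 7 := by omega
          rw [this]
          nlinarith
      exact h5
  · exact Or.inl h

/-- the step: all terms of maximal drop have the same sign, so there are none -/
theorem WM.kill (W : WM r m N b θ) {n : ℕ} (hn : n < Kb m - 1)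
    (hcost : ∀ z ∈ bdR (r2 (2 * m) N), n ≤ cst m (h2 (2 * m) N θ) z) (σ : ℤ) (hσ : σ ≠ 0) (δ : ℕ)
    (hδ : 1 ≤ δ)
    (h1 : ∀ z ∈ bdR (r2 (2 * m) N), cst m (h2 (2 * m) N θ) z = n →
      nab m z ≤ nab (m + h2 (2 * m) N θ z) z + δ)
    (h3 : ∀ z ∈ bdR (r2 (2 * m) N), cst m (h2 (2 * m) N θ) z = n →
      nab m z = nab (m + h2 (2 * m) N θ z) z + δ → (-1 : ℤ) ^ nst m (h2 (2 * m) N θ) z = σ) :
    ∀ z ∈ bdR (r2 (2 * m) N), cst m (h2 (2 * m) N θ) z = n →
      nab m z ≠ nab (m + h2 (2 * m) N θ z) z + δ := by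
  classical
  intro z0 hz0 hc0 hd0
  have F := W.farT
  have hd := F.dvd_lead hn hcost
  have hZ := dvd_Z W.gt.H.gauss m n
  set T := (bdR (r2 (2 * m) N)).filter (fun z => cst m (h2 (2 * m) N θ) z = n) with hT
  have hb : δ ≤ (lv P m).card := by
    have h5 : nab m z0 ≤ (lv P m).card := by
      unfold nab
      exact Finset.card_filter_le _ _
    omega
  have hs := sign_sum_of_dvd T hZ hd (c0 := (lv P m).card - δ) (by omega) (by
    intro y hy
    rw [hT, mem_filter] at hy
    have h4 := h1 y hy.1 hy.2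
    omega)
  set T' := T.filter (fun y => (lv P m).card - δ + nab m y =
    (lv P m).card + nab (m + h2 (2 * m) N θ y) y) with hT'
  have hz0T : z0 ∈ T' := by
    rw [hT', mem_filter, hT, mem_filter]
    exact ⟨⟨hz0, hc0⟩, by omega⟩
  rw [Finset.sum_congr rfl (g := fun _ => σ)] at hs
  · rw [Finset.sum_const, nsmul_eq_mul] at hs
    rcases mul_eq_zero.mp hs with h4 | h4
    · have h5 : T'.card = 0 := by exact_mod_cast h4
      rw [Finset.card_eq_zero] at h5
      rw [h5] at hz0T
      exact absurd hz0T (Finset.notMem_empty _)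
    · exact hσ h4
  · intro y hy
    rw [hT', mem_filter, hT, mem_filter] at hy
    exact h3 y hy.1.1 hy.1.2 (by omega)

end Pool.Agent.GaussPoset
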