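import Pool.Agent.W_448s8_h76.SaI

/-!
The first steps: pendants, quadric ends, joins without excess (MP_448cb3_co, S8).
-/

namespace Pool.Agent.GaussPoset

set_option linter.unusedSectionVars false

open Polynomial Finset

universe u

variable {P : Type u} [Fintype P] [PartialOrder P] [DecidableEq P] {r m : ℕ}
  {N : Tops P → Finset P} {b : Tops P → ℕ} {θ : Tops P → P → ℕ}

/-- the order of the energies -/
structure NumI (m : ℕ) : Prop where
  i1 : m + 1 < NF m (hh m) + hh m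
  i2 : 1 ≤ NF m 1
  i3 : NF m (hh m) + hh m < E0 m
  i4 : E0 m + m + 1 < Kb m - 1
  i5 : E0 m + m + 1 < 2 * NF m (hh m) + hh m
  i6 : m % 2 = 0 → NF m 1 + m + 1 = E0 m
  i7 : m % 2 = 1 → NF m 1 + m + 1 < NF m (hh m) + hh m
  i8 : m % 2 = 0 → 2 * NF m (hh m) + hh m < Kb m - 1

lemma numI {m : ℕ} (hm : 10 ≤ m) : NumI m := by
  have h4 := E0_lt m (by omega)
  obtain ⟨q, hq | hq⟩ := Nat.even_or_odd' m
  · have hq5 : 5 ≤ q := by omega
    subst hq
    refine ⟨?_, ?_, ?_, h4, ?_, ?_, ?_, ?_⟩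
    · rw [hh_even, NF_even]; nlinarith
    · rw [NF_even]; nlinarith
    · rw [hh_even, NF_even, E0_even]; nlinarith
    · rw [hh_even, NF_even, E0_even]; nlinarith
    · intro _
      rw [NF_even, E0_even]; ring
    · intro h; omega
    · intro _
      rw [hh_even]
      exact EFF_even q
  · have hq5 : 5 ≤ q := by omega
    subst hq
    refine ⟨?_, ?_, ?_, h4, ?_, ?_, ?_, ?_⟩
    · rw [hh_odd, NF_odd]; nlinarith
    · rw [NF_odd1]; nlinarith
    · rw [hh_odd, NF_odd, E0_odd]; nlinarith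
    · rw [hh_odd, NF_odd, E0_odd]; nlinarith
    · intro h; omega
    · intro _
      rw [hh_odd, NF_odd, NF_odd1]; nlinarith
    · intro h; omega

/-- the table after the first steps -/
inductive Row2 (m : ℕ) (N : Tops P → Finset P) (b : Tops P → ℕ) (θ : Tops P → P → ℕ) (z : P) :
    Prop
  | high (h : Kb m - 1 ≤ cst m (h2 (2 * m) N θ) z)
  | ff (x x' : P) (hl : lev z = 2 * m + 1) (hx : FoldM m N b θ x) (hx' : FoldM m N b θ x')
      (ht : topOf x ≠ topOf x') (hzx : z ⋖ x) (hzx' : z ⋖ x')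
      (hn : Num m N θ z (hh m) (2 * NF m (hh m) + hh m) 2 (2 * sgF m))
  | cc (x x' : P) (Nc : Finset P) (co : P → ℕ × ℕ) (hl : lev z = 2 * m + 1)
      (hx : InSM m N b θ x Nc co) (hcx : co x = (m, m)) (hx' : x' ∈ Nc) (hcx' : co x' = (0, 2 * m))
      (hzx : z ⋖ x) (hzx' : z ⋖ x') (s : ℕ) (hn : Num m N θ z (hh m) (E0 m) 0 s)
  | norm (x x' : P) (hl : lev z = 2 * m + 1) (hx : FoldM m N b θ x) (hx' : FullM m N θ x')
      (h1 : (Win.uc x').card = 1) (ht : topOf x ≠ topOf x') (hzx : z ⋖ x) (hzx' : z ⋖ x')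
      (d s : ℕ) (hd0 : 1 ≤ d) (hd : d ≤ 10) (hn : Num m N θ z (hh m) (E0 m + d) 1 s)
      (hs : (-1 : ℤ) ^ s = sgT m d)
  | star (x x' : P) (hl : lev z = 2 * m + 1) (hx : FoldM m N b θ x) (hx' : FullM m N θ x')
      (h1 : (Win.uc x').card = 1) (ht : topOf x ≠ topOf x') (hzx : z ⋖ x) (hzx' : z ⋖ x')
      (hq : QInf m (m + hh m) (topOf x')) (s : ℕ) (hn : Num m N θ z (hh m) (E0 m + hh m) 0 s)

lemma sgT_ne (m d : ℕ) : sgT m d ≠ 0 := by
  unfold sgT
  refine mul_ne_zero (pow_ne_zero _ (by norm_num)) ?_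
  split_ifs <;> norm_num

section Steps

/-- no pendants below the end of a complete quadric -/
theorem WM.no_penQ (W : WM r m N b θ) (S7 : S7M m N b θ) {z : P} (hz : z ∈ bdR (r2 (2 * m) N))
    {x : P} (hl : lev z = 2 * m + 1) (hx : QdM m N θ x) (hp : Pend z x) : False := by
  have I := numI W.ten
  have i1 := I.i1
  have i2 := I.i2
  have i3 := I.i3
  have i4 := I.i4
  have key := W.kill (n := m + 1) (by omega) (fun y hy => ?_) 1 one_ne_zero 1 le_rfl
    (fun y hy hc => ?_) (fun y hy hc hd => ?_) z hz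
  · have hn := W.num_penQ (bd_mem hz) hl hx hp
    refine key hn.cst ?_
    rw [hn.lab]
    exact hn.drop
  · rcases W.rows S7 hy with h | ⟨-, h⟩
    · omega
    · rcases h with h | ⟨x, hx, hp, hn⟩ | ⟨x, hx, hp, hn⟩ | ⟨x, x', hx, hx', ht, hzx, hzx', hn⟩ |
        ⟨x, x', hx, hx', ht, hzx, hzx', hn⟩ | ⟨x, x', Nc, co, hx, hcx, hx', hcx', hzx, hzx', s, hn⟩ |
        ⟨x, x', hx, hx', h1, ht, hzx, hzx', d, s, hd, hn, hs⟩ |
        ⟨x, x', hx, hx', h1, ht, hzx, hzx', hq, s, hn⟩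
      · omega
      all_goals
        have := hn.cst
        omega
  · rcases W.rows S7 hy with h | ⟨-, h⟩
    · omega
    · rcases h with h | ⟨x, hx, hp, hn⟩ | ⟨x, hx, hp, hn⟩ | ⟨x, x', hx, hx', ht, hzx, hzx', hn⟩ |
        ⟨x, x', hx, hx', ht, hzx, hzx', hn⟩ | ⟨x, x', Nc, co, hx, hcx, hx', hcx', hzx, hzx', s, hn⟩ |
        ⟨x, x', hx, hx', h1, ht, hzx, hzx', d, s, hd, hn, hs⟩ |
        ⟨x, x', hx, hx', h1, ht, hzx, hzx', hq, s, hn⟩
      · omega
      · rw [hn.lab]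
        exact hn.drop.le
      all_goals
        have := hn.cst
        omega
  · rcases W.rows S7 hy with h | ⟨-, h⟩
    · omega
    · rcases h with h | ⟨x, hx, hp, hn⟩ | ⟨x, hx, hp, hn⟩ | ⟨x, x', hx, hx', ht, hzx, hzx', hn⟩ |
        ⟨x, x', hx, hx', ht, hzx, hzx', hn⟩ | ⟨x, x', Nc, co, hx, hcx, hx', hcx', hzx, hzx', s, hn⟩ |
        ⟨x, x', hx, hx', h1, ht, hzx, hzx', d, s, hd, hn, hs⟩ |
        ⟨x, x', hx, hx', h1, ht, hzx, hzx', hq, s, hn⟩
      · omega
      · rw [hn.nst]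
        norm_num
      all_goals
        have := hn.cst
        omega

/-- `m` odd: no joins of a fold end with the end of a complete quadric -/
theorem WM.no_fq_odd (W : WM r m N b θ) (S7 : S7M m N b θ) (hodd : m % 2 = 1) {z : P}
    (hz : z ∈ bdR (r2 (2 * m) N)) {x x' : P} (hl : lev z = 2 * m + 1) (hx : FoldM m N b θ x)
    (hx' : QdM m N θ x') (ht : topOf x ≠ topOf x') (hzx : z ⋖ x) (hzx' : z ⋖ x') : False := by
  have I := numI W.ten
  have i1 := I.i1
  have i2 := I.i2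
  have i3 := I.i3
  have i4 := I.i4
  have i5 := I.i5
  have i7 := I.i7 hodd
  have key := W.kill (n := NF m 1 + m + 1) (by omega) (fun y hy => ?_) ((-1) ^ (nF m 0 + 2))
    (pow_ne_zero _ (by norm_num)) 1 le_rfl (fun y hy hc => ?_) (fun y hy hc hd => ?_) z hz
  · have hn := W.num_fq (bd_mem hz) hl hx hx' ht hzx hzx'
    refine key hn.cst ?_
    have h1 := hn.drop
    rw [hodd] at h1
    rw [hn.lab]
    exact h1
  · rcases W.rows S7 hy with h | ⟨hl, h⟩
    · omega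
    · rcases h with h | ⟨x, hx, hp, hn⟩ | ⟨x, hx, hp, hn⟩ | ⟨x, x', hx, hx', ht, hzx, hzx', hn⟩ |
        ⟨x, x', hx, hx', ht, hzx, hzx', hn⟩ | ⟨x, x', Nc, co, hx, hcx, hx', hcx', hzx, hzx', s, hn⟩ |
        ⟨x, x', hx, hx', h1, ht, hzx, hzx', d, s, hd, hn, hs⟩ |
        ⟨x, x', hx, hx', h1, ht, hzx, hzx', hq, s, hn⟩
      · omega
      · exact (W.no_penQ S7 hy hl hx hp).elim
      all_goals
        have := hn.cst
        omega
  · rcases W.rows S7 hy with h | ⟨hl, h⟩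
    · omega
    · rcases h with h | ⟨x, hx, hp, hn⟩ | ⟨x, hx, hp, hn⟩ | ⟨x, x', hx, hx', ht, hzx, hzx', hn⟩ |
        ⟨x, x', hx, hx', ht, hzx, hzx', hn⟩ | ⟨x, x', Nc, co, hx, hcx, hx', hcx', hzx, hzx', s, hn⟩ |
        ⟨x, x', hx, hx', h1, ht, hzx, hzx', d, s, hd, hn, hs⟩ |
        ⟨x, x', hx, hx', h1, ht, hzx, hzx', hq, s, hn⟩
      · omega
      · exact (W.no_penQ S7 hy hl hx hp).elim
      · have := hn.cst
        omega
      · have h1 := hn.drop
        rw [hodd] at h1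
        rw [hn.lab]
        exact h1.le
      all_goals
        have := hn.cst
        omega
  · rcases W.rows S7 hy with h | ⟨hl, h⟩
    · omega
    · rcases h with h | ⟨x, hx, hp, hn⟩ | ⟨x, hx, hp, hn⟩ | ⟨x, x', hx, hx', ht, hzx, hzx', hn⟩ |
        ⟨x, x', hx, hx', ht, hzx, hzx', hn⟩ | ⟨x, x', Nc, co, hx, hcx, hx', hcx', hzx, hzx', s, hn⟩ |
        ⟨x, x', hx, hx', h1, ht, hzx, hzx', d, s, hd, hn, hs⟩ |
        ⟨x, x', hx, hx', h1, ht, hzx, hzx', hq, s, hn⟩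
      · omega
      · exact (W.no_penQ S7 hy hl hx hp).elim
      · have := hn.cst
        omega
      · rw [hn.nst]
      all_goals
        have := hn.cst
        omega

/-- no pendants below a fold end -/
theorem WM.no_penF (W : WM r m N b θ) (S7 : S7M m N b θ) {z : P} (hz : z ∈ bdR (r2 (2 * m) N))
    {x : P} (hl : lev z = 2 * m + 1) (hx : FoldM m N b θ x) (hp : Pend z x) : False := by
  have I := numI W.ten
  have i1 := I.i1
  have i2 := I.i2
  have i3 := I.i3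
  have i4 := I.i4
  have i5 := I.i5
  have hfq : ∀ y ∈ bdR (r2 (2 * m) N), lev y = 2 * m + 1 → ∀ x x', FoldM m N b θ x →
      QdM m N θ x' → topOf x ≠ topOf x' → y ⋖ x → y ⋖ x' →
      cst m (h2 (2 * m) N θ) y = NF m 1 + m + 1 → NF m (hh m) + hh m < NF m 1 + m + 1 := by
    intro y hy hl x x' hx hx' ht hzx hzx' _
    rcases Nat.mod_two_eq_zero_or_one m with h | h
    · rw [I.i6 h]
      exact i3
    · exact (W.no_fq_odd S7 h hy hl hx hx' ht hzx hzx').elim
  have key := W.kill (n := NF m (hh m) + hh m) (by omega) (fun y hy => ?_) ((-1) ^ (sgF m))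
    (pow_ne_zero _ (by norm_num)) 1 le_rfl (fun y hy hc => ?_) (fun y hy hc hd => ?_) z hz
  · have hn := W.num_penF (bd_mem hz) hl hx hp
    refine key hn.cst ?_
    rw [hn.lab]
    exact hn.drop
  · rcases W.rows S7 hy with h | ⟨hl, h⟩
    · omega
    · rcases h with h | ⟨x, hx, hp, hn⟩ | ⟨x, hx, hp, hn⟩ | ⟨x, x', hx, hx', ht, hzx, hzx', hn⟩ |
        ⟨x, x', hx, hx', ht, hzx, hzx', hn⟩ | ⟨x, x', Nc, co, hx, hcx, hx', hcx', hzx, hzx', s, hn⟩ |
        ⟨x, x', hx, hx', h1, ht, hzx, hzx', d, s, hd, hn, hs⟩ |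
        ⟨x, x', hx, hx', h1, ht, hzx, hzx', hq, s, hn⟩
      · omega
      · exact (W.no_penQ S7 hy hl hx hp).elim
      · exact hn.cst.ge
      · have h2 := hfq y hy hl x x' hx hx' ht hzx hzx' hn.cst
        rw [hn.cst]
        omega
      all_goals
        have := hn.cst
        omega
  · rcases W.rows S7 hy with h | ⟨hl, h⟩
    · omega
    · rcases h with h | ⟨x, hx, hp, hn⟩ | ⟨x, hx, hp, hn⟩ | ⟨x, x', hx, hx', ht, hzx, hzx', hn⟩ |
        ⟨x, x', hx, hx', ht, hzx, hzx', hn⟩ | ⟨x, x', Nc, co, hx, hcx, hx', hcx', hzx, hzx', s, hn⟩ |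
        ⟨x, x', hx, hx', h1, ht, hzx, hzx', d, s, hd, hn, hs⟩ |
        ⟨x, x', hx, hx', h1, ht, hzx, hzx', hq, s, hn⟩
      · omega
      · exact (W.no_penQ S7 hy hl hx hp).elim
      · rw [hn.lab]
        exact hn.drop.le
      · have h2 := hfq y hy hl x x' hx hx' ht hzx hzx' hn.cst
        have h3 := hn.cst
        omega
      all_goals
        have := hn.cst
        omega
  · rcases W.rows S7 hy with h | ⟨hl, h⟩
    · omega
    · rcases h with h | ⟨x, hx, hp, hn⟩ | ⟨x, hx, hp, hn⟩ | ⟨x, x', hx, hx', ht, hzx, hzx', hn⟩ |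
        ⟨x, x', hx, hx', ht, hzx, hzx', hn⟩ | ⟨x, x', Nc, co, hx, hcx, hx', hcx', hzx, hzx', s, hn⟩ |
        ⟨x, x', hx, hx', h1, ht, hzx, hzx', d, s, hd, hn, hs⟩ |
        ⟨x, x', hx, hx', h1, ht, hzx, hzx', hq, s, hn⟩
      · omega
      · exact (W.no_penQ S7 hy hl hx hp).elim
      · rw [hn.nst]
      · have h2 := hfq y hy hl x x' hx hx' ht hzx hzx' hn.cst
        have h3 := hn.cst
        omega
      all_goals
        have := hn.cst
        omega

/-- no joins of a fold end with the end of a complete quadric -/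
theorem WM.no_fq (W : WM r m N b θ) (S7 : S7M m N b θ) {z : P}
    (hz : z ∈ bdR (r2 (2 * m) N)) {x x' : P} (hl : lev z = 2 * m + 1) (hx : FoldM m N b θ x)
    (hx' : QdM m N θ x') (ht : topOf x ≠ topOf x') (hzx : z ⋖ x) (hzx' : z ⋖ x') : False := by
  rcases Nat.mod_two_eq_zero_or_one m with hev | hodd
  swap
  · exact W.no_fq_odd S7 hodd hz hl hx hx' ht hzx hzx'
  have I := numI W.ten
  have i1 := I.i1
  have i2 := I.i2
  have i3 := I.i3
  have i4 := I.i4
  have i5 := I.i5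
  have i6 := I.i6 hev
  have key := W.kill (n := NF m 1 + m + 1) (by omega) (fun y hy => ?_) ((-1) ^ (nF m 0 + 2))
    (pow_ne_zero _ (by norm_num)) 2 (by norm_num) (fun y hy hc => ?_) (fun y hy hc hd => ?_) z hz
  · have hn := W.num_fq (bd_mem hz) hl hx hx' ht hzx hzx'
    refine key hn.cst ?_
    have h1 := hn.drop
    rw [hev] at h1
    rw [hn.lab]
    exact h1
  · rcases W.rows S7 hy with h | ⟨hl, h⟩
    · omega
    · rcases h with h | ⟨x, hx, hp, hn⟩ | ⟨x, hx, hp, hn⟩ | ⟨x, x', hx, hx', ht, hzx, hzx', hn⟩ |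
        ⟨x, x', hx, hx', ht, hzx, hzx', hn⟩ | ⟨x, x', Nc, co, hx, hcx, hx', hcx', hzx, hzx', s, hn⟩ |
        ⟨x, x', hx, hx', h1, ht, hzx, hzx', d, s, hd, hn, hs⟩ |
        ⟨x, x', hx, hx', h1, ht, hzx, hzx', hq, s, hn⟩
      · omega
      · exact (W.no_penQ S7 hy hl hx hp).elim
      · exact (W.no_penF S7 hy hl hx hp).elim
      all_goals
        have := hn.cst
        omega
  · rcases W.rows S7 hy with h | ⟨hl, h⟩
    · omega
    · rcases h with h | ⟨x, hx, hp, hn⟩ | ⟨x, hx, hp, hn⟩ | ⟨x, x', hx, hx', ht, hzx, hzx', hn⟩ |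
        ⟨x, x', hx, hx', ht, hzx, hzx', hn⟩ | ⟨x, x', Nc, co, hx, hcx, hx', hcx', hzx, hzx', s, hn⟩ |
        ⟨x, x', hx, hx', h1, ht, hzx, hzx', d, s, hd, hn, hs⟩ |
        ⟨x, x', hx, hx', h1, ht, hzx, hzx', hq, s, hn⟩
      · omega
      · exact (W.no_penQ S7 hy hl hx hp).elim
      · exact (W.no_penF S7 hy hl hx hp).elim
      all_goals
        have h1 := hn.drop
        rw [hn.lab]
        omega
  · rcases W.rows S7 hy with h | ⟨hl, h⟩
    · omega
    · rcases h with h | ⟨x, hx, hp, hn⟩ | ⟨x, hx, hp, hn⟩ | ⟨x, x', hx, hx', ht, hzx, hzx', hn⟩ |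
        ⟨x, x', hx, hx', ht, hzx, hzx', hn⟩ | ⟨x, x', Nc, co, hx, hcx, hx', hcx', hzx, hzx', s, hn⟩ |
        ⟨x, x', hx, hx', h1, ht, hzx, hzx', d, s, hd', hn, hs⟩ |
        ⟨x, x', hx, hx', h1, ht, hzx, hzx', hq, s, hn⟩
      · omega
      · exact (W.no_penQ S7 hy hl hx hp).elim
      · exact (W.no_penF S7 hy hl hx hp).elim
      · rw [hn.nst]
      · have := hn.cst
        omega
      all_goals
        have h1 := hn.drop
        rw [hn.lab] at hd
        omega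

/-- no joins without excess -/
theorem WM.no_T0 (W : WM r m N b θ) (S7 : S7M m N b θ) {z : P}
    (hz : z ∈ bdR (r2 (2 * m) N)) {s : ℕ} (hn : Num m N θ z (hh m) (E0 m) 1 s) : False := by
  have I := numI W.ten
  have i1 := I.i1
  have i2 := I.i2
  have i3 := I.i3
  have i4 := I.i4
  have i5 := I.i5
  have hh1 := hh_pos m
  have key := W.kill (n := E0 m) (by omega) (fun y hy => ?_) (sgT m 0)
    (sgT_ne m 0) 1 le_rfl (fun y hy hc => ?_) (fun y hy hc hd => ?_) z hz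
  · refine key hn.cst ?_
    rw [hn.lab]
    exact hn.drop
  · rcases W.rows S7 hy with h | ⟨hl, h⟩
    · omega
    · rcases h with h | ⟨x, hx, hp, hn⟩ | ⟨x, hx, hp, hn⟩ | ⟨x, x', hx, hx', ht, hzx, hzx', hn⟩ |
        ⟨x, x', hx, hx', ht, hzx, hzx', hn⟩ | ⟨x, x', Nc, co, hx, hcx, hx', hcx', hzx, hzx', s, hn⟩ |
        ⟨x, x', hx, hx', h1, ht, hzx, hzx', d, s, hd, hn, hs⟩ |
        ⟨x, x', hx, hx', h1, ht, hzx, hzx', hq, s, hn⟩
      · omega
      · exact (W.no_penQ S7 hy hl hx hp).elim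
      · exact (W.no_penF S7 hy hl hx hp).elim
      · exact (W.no_fq S7 hy hl hx hx' ht hzx hzx').elim
      all_goals
        have := hn.cst
        omega
  · rcases W.rows S7 hy with h | ⟨hl, h⟩
    · omega
    · rcases h with h | ⟨x, hx, hp, hn⟩ | ⟨x, hx, hp, hn⟩ | ⟨x, x', hx, hx', ht, hzx, hzx', hn⟩ |
        ⟨x, x', hx, hx', ht, hzx, hzx', hn⟩ | ⟨x, x', Nc, co, hx, hcx, hx', hcx', hzx, hzx', s, hn⟩ |
        ⟨x, x', hx, hx', h1, ht, hzx, hzx', d, s, hd, hn, hs⟩ |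
        ⟨x, x', hx, hx', h1, ht, hzx, hzx', hq, s, hn⟩
      · omega
      · exact (W.no_penQ S7 hy hl hx hp).elim
      · exact (W.no_penF S7 hy hl hx hp).elim
      · exact (W.no_fq S7 hy hl hx hx' ht hzx hzx').elim
      · have := hn.cst
        omega
      all_goals
        have h1 := hn.drop
        rw [hn.lab]
        omega
  · rcases W.rows S7 hy with h | ⟨hl, h⟩
    · omega
    · rcases h with h | ⟨x, hx, hp, hn⟩ | ⟨x, hx, hp, hn⟩ | ⟨x, x', hx, hx', ht, hzx, hzx', hn⟩ |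
        ⟨x, x', hx, hx', ht, hzx, hzx', hn⟩ | ⟨x, x', Nc, co, hx, hcx, hx', hcx', hzx, hzx', s, hn⟩ |
        ⟨x, x', hx, hx', h1, ht, hzx, hzx', d, s, hd', hn, hs⟩ |
        ⟨x, x', hx, hx', h1, ht, hzx, hzx', hq, s, hn⟩
      · omega
      · exact (W.no_penQ S7 hy hl hx hp).elim
      · exact (W.no_penF S7 hy hl hx hp).elim
      · exact (W.no_fq S7 hy hl hx hx' ht hzx hzx').elim
      · have := hn.cst
        omega
      · have h1 := hn.drop
        rw [hn.lab] at hd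
        omega
      · have h1 := hn.cst
        have h2 : d = 0 := by omega
        rw [hn.nst, hs, h2]
      · have := hn.cst
        omega

/-- the table after the first steps -/
theorem WM.rows2 (W : WM r m N b θ) (S7 : S7M m N b θ) {z : P} (hz : z ∈ bdR (r2 (2 * m) N)) :
    Row2 m N b θ z := by
  rcases W.rows S7 hz with h | ⟨hl, h⟩
  · exact Row2.high (by omega)
  · rcases h with h | ⟨x, hx, hp, hn⟩ | ⟨x, hx, hp, hn⟩ | ⟨x, x', hx, hx', ht, hzx, hzx', hn⟩ |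
      ⟨x, x', hx, hx', ht, hzx, hzx', hn⟩ | ⟨x, x', Nc, co, hx, hcx, hx', hcx', hzx, hzx', s, hn⟩ |
      ⟨x, x', hx, hx', h1, ht, hzx, hzx', d, s, hd, hn, hs⟩ |
      ⟨x, x', hx, hx', h1, ht, hzx, hzx', hq, s, hn⟩
    · exact Row2.high h
    · exact (W.no_penQ S7 hz hl hx hp).elim
    · exact (W.no_penF S7 hz hl hx hp).elim
    · exact (W.no_fq S7 hz hl hx hx' ht hzx hzx').elim
    · exact Row2.ff x x' hl hx hx' ht hzx hzx' hn
    · exact Row2.cc x x' Nc co hl hx hcx hx' hcx' hzx hzx' s hn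
    · rcases Nat.eq_zero_or_pos d with h0 | h0
      · subst h0
        exact (W.no_T0 S7 hz hn).elim
      · exact Row2.norm x x' hl hx hx' h1 ht hzx hzx' d s h0 hd hn hs
    · exact Row2.star x x' hl hx hx' h1 ht hzx hzx' hq s hn

end Steps

end Pool.Agent.GaussPoset
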