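import Pool.Agent.W_448tw_h76.TwF
import Pool.Agent.W_448tw_h76.TwD

/-!
Families of blockers (MP_448cb3_co, S8).
-/

namespace Pool.Agent.GaussPoset

set_option linter.unusedSectionVars false

open Polynomial Finset

universe u

variable {P : Type u} [Fintype P] [PartialOrder P] [DecidableEq P]

open Classical in
/-- the window sum over the configurations in which an element of `A` is dangerous -/
noncomputable def ZF (i : ℕ) (h : P → ℕ) (A : Finset P) (n : ℕ) : ℤ[X] :=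
  ∑ F : Finset P, ∑ _e ∈ ((univ : Finset P).piAntidiag n).filter
    (fun e => Vd i e F ∧ ∃ z ∈ A, Dgz h e F z), (X : ℤ[X]) ^ F.card

lemma ZF_singleton {i : ℕ} {h : P → ℕ} {z : P} (hz : i < lev z) (n : ℕ) :
    ZF i h {z} n = ZD i z (h z) n := by
  classical
  rw [ZD_eq hz]
  unfold ZF
  refine Finset.sum_congr rfl fun F _ => Finset.sum_congr ?_ (fun _ _ => rfl)
  refine Finset.filter_congr fun e _ => ?_
  unfold Dgz
  simp

open Classical in
/-- both elements dangerous -/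
noncomputable def ZP (i : ℕ) (h : P → ℕ) (z z' : P) (n : ℕ) : ℤ[X] :=
  ∑ F : Finset P, ∑ _e ∈ ((univ : Finset P).piAntidiag n).filter
    (fun e => Vd i e F ∧ Dgz h e F z ∧ Dgz h e F z'), (X : ℤ[X]) ^ F.card

/-- inclusion-exclusion for two elements -/
lemma ZF_pair {i : ℕ} {h : P → ℕ} {z z' : P} (hz : i < lev z) (hz' : i < lev z') (n : ℕ) :
    ZF i h {z, z'} n + ZP i h z z' n = ZD i z (h z) n + ZD i z' (h z') n := by
  classical
  rw [ZD_eq hz, ZD_eq hz']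
  unfold ZF ZP
  rw [← Finset.sum_add_distrib, ← Finset.sum_add_distrib]
  refine Finset.sum_congr rfl fun F _ => ?_
  have h1 : ((univ : Finset P).piAntidiag n).filter
      (fun e => Vd i e F ∧ ∃ w ∈ ({z, z'} : Finset P), Dgz h e F w) =
      (((univ : Finset P).piAntidiag n).filter (fun e => Vd i e F ∧ (z ∈ F ∨ h z ≤ e z))) ∪
      (((univ : Finset P).piAntidiag n).filter (fun e => Vd i e F ∧ (z' ∈ F ∨ h z' ≤ e z'))) := by
    ext e
    rw [mem_union, mem_filter, mem_filter, mem_filter]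
    unfold Dgz
    constructor
    · rintro ⟨h2, h3, w, hw, h4⟩
      rw [mem_insert, mem_singleton] at hw
      rcases hw with rfl | rfl
      · exact Or.inl ⟨h2, h3, h4⟩
      · exact Or.inr ⟨h2, h3, h4⟩
    · rintro (⟨h2, h3, h4⟩ | ⟨h2, h3, h4⟩)
      · exact ⟨h2, h3, z, by simp, h4⟩
      · exact ⟨h2, h3, z', by simp, h4⟩
  have h2 : ((univ : Finset P).piAntidiag n).filter
      (fun e => Vd i e F ∧ Dgz h e F z ∧ Dgz h e F z') =
      (((univ : Finset P).piAntidiag n).filter (fun e => Vd i e F ∧ (z ∈ F ∨ h z ≤ e z))) ∩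
      (((univ : Finset P).piAntidiag n).filter (fun e => Vd i e F ∧ (z' ∈ F ∨ h z' ≤ e z'))) := by
    ext e
    rw [mem_inter, mem_filter, mem_filter, mem_filter]
    unfold Dgz
    tauto
  rw [h1, h2]
  exact Finset.sum_union_inter

/-- exact evaluation of the bad part with families of blockers -/
theorem RB_evalF {i : ℕ} {R : Finset P} {bad : (P → ℕ) → Prop} {n : ℕ} (h : P → ℕ)
    (Fam : Finset (Finset P)) (T2 : Finset P) (h2 : ∀ z ∈ T2, 1 ≤ h z ∧ h z ≤ lev z - i)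
    (hb1 : ∀ A ∈ Fam, ∀ z ∈ A, ∀ e F, Vd i e F → ∑ x, e x = n → Dgz h e F z →
      (∃ x ∈ R, x ∈ F) ∨ bad (lbl R e))
    (hb2 : ∀ z ∈ T2, cst i h z = n → bad (lbl R (ez i h z)))
    (hall : ∀ e F, Vd i e F → ∑ x, e x = n → ((∃ x ∈ R, x ∈ F) ∨ bad (lbl R e)) →
      (∃ A ∈ Fam, ∃ z ∈ A, Dgz h e F z) ∨ ∃ z ∈ T2, e = ez i h z)
    (hone : ∀ A ∈ Fam, ∀ A' ∈ Fam, A ≠ A' → ∀ z ∈ A, ∀ z' ∈ A', ∀ e F, Vd i e F →
      ∑ x, e x = n → Dgz h e F z → Dgz h e F z' → False)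
    (hsep : ∀ A ∈ Fam, ∀ z ∈ A, ∀ z' ∈ T2, cst i h z' = n → ∀ F, Vd i (ez i h z') F →
      ¬ Dgz h (ez i h z') F z) :
    RB i R bad n = ∑ A ∈ Fam, ZF i h A n +
      ∑ z ∈ T2.filter (fun z => cst i h z = n),
      (by classical exact if Adm i (ez i h z) then
        (X : ℤ[X]) ^ (nf i (ez i h z)) * (1 + X) ^ (Pk i (ez i h z)).card else 0) := by
  classical
  have h3 : ∀ z ∈ T2.filter (fun z => cst i h z = n), (if Adm i (ez i h z) then
        (X : ℤ[X]) ^ (nf i (ez i h z)) * (1 + X) ^ (Pk i (ez i h z)).card else 0) =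
        ∑ F : Finset P, if Vd i (ez i h z) F then (X : ℤ[X]) ^ F.card else 0 := by
    intro z _
    rw [sum_vd]
  rw [Finset.sum_congr rfl h3, Finset.sum_comm]
  unfold ZF
  rw [Finset.sum_comm (s := Fam)]
  unfold RB
  rw [← Finset.sum_add_distrib]
  refine Finset.sum_congr rfl fun F _ => ?_
  rw [← Finset.sum_filter]
  -- the first part
  have hA : ∑ A ∈ Fam, ∑ _e ∈ ((univ : Finset P).piAntidiag n).filter
      (fun e => Vd i e F ∧ ∃ z ∈ A, Dgz h e F z), (X : ℤ[X]) ^ F.card =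
      ∑ _e ∈ ((univ : Finset P).piAntidiag n).filter
      (fun e => Vd i e F ∧ ∃ A ∈ Fam, ∃ z ∈ A, Dgz h e F z), (X : ℤ[X]) ^ F.card := by
    rw [← Finset.sum_biUnion]
    · refine Finset.sum_congr ?_ (fun _ _ => rfl)
      ext e
      simp only [mem_biUnion, mem_filter]
      constructor
      · rintro ⟨A, hA, h5, h6, h7⟩
        exact ⟨h5, h6, A, hA, h7⟩
      · rintro ⟨h5, h6, A, hA, h7⟩
        exact ⟨A, hA, h5, h6, h7⟩
    · intro A hA A' hA' hne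
      simp only [Function.onFun]
      rw [Finset.disjoint_left]
      intro e he he'
      rw [mem_filter, mem_piAntidiag] at he he'
      obtain ⟨z, hz, hd⟩ := he.2.2
      obtain ⟨z', hz', hd'⟩ := he'.2.2
      exact hone A hA A' hA' hne z hz z' hz' e F he.2.1 he.1.1 hd hd'
  have hB : ∑ _z ∈ (T2.filter (fun z => cst i h z = n)).filter (fun z => Vd i (ez i h z) F),
      (X : ℤ[X]) ^ F.card = ∑ _e ∈ ((univ : Finset P).piAntidiag n).filter
      (fun e => (Vd i e F ∧ ((∃ x ∈ R, x ∈ F) ∨ bad (lbl R e))) ∧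
        ¬ ∃ A ∈ Fam, ∃ z ∈ A, Dgz h e F z), (X : ℤ[X]) ^ F.card := by
    refine Finset.sum_bij (fun z _ => ez i h z) ?_ ?_ ?_ (fun _ _ => rfl)
    · intro z hz
      rw [mem_filter, mem_filter] at hz
      rw [mem_filter, mem_piAntidiag]
      refine ⟨⟨hz.1.2, fun _ _ => mem_univ _⟩, ⟨hz.2, Or.inr (hb2 z hz.1.1 hz.1.2)⟩, ?_⟩
      rintro ⟨A, hA, z', hz', hd⟩
      exact hsep A hA z' hz' z hz.1.1 hz.1.2 F hz.2 hd
    · intro z hz z' hz' he
      rw [mem_filter, mem_filter] at hz hz'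
      exact ez_inj (h2 z hz.1.1).1 (h2 z hz.1.1).2 (h2 z' hz'.1.1).1 (h2 z' hz'.1.1).2 he
    · intro e he
      rw [mem_filter, mem_piAntidiag] at he
      obtain ⟨⟨he1, -⟩, ⟨hV, hb⟩, hn1⟩ := he
      rcases hall e F hV he1 hb with h5 | ⟨z, hz, rfl⟩
      · exact absurd h5 hn1
      · refine ⟨z, ?_, rfl⟩
        rw [mem_filter, mem_filter]
        exact ⟨⟨hz, he1⟩, hV⟩
  rw [hA, hB]
  have h5 : ((univ : Finset P).piAntidiag n).filter
      (fun e => Vd i e F ∧ ∃ A ∈ Fam, ∃ z ∈ A, Dgz h e F z) =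
      (((univ : Finset P).piAntidiag n).filter
      (fun e => Vd i e F ∧ ((∃ x ∈ R, x ∈ F) ∨ bad (lbl R e)))).filter
      (fun e => ∃ A ∈ Fam, ∃ z ∈ A, Dgz h e F z) := by
    rw [Finset.filter_filter]
    refine Finset.filter_congr fun e he => ?_
    rw [mem_piAntidiag] at he
    constructor
    · rintro ⟨h6, A, hA, z, hz, h7⟩
      exact ⟨⟨h6, hb1 A hA z hz e F h6 he.1 h7⟩, A, hA, z, hz, h7⟩
    · rintro ⟨⟨h6, -⟩, h7⟩
      exact ⟨h6, h7⟩
  have h6 : ((univ : Finset P).piAntidiag n).filter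
      (fun e => (Vd i e F ∧ ((∃ x ∈ R, x ∈ F) ∨ bad (lbl R e))) ∧
        ¬ ∃ A ∈ Fam, ∃ z ∈ A, Dgz h e F z) =
      (((univ : Finset P).piAntidiag n).filter
      (fun e => Vd i e F ∧ ((∃ x ∈ R, x ∈ F) ∨ bad (lbl R e)))).filter
      (fun e => ¬ ∃ A ∈ Fam, ∃ z ∈ A, Dgz h e F z) := by
    rw [Finset.filter_filter]
  rw [h5, h6]
  exact (Finset.sum_filter_add_sum_filter_not _ _ _).symm

/-- FW+ with families of blockers, at the single energy `n` -/
theorem far_plusF {i : ℕ} {R : Finset P} {h : P → ℕ} {n : ℕ} (p : ℤ[X])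
    (Fam : Finset (Finset P)) (hgr : GradedBelow P) (hlev : ∀ x ∈ R, i < lev x)
    (hFam : ∀ A ∈ Fam, ∀ z ∈ A, z ∈ bdR R)
    (hcl : ∀ g : P → ℕ, (∀ x, x ∉ R → g x = 0) → (∀ z ∈ bdR R, g z < h z) → p ∣ ZB i R g 0 n)
    (h1 : ∀ z ∈ bdR R, (∀ A ∈ Fam, z ∉ A) → 1 ≤ h z ∧ h z ≤ lev z - i)
    (hn : ∀ z ∈ bdR R, (∀ A ∈ Fam, z ∉ A) → n ≤ cst i h z)
    (hpair : ∀ A ∈ Fam, ∀ z ∈ A, ∀ z' ∈ bdR R, z' ∉ A →
      n < ∑ x, max (ez i h z x) (ez i h z' x))
    (hdis : ∀ A ∈ Fam, ∀ A' ∈ Fam, A ≠ A' → ∀ z ∈ A, z ∉ A') :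
    p ∣ Z P i n - (∑ A ∈ Fam, ZF i h A n +
      ∑ z ∈ (bdR R).filter (fun z => (∀ A ∈ Fam, z ∉ A) ∧ cst i h z = n), Lt i h z) := by
  classical
  have hpair' : ∀ A ∈ Fam, ∀ z ∈ A, ∀ z' ∈ bdR R, z' ∉ A → ∀ e F, Vd i e F → ∑ x, e x = n →
      Dgz h e F z → Dgz h e F z' → False := by
    intro A hA z hz z' hz' hne e F hV hs hd hd'
    have h2 := ez_le hV (hlev z (mem_filter.mp (hFam A hA z hz)).1) hd
    have h3 := ez_le hV (hlev z' (mem_filter.mp hz').1) hd'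
    have h4 : ∑ x, max (ez i h z x) (ez i h z' x) ≤ ∑ x, e x :=
      Finset.sum_le_sum fun x _ => max_le (h2 x) (h3 x)
    have := hpair A hA z hz z' hz' hne
    omega
  set T2 : Finset P := (bdR R).filter (fun z => ∀ A ∈ Fam, z ∉ A) with hT2
  have hev := RB_evalF (i := i) (R := R) (bad := fun g => ∃ z ∈ bdR R, h z ≤ g z) (n := n) h Fam
    T2 ?_ ?_ ?_ ?_ ?_ ?_
  · have hbadgood : p ∣ Z P i n - RB i R (fun g => ∃ z ∈ bdR R, h z ≤ g z) n := by
      refine dvd_Z_sub_RB _ p n fun g hg0 hg => hcl g hg0 fun z hz => ?_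
      by_contra hcon
      exact hg ⟨z, hz, not_lt.mp hcon⟩
    rw [hev] at hbadgood
    have h6 : ∑ z ∈ (bdR R).filter (fun z => (∀ A ∈ Fam, z ∉ A) ∧ cst i h z = n), Lt i h z =
        ∑ z ∈ T2.filter (fun z => cst i h z = n),
        (if Adm i (ez i h z) then
        (X : ℤ[X]) ^ (nf i (ez i h z)) * (1 + X) ^ (Pk i (ez i h z)).card else 0) := by
      rw [hT2, Finset.filter_filter]
      refine Finset.sum_congr rfl fun z hz => ?_
      rw [mem_filter] at hz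
      have h7 := h1 z hz.1 hz.2.1
      exact (lead_eq hgr h7.1 h7.2).symm
    rw [h6]
    exact hbadgood
  · intro z hz
    rw [hT2, mem_filter] at hz
    exact h1 z hz.1 hz.2
  · intro A hA z hz e F _ _ hd
    have hzR := (mem_filter.mp (hFam A hA z hz)).1
    rcases hd with hd | hd
    · exact Or.inl ⟨z, hzR, hd⟩
    · refine Or.inr ⟨z, hFam A hA z hz, ?_⟩
      rw [lbl_of hzR]
      exact hd
  · intro z hz _
    rw [hT2, mem_filter] at hz
    refine ⟨z, hz.1, ?_⟩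
    rw [lbl_of (mem_filter.mp hz.1).1, ez_self (h1 z hz.1 hz.2).2]
  · intro e F hV hs hb
    have hd : ∃ z ∈ bdR R, Dgz h e F z := by
      by_contra hcon
      push Not at hcon
      have h2 := not_mem_of_not_dg hlev hV hcon
      rcases hb with ⟨x, hx, hxF⟩ | ⟨z, hz, hz2⟩
      · exact h2 x hx hxF
      · refine hcon z hz (Or.inr ?_)
        rwa [lbl_of (mem_filter.mp hz).1] at hz2
    obtain ⟨z, hz, hd⟩ := hd
    by_cases hz1 : ∃ A ∈ Fam, z ∈ A
    · obtain ⟨A, hA, hzA⟩ := hz1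
      exact Or.inl ⟨A, hA, z, hzA, hd⟩
    · right
      push Not at hz1
      refine ⟨z, by rw [hT2, mem_filter]; exact ⟨hz, hz1⟩, ?_⟩
      have h4 : ∀ x, ez i h z x ≤ e x := ez_le hV (hlev z (mem_filter.mp hz).1) hd
      have h6 : cst i h z ≤ n := by
        rw [← hs]; exact Finset.sum_le_sum fun x _ => h4 x
      have h7 : cst i h z = n := le_antisymm h6 (hn z hz hz1)
      funext x
      have h9 : ∑ x, ez i h z x = ∑ x, e x := by
        rw [hs]; exact h7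
      exact ((Finset.sum_eq_sum_iff_of_le (fun x _ => h4 x)).mp h9 x (mem_univ x)).symm
  · intro A hA A' hA' hne z hz z' hz' e F hV hs hd hd'
    exact hpair' A hA z hz z' (hFam A' hA' z' hz') (hdis A' hA' A hA (Ne.symm hne) z' hz') e F hV
      hs hd hd'
  · intro A hA z hz z' hz' hc F hV hd
    rw [hT2, mem_filter] at hz'
    refine hpair' A hA z hz z' hz'.1 (hz'.2 A hA) _ F hV hc hd (Or.inr ?_)
    rw [ez_self (h1 z' hz'.1 hz'.2).2]

/-- FW+ with families, truncated data -/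
theorem FarT.plusF {i : ℕ} {R : Finset P} {b : ℕ} {h : P → ℕ} {n0 : ℕ}
    (H : FarT P i R b h n0) {n : ℕ} (hn0 : n < n0) (Fam : Finset (Finset P))
    (hFam : ∀ A ∈ Fam, ∀ z ∈ A, z ∈ bdR R)
    (hn : ∀ z ∈ bdR R, (∀ A ∈ Fam, z ∉ A) → n ≤ cst i h z)
    (hpair : ∀ A ∈ Fam, ∀ z ∈ A, ∀ z' ∈ bdR R, z' ∉ A →
      n < ∑ x, max (ez i h z x) (ez i h z' x))
    (hdis : ∀ A ∈ Fam, ∀ A' ∈ Fam, A ≠ A' → ∀ z ∈ A, z ∉ A') :
    (1 + X : ℤ[X]) ^ b ∣ Z P i n - (∑ A ∈ Fam, ZF i h A n +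
      ∑ z ∈ (bdR R).filter (fun z => (∀ A ∈ Fam, z ∉ A) ∧ cst i h z = n), Lt i h z) :=
  far_plusF _ Fam H.graded H.hlev hFam (fun g h1 h2 => H.clean g h1 h2 n hn0)
    (fun z hz _ => ⟨H.one_le z hz, H.le_lev z hz⟩) hn hpair hdis

open Classical in
/-- the configurations without elements of `R` in the filter and with labels in `Q` -/
noncomputable def RG (i : ℕ) (R : Finset P) (Q : (P → ℕ) → Prop) (n : ℕ) : ℤ[X] :=
  ∑ F : Finset P, ∑ _e ∈ ((univ : Finset P).piAntidiag n).filter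
    (fun e => Vd i e F ∧ (∀ x ∈ R, x ∉ F) ∧ Q (lbl R e)), (X : ℤ[X]) ^ F.card

open Classical in
/-- sorted by the labels -/
theorem RG_eq (i : ℕ) (R : Finset P) (Q : (P → ℕ) → Prop) (n : ℕ) :
    RG i R Q n = ∑ g ∈ Fintype.piFinset (fun _ : P => range (n + 1)),
      if (∀ x, x ∉ R → g x = 0) ∧ Q g then ZB i R g 0 n else 0 := by
  set Gs : Finset (P → ℕ) := Fintype.piFinset (fun _ => range (n + 1)) with hGs
  have h1 : ∀ g ∈ Gs, (if (∀ x, x ∉ R → g x = 0) ∧ Q g then ZB i R g 0 n else 0) =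
      ∑ F : Finset P, ∑ _e ∈ ((univ : Finset P).piAntidiag n).filter
        (fun e => ((∀ x, x ∉ R → g x = 0) ∧ Q g) ∧ Cst i R g 0 e F), (X : ℤ[X]) ^ F.card := by
    intro g _
    split_ifs with hg
    · unfold ZB
      refine Finset.sum_congr rfl fun F _ => ?_
      refine Finset.sum_congr (Finset.filter_congr fun e _ => ?_) (fun _ _ => rfl)
      exact ⟨fun h => ⟨hg, h⟩, fun h => h.2⟩
    · symm
      refine Finset.sum_eq_zero fun F _ => ?_
      rw [Finset.filter_eq_empty_iff.mpr (fun e _ h => hg h.1), Finset.sum_empty]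
  rw [Finset.sum_congr rfl h1, Finset.sum_comm]
  unfold RG
  refine Finset.sum_congr rfl fun F _ => ?_
  have hmaps : ∀ e ∈ ((univ : Finset P).piAntidiag n).filter
      (fun e => Vd i e F ∧ (∀ x ∈ R, x ∉ F) ∧ Q (lbl R e)), lbl R e ∈ Gs := by
    intro e he
    rw [mem_filter, mem_piAntidiag] at he
    rw [hGs, Fintype.mem_piFinset]
    intro x
    rw [mem_range]
    have h5 : e x ≤ ∑ y, e y := Finset.single_le_sum (fun y _ => Nat.zero_le _) (mem_univ x)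
    have h6 : ∑ y, e y = n := he.1.1
    unfold lbl
    split_ifs <;> omega
  refine Eq.trans (Finset.sum_fiberwise_of_maps_to hmaps (fun _ => (X : ℤ[X]) ^ F.card)).symm ?_
  refine Finset.sum_congr rfl fun g _ => ?_
  refine Finset.sum_congr ?_ (fun _ _ => rfl)
  ext e
  simp only [mem_filter]
  constructor
  · rintro ⟨⟨h5, h6, h7, h8⟩, h9⟩
    refine ⟨h5, ⟨?_, by rw [← h9]; exact h8⟩, h6, ?_, ?_⟩
    · intro x hx
      rw [← h9]; exact lbl_off hx
    · intro x hx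
      exact ⟨h7 x hx, by rw [← h9, lbl_of hx]⟩
    · intro x _ hxF
      simpa using h6.2.1 x hxF
  · rintro ⟨h5, ⟨h6, h7⟩, h8, h9, -⟩
    have h10 : lbl R e = g := by
      funext x
      by_cases hx : x ∈ R
      · rw [lbl_of hx]; exact (h9 x hx).2
      · rw [lbl_off hx]; exact (h6 x hx).symm
    exact ⟨⟨h5, h8, fun x hx => (h9 x hx).1, by rw [h10]; exact h7⟩, h10⟩

open Classical in
/-- the dangerous sum of `A`, sorted by the labels on a set `R ⊇ A` -/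
theorem ZF_labels {i : ℕ} {h : P → ℕ} {A R : Finset P} {n : ℕ} (hA : A ⊆ R)
    (hF : ∀ e F, Vd i e F → ∑ x, e x = n → (∃ z ∈ A, Dgz h e F z) → ∀ x ∈ R, x ∉ F) :
    ZF i h A n = ∑ g ∈ Fintype.piFinset (fun _ : P => range (n + 1)),
      if (∀ x, x ∉ R → g x = 0) ∧ (∃ z ∈ A, h z ≤ g z) then ZB i R g 0 n else 0 := by
  obtain ⟨Q, hQ⟩ : ∃ Q : (P → ℕ) → Prop, ∀ g, Q g ↔ ∃ z ∈ A, h z ≤ g z :=
    ⟨_, fun _ => Iff.rfl⟩
  refine Eq.trans ?_ (Eq.trans (RG_eq i R Q n) (Finset.sum_congr rfl fun g _ => ?_))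
  swap
  · by_cases h1 : (∀ x, x ∉ R → g x = 0) ∧ Q g
    · rw [if_pos h1, if_pos ⟨h1.1, (hQ g).mp h1.2⟩]
    · rw [if_neg h1, if_neg (fun h2 => h1 ⟨h2.1, (hQ g).mpr h2.2⟩)]
  unfold ZF RG
  refine Finset.sum_congr rfl fun F _ => Finset.sum_congr ?_ (fun _ _ => rfl)
  refine Finset.filter_congr fun e he => ?_
  rw [mem_piAntidiag] at he
  constructor
  · rintro ⟨h1, h2⟩
    have h3 := hF e F h1 he.1 h2
    refine ⟨h1, h3, (hQ _).mpr ?_⟩
    obtain ⟨z, hz, hd⟩ := h2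
    refine ⟨z, hz, ?_⟩
    rw [lbl_of (hA hz)]
    exact hd.resolve_left (h3 z (hA hz))
  · rintro ⟨h1, h2, h3⟩
    obtain ⟨z, hz, h3⟩ := (hQ _).mp h3
    refine ⟨h1, z, hz, Or.inr ?_⟩
    rwa [lbl_of (hA hz)] at h3

end Pool.Agent.GaussPoset
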