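import Pool.Agent.W_448s8_h76.SaJ
import Pool.Agent.W_448s8_h76.SaK

/-!
Families of elements with the same covers; union costs (MP_448cb3_co, S8).
-/

namespace Pool.Agent.GaussPoset

set_option linter.unusedSectionVars false

open Polynomial Finset

universe u

variable {P : Type u} [Fintype P] [PartialOrder P] [DecidableEq P] {r m : ℕ}
  {N : Tops P → Finset P} {b : Tops P → ℕ} {θ : Tops P → P → ℕ}

/-- the joins of the fold end with the straight end of the same stair -/
def CcM (m : ℕ) (N : Tops P → Finset P) (b : Tops P → ℕ) (θ : Tops P → P → ℕ) (z : P) : Prop :=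
  lev z = 2 * m + 1 ∧ ∃ x x' Nc co, InSM m N b θ x Nc co ∧ co x = (m, m) ∧ x' ∈ Nc ∧
    co x' = (0, 2 * m) ∧ z ⋖ x ∧ z ⋖ x'

/-- the star joins -/
def StM (m : ℕ) (N : Tops P → Finset P) (b : Tops P → ℕ) (θ : Tops P → P → ℕ) (z : P) : Prop :=
  lev z = 2 * m + 1 ∧ ∃ x x', FoldM m N b θ x ∧ FullM m N θ x' ∧ (Win.uc x').card = 1 ∧
    topOf x ≠ topOf x' ∧ z ⋖ x ∧ z ⋖ x' ∧ QInf m (m + hh m) (topOf x')

open Classical in
/-- the boundary elements with the same strict up-set -/
noncomputable def fam (m : ℕ) (N : Tops P → Finset P) (z : P) : Finset P :=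
  (bdR (r2 (2 * m) N)).filter (fun y => ∀ w, z < w ↔ y < w)

lemma mem_fam {z y : P} : y ∈ fam m N z ↔ y ∈ bdR (r2 (2 * m) N) ∧ ∀ w, z < w ↔ y < w := by
  classical
  unfold fam
  rw [mem_filter]

lemma self_mem_fam {z : P} (hz : z ∈ bdR (r2 (2 * m) N)) : z ∈ fam m N z :=
  mem_fam.mpr ⟨hz, fun _ => Iff.rfl⟩

lemma fam_eq {z y : P} (h : y ∈ fam m N z) : fam m N y = fam m N z := by
  have h1 := (mem_fam.mp h).2
  ext w
  rw [mem_fam, mem_fam]
  exact and_congr_right fun _ => ⟨fun h2 v => (h1 v).trans (h2 v), fun h2 v => (h1 v).symm.trans (h2 v)⟩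

lemma CcM.same {z y : P} (h : CcM m N b θ z) (hy : ∀ w, z < w ↔ y < w) : CcM m N b θ y := by
  obtain ⟨hl, x, x', Nc, co, h1, h2, h3, h4, h5, h6⟩ := h
  exact ⟨by rw [← lev_eq_of_up hy]; exact hl, x, x', Nc, co, h1, h2, h3, h4,
    (cov_of_up hy).mp h5, (cov_of_up hy).mp h6⟩

lemma StM.same {z y : P} (h : StM m N b θ z) (hy : ∀ w, z < w ↔ y < w) : StM m N b θ y := by
  obtain ⟨hl, x, x', h1, h2, h3, h4, h5, h6, h7⟩ := h
  exact ⟨by rw [← lev_eq_of_up hy]; exact hl, x, x', h1, h2, h3, h4,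
    (cov_of_up hy).mp h5, (cov_of_up hy).mp h6, h7⟩

/-- the union of the cheapest excess functions -/
noncomputable def Uu (i : ℕ) (h : P → ℕ) (z z' : P) : ℕ := ∑ x, max (ez i h z x) (ez i h z' x)

lemma Uu_left (i : ℕ) (h : P → ℕ) (z z' : P) : cst i h z ≤ Uu i h z z' :=
  Finset.sum_le_sum fun _ _ => le_max_left _ _

lemma Uu_right (i : ℕ) (h : P → ℕ) (z z' : P) : cst i h z' ≤ Uu i h z z' :=
  Finset.sum_le_sum fun _ _ => le_max_right _ _

/-- lower bound of the union by disjoint up-sets -/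
lemma Uu_ge {i k : ℕ} {h : P → ℕ} {z z' : P} (hz : h z = k) (hz' : h z' = k) (hne : z ≠ z')
    (hlz : k ≤ lev z - i) (hlz' : k ≤ lev z' - i) (S : Finset P)
    (hS : ∀ a ∈ S, z < a ∨ z' < a) (hS2 : ∀ a ∈ S, ¬ a ≤ z ∧ ¬ a ≤ z')
    (hdis : ∀ a ∈ S, ∀ a' ∈ S, a ≠ a' → ∀ x, i < lev x → a ≤ x → a' ≤ x → False) :
    ∑ a ∈ S, ct i k a + 2 * k ≤ Uu i h z z' := by
  classical
  have h1 : ∑ a ∈ S, ct i k a + 2 * k = ∑ x : P, (∑ a ∈ S, (if a ≤ x then min k (lev x - i) else 0) +
      ((if x = z then k else 0) + (if x = z' then k else 0))) := by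
    rw [Finset.sum_add_distrib, Finset.sum_add_distrib, Finset.sum_ite_eq' univ z,
      Finset.sum_ite_eq' univ z', if_pos (mem_univ z), if_pos (mem_univ z'), Finset.sum_comm,
      Finset.sum_congr rfl (fun a _ => ct_eq_sum i k a)]
    ring
  rw [h1]
  unfold Uu
  refine Finset.sum_le_sum fun x _ => ?_
  by_cases hxz : x = z
  · subst hxz
    rw [Finset.sum_eq_zero (fun a ha => if_neg (hS2 a ha).1), if_pos rfl, if_neg hne]
    refine le_trans ?_ (le_max_left _ _)
    unfold ez
    rw [if_pos le_rfl, hz]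
    omega
  · by_cases hxz' : x = z'
    · subst hxz'
      rw [Finset.sum_eq_zero (fun a ha => if_neg (hS2 a ha).2), if_neg (Ne.symm hne), if_pos rfl]
      refine le_trans ?_ (le_max_right _ _)
      unfold ez
      rw [if_pos le_rfl, hz']
      omega
    · rw [if_neg hxz, if_neg hxz']
      simp only [Nat.add_zero]
      by_cases hl : i < lev x
      · by_cases hex : ∃ a ∈ S, a ≤ x
        · obtain ⟨a, ha, hax⟩ := hex
          rw [Finset.sum_eq_single_of_mem a ha (fun a' ha' hne' => by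
            rw [if_neg]
            intro h'
            exact hdis a ha a' ha' (Ne.symm hne') x hl hax h'), if_pos hax]
          rcases hS a ha with h2 | h2
          · refine le_trans ?_ (le_max_left _ _)
            unfold ez
            rw [if_pos (h2.le.trans hax), hz]
          · refine le_trans ?_ (le_max_right _ _)
            unfold ez
            rw [if_pos (h2.le.trans hax), hz']
        · push Not at hex
          rw [Finset.sum_eq_zero (fun a ha => if_neg (hex a ha))]
          exact Nat.zero_le _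
      · rw [Finset.sum_eq_zero]
        · exact Nat.zero_le _
        · intro a _
          rw [show lev x - i = 0 by omega, Nat.min_zero]
          exact ite_self 0

/-- elements of level `2 m` -/
lemma ct_mid {x : P} {k : ℕ} (hl : lev x = 2 * m) : ct m k x = vs m k x := by
  unfold ct vs
  rw [cst_eq, hl, show 2 * m + 1 = m + (m + 1) by ring, Finset.sum_range_add,
    Finset.sum_eq_zero, zero_add]
  · refine Finset.sum_congr rfl fun u _ => ?_
    rw [Nat.add_sub_cancel_left]
  · intro l hl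
    rw [mem_range] at hl
    rw [show l - m = 0 by omega, Nat.min_zero, Nat.zero_mul]

lemma vs_ge {x : P} {k : ℕ} (hl : lev x = 2 * m) : NL m k ≤ vs m k x := by
  unfold vs NL
  refine Finset.sum_le_sum fun u hu => ?_
  rw [mem_range] at hu
  exact Nat.le_mul_of_pos_right _ (one_le_nab (by omega))

lemma NL_ge {k : ℕ} (hk : 1 ≤ k) : m ≤ NL m k := by
  have h1 : NL m 1 ≤ NL m k := by
    unfold NL
    exact Finset.sum_le_sum fun u _ => min_le_min hk le_rfl
  rwa [NL_one] at h1

/-- natural elements of different tops have no common upper bound -/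
lemma WM.disjL (W : WM r m N b θ) {x x' y : P} (hx : lev x ≤ 2 * m) (hx' : lev x' ≤ 2 * m)
    (ht : topOf x ≠ topOf x') (h1 : x ≤ y) (h2 : x' ≤ y) : False :=
  ht ((W.natSys.cp x y h1 (W.low hx)).trans (W.natSys.cp x' y h2 (W.low hx')).symm)

/-- one fold end per top -/
lemma WM.fold_unique (W : WM r m N b θ) {x x' : P} (hx : FoldM m N b θ x)
    (hx' : FoldM m N b θ x') (ht : topOf x = topOf x') : x = x' := by
  have hm := W.ten
  by_contra hne
  obtain ⟨Nc, co, h, hcx⟩ := hx
  have hl' := hx'.lev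
  have h2 : x' ∈ Nc := h.stair.strip (mem_lowPart.mpr ⟨by rw [ht]; exact le_topOf x', hl'.le⟩)
  have h3 := h.stair.chart.lev x' h2
  have h4 : (co x').1 ≤ (co x').2 := h.stair.chart.mem x' h2
  have h5 : co x' ≠ (m, m) := fun h' => hne (h.stair.chart.inj x h.mem x' h2 (by rw [hcx, h']))
  have h6 : (co x').1 ≠ m := fun h' => h5 (Prod.ext h' (by simp only; omega))
  -- count on the level `2 m - 1` or `m`
  have h7 := hx'.nab (u := m - 1) (by omega)
  have h8 := hx'.nab (u := 0) (by omega)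
  rw [nab_chart h.stair.chart h2] at h7 h8
  have h9 := card_cellsAt_shift (l := m + (m - 1)) (p := co x') h4 (by omega)
  have h10 := card_cellsAt_shift (l := m + 0) (p := co x') h4 (by omega)
  unfold nF at h7 h8
  omega

/-- the straight end of a stair is unique -/
lemma WM.cc_unique (W : WM r m N b θ) {x x' y y' : P} {Nc Nc' : Finset P}
    {co co' : P → ℕ × ℕ} (hx : InSM m N b θ x Nc co) (hcx : co x = (m, m)) (hx' : x' ∈ Nc)
    (hcx' : co x' = (0, 2 * m)) (hy : InSM m N b θ y Nc' co')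
    (hcy : co' y = (m, m)) (hy' : y' ∈ Nc') (hcy' : co' y' = (0, 2 * m)) (hxy : x = y) :
    x' = y' := by
  have hm := W.ten
  obtain ⟨h1, h2⟩ := W.cc_full hx hcx hx' hcx'
  obtain ⟨h3, h4⟩ := W.cc_full hy hcy hy' hcy'
  by_contra hne
  have hly' : lev y' = 2 * m := by
    rw [hy.stair.chart.lev y' hy', hcy']
    simp only
    omega
  have h5 : y' ∈ Nc := hx.stair.strip (mem_lowPart.mpr ⟨by
    rw [hxy, ← h4]
    exact le_topOf y', hly'.le⟩)
  have h6 := hx.stair.chart.lev y' h5
  have h7 : (co y').1 ≤ (co y').2 := hx.stair.chart.mem y' h5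
  have h8 : nab m y' = 1 := by
    rw [nab_chart hy.stair.chart hy', hcy']
    have := card_cellsAt_shift (l := m) (p := (0, 2 * m)) (Nat.zero_le _) (by simp only; omega)
    simp only at this
    omega
  have h9 := card_cellsAt_shift (l := m) (p := co y') h7 (by omega)
  rw [← nab_chart hx.stair.chart h5, h8] at h9
  exact hne (hx.stair.chart.inj x' hx' y' h5 (by
    rw [hcx']
    exact Prod.ext (by simp only; omega) (by simp only; omega)))

/-- data of a join of a fold end -/
structure Jd (m : ℕ) (N : Tops P → Finset P) (b : Tops P → ℕ) (θ : Tops P → P → ℕ)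
    (z x x' : P) : Prop where
  lev : Pool.Agent.GaussPoset.lev z = 2 * m + 1
  fold : FoldM m N b θ x
  zx : z ⋖ x
  zx' : z ⋖ x'
  ne : x ≠ x'
  lab : h2 (2 * m) N θ z = hh m
  dis : ∀ y, m < Pool.Agent.GaussPoset.lev y → x ≤ y → x' ≤ y → False

lemma Jd.mid (W : WM r m N b θ) {z x x' : P} (h : Jd m N b θ z x x') :
    Pool.Agent.GaussPoset.lev x' = 2 * m := by
  have h1 := h.lev
  have h2 := (W.gt.H.covBy_iff.mp h.zx').2
  omega

lemma WM.jd_cc (W : WM r m N b θ) {z x x' : P} {Nc : Finset P} {co : P → ℕ × ℕ}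
    (hz : z ∈ r2 (2 * m) N) (hl : lev z = 2 * m + 1) (hx : InSM m N b θ x Nc co)
    (hcx : co x = (m, m)) (hx' : x' ∈ Nc) (hcx' : co x' = (0, 2 * m)) (hzx : z ⋖ x)
    (hzx' : z ⋖ x') : Jd m N b θ z x x' := by
  have hm := W.ten
  obtain ⟨s, hn⟩ := W.num_cc hz hl hx hcx hx' hcx' hzx hzx'
  refine ⟨hl, ⟨Nc, co, hx, hcx⟩, hzx, hzx', ?_, hn.lab, ?_⟩
  · rintro rfl
    rw [hcx] at hcx'
    simp only [Prod.mk.injEq] at hcx'
    omega
  · intro y hy h1 h2
    have C := hx.stair.chart
    have hyN := C.up x' hx' y h2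
    have h3 := (C.le_iff x' hx' y hyN).mp h2
    have h4 := (C.le_iff x hx.mem y hyN).mp h1
    have h5 := C.lev y hyN
    have h6 : (co y).1 ≤ (co x').1 := h3.1
    have h7 : (co y).2 ≤ (co x).2 := h4.2
    rw [hcx'] at h6
    rw [hcx] at h7
    simp only at h6 h7
    omega

lemma WM.jd_top (W : WM r m N b θ) {z x x' : P} (hl : lev z = 2 * m + 1)
    (hx : FoldM m N b θ x) (ht : topOf x ≠ topOf x') (hzx : z ⋖ x) (hzx' : z ⋖ x')
    (hlab : h2 (2 * m) N θ z = hh m) : Jd m N b θ z x x' := by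
  have hlx' : lev x' = 2 * m := by
    have := (W.gt.H.covBy_iff.mp hzx').2
    omega
  exact ⟨hl, hx, hzx, hzx', fun h => ht (by rw [h]), hlab,
    fun y _ h1 h2 => W.disjL hx.lev.le hlx'.le ht h1 h2⟩

/-- two joins below different fold ends -/
lemma WM.U_two (W : WM r m N b θ) {z z' x x' y y' : P} (h : Jd m N b θ z x x')
    (h' : Jd m N b θ z' y y') (hzz : z ≠ z') (hne : x ≠ y) :
    2 * NF m (hh m) + 2 * hh m ≤ Uu m (h2 (2 * m) N θ) z z' := by
  classical
  have hm := W.ten
  have hh2 := hh_le m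
  have hlx := h.fold.lev
  have hly := h'.fold.lev
  have ht : topOf x ≠ topOf y := fun ht => hne (W.fold_unique h.fold h'.fold ht)
  have hlz := h.lev
  have hlz' := h'.lev
  have h1 := Uu_ge (i := m) (k := hh m) h.lab h'.lab hzz (by omega) (by omega) {x, y} (by
    intro a ha
    rw [mem_insert, mem_singleton] at ha
    rcases ha with rfl | rfl
    · exact Or.inl h.zx.1
    · exact Or.inr h'.zx.1) (by
    intro a ha
    rw [mem_insert, mem_singleton] at ha
    have key : ∀ w : P, lev w = 2 * m + 1 → ¬ a ≤ w := by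
      intro w hw haw
      have h2 : lev a = 2 * m := by
        rcases ha with rfl | rfl
        · exact hlx
        · exact hly
      rcases eq_or_lt_of_le haw with h3 | h3
      · rw [h3] at h2
        omega
      · have := lev_strictAnti h3
        omega
    exact ⟨key z hlz, key z' hlz'⟩) (by
    intro a ha a' ha' hne' w hw h2 h3
    rw [mem_insert, mem_singleton] at ha ha'
    rcases ha with rfl | rfl
    · rcases ha' with rfl | rfl
      · exact hne' rfl
      · exact W.disjL hlx.le hly.le ht h2 h3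
    · rcases ha' with rfl | rfl
      · exact W.disjL hlx.le hly.le ht h3 h2
      · exact hne' rfl)
  rw [Finset.sum_pair hne, ct_mid hlx, ct_mid hly, h.fold.vs, h'.fold.vs] at h1
  omega

/-- two joins below the same fold end -/
lemma WM.U_one (W : WM r m N b θ) {z z' x x' y' : P} (h : Jd m N b θ z x x')
    (h' : Jd m N b θ z' x y') (hzz : z ≠ z') (hne : x' ≠ y')
    (hd : ∀ w, m < lev w → x' ≤ w → y' ≤ w → False) :
    NF m (hh m) + vs m (hh m) x' + vs m (hh m) y' + 2 * hh m ≤ Uu m (h2 (2 * m) N θ) z z' := by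
  classical
  have hm := W.ten
  have hh2 := hh_le m
  have hlx := h.fold.lev
  have hlx' := h.mid W
  have hly' := h'.mid W
  have hlz := h.lev
  have hlz' := h'.lev
  have h1 := Uu_ge (i := m) (k := hh m) h.lab h'.lab hzz (by omega) (by omega) {x, x', y'} (by
    intro a ha
    rw [mem_insert, mem_insert, mem_singleton] at ha
    rcases ha with rfl | rfl | rfl
    · exact Or.inl h.zx.1
    · exact Or.inl h.zx'.1
    · exact Or.inr h'.zx'.1) (by
    intro a ha
    rw [mem_insert, mem_insert, mem_singleton] at ha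
    have key : ∀ w : P, lev w = 2 * m + 1 → ¬ a ≤ w := by
      intro w hw haw
      have h2 : lev a = 2 * m := by
        rcases ha with rfl | rfl | rfl
        · exact hlx
        · exact hlx'
        · exact hly'
      rcases eq_or_lt_of_le haw with h3 | h3
      · rw [h3] at h2
        omega
      · have := lev_strictAnti h3
        omega
    exact ⟨key z hlz, key z' hlz'⟩) (by
    intro a ha a' ha' hne' w hw h2 h3
    rw [mem_insert, mem_insert, mem_singleton] at ha ha'
    rcases ha with rfl | rfl | rfl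
    · rcases ha' with rfl | rfl | rfl
      · exact hne' rfl
      · exact h.dis w hw h2 h3
      · exact h'.dis w hw h2 h3
    · rcases ha' with rfl | rfl | rfl
      · exact h.dis w hw h3 h2
      · exact hne' rfl
      · exact hd w hw h2 h3
    · rcases ha' with rfl | rfl | rfl
      · exact h'.dis w hw h3 h2
      · exact hd w hw h3 h2
      · exact hne' rfl)
  have hx1 : x ∉ ({x', y'} : Finset P) := by
    rw [mem_insert, mem_singleton, not_or]
    exact ⟨h.ne, h'.ne⟩
  rw [Finset.sum_insert hx1, Finset.sum_pair hne, ct_mid hlx, ct_mid hlx', ct_mid hly',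
    h.fold.vs] at h1
  omega

/-- star joins: the numbers -/
lemma WM.num_star (W : WM r m N b θ) {z x x' : P} (hz : z ∈ r2 (2 * m) N)
    (hl : lev z = 2 * m + 1) (hx : FoldM m N b θ x) (hx' : FullM m N θ x')
    (ht : topOf x ≠ topOf x') (hzx : z ⋖ x) (hzx' : z ⋖ x')
    (hq : QInf m (m + hh m) (topOf x')) :
    vs m (hh m) x' = NL m (hh m) + hh m ∧ ∃ s, Num m N θ z (hh m) (E0 m + hh m) 0 s := by
  have hm := W.ten
  have hh2 := hh_le m
  have hh1 := hh_pos m
  have hlx' : lev x' = 2 * m := by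
    have := (W.gt.H.covBy_iff.mp hzx').2
    omega
  have hn : ∀ u, u ≤ m → nab (m + u) x' = if m + u = m + hh m then 2 else 1 := by
    intro u hu
    exact W.nab_quad hq hlx' (by omega)
  have h3 := vs_quad (k := hh m) (a := m + hh m) (by omega) (by omega) hn
  have h4 : nab m x' = 1 := by
    have := hn 0 (by omega)
    rw [if_neg (by omega)] at this
    simpa using this
  have h5 : nab (m + hh m) x' + 0 = 2 := by
    rw [hn (hh m) (by omega), if_pos rfl]
  rw [show min (hh m) (m + hh m - m) = hh m by omega] at h3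
  exact ⟨h3, _, W.num_fv hz hl hx hx' ht hzx hzx' h3 h4 h5⟩

/-- the union cost of a (C) join and another boundary element -/
theorem WM.U_cc (W : WM r m N b θ) (S7 : S7M m N b θ) {z z' : P}
    (hz : z ∈ bdR (r2 (2 * m) N)) (hz' : z' ∈ bdR (r2 (2 * m) N)) (hc : CcM m N b θ z)
    (hn : z' ∉ fam m N z) : E0 m + m + 1 ≤ Uu m (h2 (2 * m) N θ) z z' := by
  have I := numI W.ten
  have i4 := I.i4
  have i5 := I.i5
  have hh1 := hh_pos m
  have hR := Uu_right m (h2 (2 * m) N θ) z z'
  have hzz : z ≠ z' := by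
    rintro rfl
    exact hn (self_mem_fam hz)
  obtain ⟨hl, x, x', Nc, co, hx, hcx, hx', hcx', hzx, hzx'⟩ := hc
  have hJ := W.jd_cc (bd_mem hz) hl hx hcx hx' hcx' hzx hzx'
  have hvx := vs_ge (k := hh m) (hJ.mid W)
  have hNL := NL_ge (m := m) hh1
  have hsame : ∀ y', z' ⋖ x → z' ⋖ y' → x ≠ y' → y' ≠ x' := by
    rintro y' h1 h2 h3 rfl
    exact hn (mem_fam.mpr ⟨hz', up_of_pair W.gt.H h1 h2 hzx hzx' h3⟩)
  rcases W.rows2 S7 hz' with h | ⟨y, y', hl', hy, hy', ht, hzy, hzy', hn'⟩ |
    ⟨y, y', Nc', co', hl', hy, hcy, hy', hcy', hzy, hzy', s, hn'⟩ |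
    ⟨y, y', hl', hy, hy', h1, ht, hzy, hzy', d, s, hd0, hd, hn', hs⟩ |
    ⟨y, y', hl', hy, hy', h1, ht, hzy, hzy', hq, s, hn'⟩
  · omega
  · have := hn'.cst
    omega
  · have hJ' := W.jd_cc (bd_mem hz') hl' hy hcy hy' hcy' hzy hzy'
    by_cases hxy : x = y
    · exfalso
      have h3 := W.cc_unique hx hcx hx' hcx' hy hcy hy' hcy' hxy
      subst hxy
      exact hsame y' hzy hzy' hJ'.ne h3.symm
    · have := W.U_two hJ hJ' hzz hxy
      omega
  · have hJ' := W.jd_top hl' hy ht hzy hzy' hn'.lab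
    by_cases hxy : x = y
    · subst hxy
      have h3 := hsame y' hzy hzy' hJ'.ne
      have h4 := (W.cc_full hx hcx hx' hcx').2
      have h5 := W.U_one hJ hJ' hzz (Ne.symm h3) (fun w _ h6 h7 =>
        W.disjL (hJ.mid W).le (hJ'.mid W).le (by rw [h4]; exact ht) h6 h7)
      have h6 := vs_ge (k := hh m) (hJ'.mid W)
      unfold E0
      omega
    · have := W.U_two hJ hJ' hzz hxy
      omega
  · have hJ' := W.jd_top hl' hy ht hzy hzy' hn'.lab
    by_cases hxy : x = y
    · subst hxy
      have h3 := hsame y' hzy hzy' hJ'.ne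
      have h4 := (W.cc_full hx hcx hx' hcx').2
      have h5 := W.U_one hJ hJ' hzz (Ne.symm h3) (fun w _ h6 h7 =>
        W.disjL (hJ.mid W).le (hJ'.mid W).le (by rw [h4]; exact ht) h6 h7)
      have h6 := vs_ge (k := hh m) (hJ'.mid W)
      unfold E0
      omega
    · have := W.U_two hJ hJ' hzz hxy
      omega

/-- the union cost of a star join and another boundary element -/
theorem WM.U_st (W : WM r m N b θ) (S7 : S7M m N b θ) {z z' : P}
    (hz : z ∈ bdR (r2 (2 * m) N)) (hz' : z' ∈ bdR (r2 (2 * m) N)) (hc : StM m N b θ z)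
    (hn : z' ∉ fam m N z) : E0 m + m + 2 ≤ Uu m (h2 (2 * m) N θ) z z' := by
  have I := numI W.ten
  have i4 := I.i4
  have i5 := I.i5
  have hh1 := hh_pos m
  have hR := Uu_right m (h2 (2 * m) N θ) z z'
  have hzz : z ≠ z' := by
    rintro rfl
    exact hn (self_mem_fam hz)
  obtain ⟨hl, x, x', hx, hx', hc1, hxt, hzx, hzx', hxq⟩ := hc
  obtain ⟨hvx, s0, hn0⟩ := W.num_star (bd_mem hz) hl hx hx' hxt hzx hzx' hxq
  have hJ := W.jd_top hl hx hxt hzx hzx' hn0.lab
  have hNL := NL_ge (m := m) hh1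
  have hsame : ∀ y', z' ⋖ x → z' ⋖ y' → x ≠ y' → y' ≠ x' := by
    rintro y' h1 h2 h3 rfl
    exact hn (mem_fam.mpr ⟨hz', up_of_pair W.gt.H h1 h2 hzx hzx' h3⟩)
  -- the other cover of the second element is in another component
  have htop : ∀ y', lev y' = 2 * m → y' ≠ x' → topOf x' ≠ topOf y' := by
    intro y' hl2 hne ht
    exact hne (hxq.unique (by rw [ht]; exact le_topOf y') (le_topOf x') hl2 (hJ.mid W))
  rcases W.rows2 S7 hz' with h | ⟨y, y', hl', hy, hy', ht, hzy, hzy', hn'⟩ |
    ⟨y, y', Nc', co', hl', hy, hcy, hy', hcy', hzy, hzy', s, hn'⟩ |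
    ⟨y, y', hl', hy, hy', h1, ht, hzy, hzy', d, s, hd0, hd, hn', hs⟩ |
    ⟨y, y', hl', hy, hy', h1, ht, hzy, hzy', hq, s, hn'⟩
  · omega
  · have := hn'.cst
    omega
  · have hJ' := W.jd_cc (bd_mem hz') hl' hy hcy hy' hcy' hzy hzy'
    by_cases hxy : x = y
    · subst hxy
      have h3 := hsame y' hzy hzy' hJ'.ne
      have h5 := W.U_one hJ hJ' hzz (Ne.symm h3) (fun w _ h6 h7 =>
        W.disjL (hJ.mid W).le (hJ'.mid W).le (htop y' (hJ'.mid W) h3) h6 h7)
      have h6 := vs_ge (k := hh m) (hJ'.mid W)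
      unfold E0
      omega
    · have := W.U_two hJ hJ' hzz hxy
      omega
  · have hJ' := W.jd_top hl' hy ht hzy hzy' hn'.lab
    by_cases hxy : x = y
    · subst hxy
      have h3 := hsame y' hzy hzy' hJ'.ne
      have h5 := W.U_one hJ hJ' hzz (Ne.symm h3) (fun w _ h6 h7 =>
        W.disjL (hJ.mid W).le (hJ'.mid W).le (htop y' (hJ'.mid W) h3) h6 h7)
      have h6 := vs_ge (k := hh m) (hJ'.mid W)
      unfold E0
      omega
    · have := W.U_two hJ hJ' hzz hxy
      omega
  · have hJ' := W.jd_top hl' hy ht hzy hzy' hn'.lab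
    by_cases hxy : x = y
    · subst hxy
      have h3 := hsame y' hzy hzy' hJ'.ne
      have h5 := W.U_one hJ hJ' hzz (Ne.symm h3) (fun w _ h6 h7 =>
        W.disjL (hJ.mid W).le (hJ'.mid W).le (htop y' (hJ'.mid W) h3) h6 h7)
      have h6 := vs_ge (k := hh m) (hJ'.mid W)
      unfold E0
      omega
    · have := W.U_two hJ hJ' hzz hxy
      omega

end Pool.Agent.GaussPoset
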