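import Pool.Agent.W_448s8_h76.SaN

/-!
The natural system used for the star joins (MP_448cb3_co, S8).
-/

namespace Pool.Agent.GaussPoset

set_option linter.unusedSectionVars false

open Polynomial Finset

universe u

variable {P : Type u} [Fintype P] [PartialOrder P] [DecidableEq P] {r m : ℕ}
  {N : Tops P → Finset P} {b : Tops P → ℕ} {θ : Tops P → P → ℕ}

/-- two elements of level `m` in a chart -/
lemma two_le_cn {t : P} {S : ℕ × ℕ → Prop} {Nc : Finset P} {co : P → ℕ × ℕ}
    (C : Chart t S Nc co) (hm : 1 ≤ m) (h0 : S (0, m)) (h1 : S (1, m - 1)) {x : P} (hx : x ∈ Nc)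
    (hs : 1 ≤ (co x).1) (hc : m ≤ (co x).2) : 2 ≤ cn m t := by
  classical
  obtain ⟨y1, hy1, hc1⟩ := C.low x hx (0, m) ⟨Nat.zero_le _, hc⟩ h0
  obtain ⟨y2, hy2, hc2⟩ := C.low x hx (1, m - 1) ⟨hs, show m - 1 ≤ (co x).2 by omega⟩ h1
  have hne : y1 ≠ y2 := by
    rintro rfl
    rw [hc1] at hc2
    simp at hc2
  have l1 := C.lev y1 hy1
  have l2 := C.lev y2 hy2
  rw [hc1] at l1
  rw [hc2] at l2
  simp only at l1 l2
  have h3 : ({y1, y2} : Finset P) ⊆ (lv P m).filter (fun x => x ≤ t) := by
    intro y hy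
    rw [mem_insert, mem_singleton] at hy
    rw [mem_filter, mem_lv]
    rcases hy with rfl | rfl
    · exact ⟨by omega, C.le_t _ hy1⟩
    · exact ⟨by omega, C.le_t _ hy2⟩
  have h4 := Finset.card_le_card h3
  rw [Finset.card_pair hne] at h4
  exact h4

lemma rect_twoQ {j : ℕ} {t : Tops P} {k : ℕ} {Nc : Finset P} {co : P → ℕ × ℕ}
    (R : RectNat j m t k Nc co) (hm : 1 ≤ m) : 2 ≤ cn m (t : P) := by
  obtain ⟨x, hx, hc⟩ := R.cell
  have := R.b_two
  refine two_le_cn R.chart hm trivial trivial hx ?_ ?_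
  · rw [hc]
    show 1 ≤ k - 1
    omega
  · rw [hc]

lemma stair_twoQ {j : ℕ} {t : Tops P} {Nc : Finset P} {co : P → ℕ × ℕ}
    (R : StairNat j m t Nc co) (hm : 2 ≤ m) : 2 ≤ cn m (t : P) := by
  obtain ⟨x, hx, hc⟩ := R.cell
  refine two_le_cn R.chart (by omega) (Nat.zero_le _) (show 1 ≤ m - 1 by omega) hx ?_ ?_
  · rw [hc]
    show 1 ≤ 2 * (m / 2)
    omega
  · rw [hc]

/-- strips with one element of level `m` are light -/
lemma WM.typ_quad (W : WM r m N b θ) {a : ℕ} (ha : m < a) {t : Tops P} (h : QInf m a t) :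
    N t = onlyB t ∧ (θ t = fun x => lev x - m) ∧ b t = 1 := by
  have hm := W.ten
  have h1 := h.cn m (by omega)
  rw [if_neg (by omega)] at h1
  rcases W.typ t with ⟨g1, g2, g3, g5, g6, g7⟩ | ⟨Nc, co, g0, g1, g2, g3⟩ |
    ⟨Nc, co, g0, g1, g2, g3, g4⟩ | ⟨g1, g2, g3, g4⟩
  · exact ⟨g1, g2, g3⟩
  · have := rect_twoQ g0 (by omega)
    omega
  · have := stair_twoQ g0 (by omega)
    omega
  · have := g4.cn m (by omega)
    rw [if_pos rfl] at this
    omega

lemma QInf.ne_R {a : ℕ} (hm : 10 ≤ m) (ha : m < a) {t : Tops P} (h : QInf m a t) {x : P}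
    {Nc : Finset P} {co : P → ℕ × ℕ} (hx : InRM m N b θ x Nc co) : topOf x ≠ t := by
  rintro rfl
  have h1 := h.cn m (by omega)
  rw [if_neg (by omega)] at h1
  have := rect_twoQ hx.rect (by omega)
  omega

lemma QInf.ne_S {a : ℕ} (hm : 10 ≤ m) (ha : m < a) {t : Tops P} (h : QInf m a t) {x : P}
    {Nc : Finset P} {co : P → ℕ × ℕ} (hx : InSM m N b θ x Nc co) : topOf x ≠ t := by
  rintro rfl
  have h1 := h.cn m (by omega)
  rw [if_neg (by omega)] at h1
  have := stair_twoQ hx.stair (by omega)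
  omega

/-- the type of the component of a fold end -/
structure FT (m : ℕ) (N : Tops P → Finset P) (b : Tops P → ℕ) (θ : Tops P → P → ℕ) (x : P)
    (Nc : Finset P) (co : P → ℕ × ℕ) : Prop where
  stair : StairNat (2 * m) m (topOf x) Nc co
  nat : N (topOf x) = natS Nc co
  th : θ (topOf x) = thS m Nc co
  b : b (topOf x) = m / 2 + 1
  mem : x ∈ Nc
  cell : co x = (m, m)

lemma WM.fold_typ (W : WM r m N b θ) {x : P} (hx : FoldM m N b θ x) :
    ∃ Nc co, FT m N b θ x Nc co := by
  have hm := W.ten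
  have hl := hx.lev
  have hth := hx.th
  have hn0 := hx.nab (u := 0) (by omega)
  have hn1 := hx.nab (u := m - 1) (by omega)
  rw [show m + (m - 1) = 2 * m - 1 by omega] at hn1
  rw [Nat.add_zero] at hn0
  have e0 : nF m 0 = m / 2 + 1 := by
    unfold nF
    omega
  have e1 : nF m (m - 1) = 1 := by
    unfold nF
    omega
  rw [e0] at hn0
  rw [e1] at hn1
  have hxl : x ∈ lowPart (2 * m) (topOf x : P) := mem_lowPart.mpr ⟨le_topOf x, hl.le⟩
  rcases W.typ (topOf x) with ⟨g1, g2, g3, g5, g6, g7⟩ | ⟨Nc, co, g0, g1, g2, g3⟩ |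
    ⟨Nc, co, g0, g1, g2, g3, g4⟩ | ⟨g1, g2, g3, g4⟩
  · exfalso
    rw [g2] at hth
    simp only at hth
    omega
  · exfalso
    have hxN := g0.strip hxl
    have hcl := g0.chart.lev x hxN
    rw [nab_chart g0.chart hxN] at hn0 hn1
    have h1 := card_cellsAt_true (l := 2 * m - 1) (p := co x) (by omega)
    have h2 := card_cellsAt_true (l := m) (p := co x) (by omega)
    omega
  · have hxN := g0.strip hxl
    have hcl := g0.chart.lev x hxN
    have hS : (co x).1 ≤ (co x).2 := g0.chart.mem x hxN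
    rw [nab_chart g0.chart hxN] at hn0 hn1
    have h1 := card_cellsAt_shift (l := 2 * m - 1) (p := co x) hS (by omega)
    have h2 := card_cellsAt_shift (l := m) (p := co x) hS (by omega)
    refine ⟨Nc, co, g0, g1, g2, g3, hxN, ?_⟩
    exact Prod.ext (by simp only; omega) (by simp only; omega)
  · exfalso
    have h1 := W.nab_le_cn hl.le m
    rw [g4.cn m (by omega), if_pos rfl] at h1
    omega

/-- a fold end and the bottom of a quadric strip -/
structure StarF (m : ℕ) (N : Tops P → Finset P) (b : Tops P → ℕ) (θ : Tops P → P → ℕ)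
    (f v : P) (Nc : Finset P) (co : P → ℕ × ℕ) : Prop where
  fold : FoldM m N b θ f
  ft : FT m N b θ f Nc co
  q : QInf m (m + hh m) (topOf v)
  ne : topOf f ≠ topOf v
  hlv : lev v = 2 * m

/-- the natural sets -/
noncomputable def Nq (m : ℕ) (N : Tops P → Finset P) (v : P) : Tops P → Finset P :=
  Function.update N (topOf v) (lowPart (2 * m) (topOf v : P))

/-- the orders -/
noncomputable def bq (m : ℕ) (b : Tops P → ℕ) (f : P) : Tops P → ℕ :=
  Function.update b (topOf f) (m / 2)

/-- the thresholds -/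
noncomputable def tq (m : ℕ) (θ : Tops P → P → ℕ) (f : P) (Nc : Finset P) (co : P → ℕ × ℕ) :
    Tops P → P → ℕ :=
  Function.update θ (topOf f) (thSg (2 * (m / 2) - 2) m Nc co)

section

variable {f v : P} {Nc : Finset P} {co : P → ℕ × ℕ}

theorem StarF.natTop (W : WM r m N b θ) (S : StarF m N b θ f v Nc co) (s : Tops P) :
    ∃ B, NatTop m s (bq m b f s) (Nq m N v s) (tq m θ f Nc co s) B := by
  have hm := W.ten
  have hgr := W.gt.H.gradedBelow
  have hh1 := hh_pos m
  by_cases hs : s = topOf v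
  · subst hs
    obtain ⟨q1, q2, q3⟩ := W.typ_quad (by omega) S.q
    have e1 : Nq m N v (topOf v) = lowPart (2 * m) (topOf v : P) := Function.update_self _ _ _
    have e2 : bq m b f (topOf v) = 1 := by
      unfold bq
      rw [Function.update_of_ne (Ne.symm S.ne), q3]
    have e3 : tq m θ f Nc co (topOf v) = fun x => lev x - m := by
      unfold tq
      rw [Function.update_of_ne (Ne.symm S.ne), q2]
    rw [e1, e2, e3]
    obtain ⟨x, hx, hl⟩ : ∃ x ≤ (topOf v : P), lev x = m := by
      obtain ⟨x, hx, hl⟩ := exists_above' (x := v) (j := m) (by rw [S.hlv]; omega)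
      refine ⟨x, ?_, hl⟩
      rw [W.natSys.cp v x hx (W.low S.hlv.le)]
      exact le_topOf x
    exact ⟨_, (locData_light hgr ⟨x, mem_lowPart.mpr ⟨hx, by omega⟩, hl⟩).natTop (W.lowUp _)
      (fun x hx => (mem_lowPart.mp hx).1) (fun x hx hxi => mem_lowPart.mpr ⟨hx, by omega⟩)⟩
  · have e1 : Nq m N v s = N s := Function.update_of_ne hs _ _
    rw [e1]
    by_cases hs2 : s = topOf f
    · subst hs2
      have e2 : bq m b f (topOf f) = m / 2 := Function.update_self _ _ _
      have e3 : tq m θ f Nc co (topOf f) = thSg (2 * (m / 2) - 2) m Nc co :=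
        Function.update_self _ _ _
      rw [e2, e3, S.ft.nat]
      exact ⟨_, S.ft.stair.natTop_less hgr (by omega) (by omega)⟩
    · have e2 : bq m b f s = b s := Function.update_of_ne hs2 _ _
      have e3 : tq m θ f Nc co s = θ s := Function.update_of_ne hs2 _ _
      rw [e2, e3]
      exact W.natTop s

lemma StarF.natSys (W : WM r m N b θ) (S : StarF m N b θ f v Nc co) : NatSys (Nq m N v) := by
  choose B hB using S.natTop W
  exact natSys_of_tops hB

/-- the total order -/
lemma StarF.sum_b (W : WM r m N b θ) (S : StarF m N b θ f v Nc co) :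
    ∑ s, bq m b f s + 1 = (lv P m).card := by
  classical
  rw [← W.sum_b]
  unfold bq
  rw [Finset.sum_update_of_mem (mem_univ _), ← Finset.add_sum_erase univ b (mem_univ (topOf f)),
    S.ft.b, Finset.sdiff_singleton_eq_erase]
  omega

/-- the thresholds only increase -/
lemma StarF.th_le (S : StarF m N b θ f v Nc co) (s : Tops P) (x : P) :
    θ s x ≤ tq m θ f Nc co s x := by
  unfold tq
  by_cases hs : s = topOf f
  · subst hs
    rw [Function.update_self, S.ft.th]
    unfold thS thSg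
    split_ifs
    · exact le_rfl
    · omega
  · rw [Function.update_of_ne hs]

/-- the threshold of the fold end -/
lemma StarF.th_f (W : WM r m N b θ) (S : StarF m N b θ f v Nc co) :
    tq m θ f Nc co (topOf f) f = m % 2 + 2 := by
  have hm := W.ten
  have h1 := S.fold.th
  unfold tq
  rw [Function.update_self]
  rw [S.ft.th] at h1
  unfold thS at h1
  unfold thSg
  by_cases hJ : f ∈ junk (fun c => c.1 ≤ c.2) Nc co
  · rw [if_pos hJ] at h1
    have := S.fold.lev
    omega
  · rw [if_neg hJ, S.ft.cell]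
    simp only
    omega

/-- the new unnatural elements -/
lemma StarF.mem_unnat (W : WM r m N b θ) (S : StarF m N b θ f v Nc co) {x : P} :
    x ∈ unnat (Nq m N v) ↔ x ∈ unnat N ∨ (topOf x = topOf v ∧ 2 * m < lev x) := by
  have hlow := W.lowUp (topOf v)
  constructor
  · intro h
    by_contra hcon
    rw [not_or] at hcon
    have h1 : x ∈ N (topOf x) := W.natSys.mem_iff.mpr ⟨hcon.1, rfl⟩
    have h2 := Pool.Agent.GaussPoset.mem_unnat.mp h (topOf x)
    by_cases hs : topOf x = topOf v
    · rw [hs] at h2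
      unfold Nq at h2
      rw [Function.update_self] at h2
      refine h2 (mem_lowPart.mpr ⟨by rw [← hs]; exact le_topOf x, ?_⟩)
      by_contra h3
      exact hcon.2 ⟨hs, by omega⟩
    · unfold Nq at h2
      rw [Function.update_of_ne hs] at h2
      exact h2 h1
  · intro h
    rw [Pool.Agent.GaussPoset.mem_unnat]
    intro s hs
    have h3 := (S.natSys W).topOf_eq hs
    by_cases hsv : s = topOf v
    · subst hsv
      unfold Nq at hs
      rw [Function.update_self, mem_lowPart] at hs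
      rcases h with h | h
      · have := W.lt_lev h
        omega
      · omega
    · unfold Nq at hs
      rw [Function.update_of_ne hsv] at hs
      rcases h with h | h
      · exact Pool.Agent.GaussPoset.mem_unnat.mp h s hs
      · exact hsv (h3.symm.trans h.1)

lemma StarF.tw_ne (W : WM r m N b θ) (S : StarF m N b θ f v Nc co) {x : P}
    (hx : x ∈ twY (2 * m) N) : topOf x ≠ topOf v := by
  have hh1 := hh_pos m
  rw [← W.twSys.cp x hx]
  rcases W.tw_inner hx with ⟨Nc', co', h⟩ | ⟨Nc', co', h⟩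
  · exact S.q.ne_R W.ten (by omega) h
  · exact S.q.ne_S W.ten (by omega) h

theorem StarF.twSys (W : WM r m N b θ) (S : StarF m N b θ f v Nc co) :
    TwSys (unnat (Nq m N v)) (twY (2 * m) N) topOf (twT N) where
  sub := fun x hx => (S.mem_unnat W).mpr (Or.inl (W.twSys.sub hx))
  nat := by
    intro x hx h
    rcases (S.mem_unnat W).mp h with h | h
    · exact W.twSys.nat x hx h
    · exact S.tw_ne W hx ((W.twSys.cp x hx).symm.trans h.1)
  up := W.twSys.up
  inj := W.twSys.inj
  anti := W.twSys.anti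
  cp := W.twSys.cp

/-- the frozen set -/
noncomputable def Rq (m : ℕ) (N : Tops P → Finset P) (v : P) : Finset P :=
  unnat (Nq m N v) \ twY (2 * m) N

lemma StarF.mem_Rq (W : WM r m N b θ) (S : StarF m N b θ f v Nc co) {x : P} :
    x ∈ Rq m N v ↔ x ∈ r2 (2 * m) N ∨ (topOf x = topOf v ∧ 2 * m < lev x) := by
  unfold Rq
  rw [mem_sdiff, S.mem_unnat W, mem_sdiff]
  constructor
  · rintro ⟨h1 | h1, h2⟩
    · exact Or.inl ⟨h1, h2⟩
    · exact Or.inr h1
  · rintro (⟨h1, h2⟩ | h1)
    · exact ⟨Or.inl h1, h2⟩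
    · exact ⟨Or.inr h1, fun h => S.tw_ne W h h1.1⟩

lemma StarF.lower (W : WM r m N b θ) (S : StarF m N b θ f v Nc co) :
    ∀ x y, x ≤ y → y ∈ Rq m N v → x ∈ Rq m N v :=
  (S.twSys W).lower (S.natSys W).lower

lemma StarF.lev_Rq (W : WM r m N b θ) (S : StarF m N b θ f v Nc co) {x : P} (hx : x ∈ Rq m N v) :
    2 * m < lev x := by
  rcases (S.mem_Rq W).mp hx with h | h
  · exact W.lt_lev (mem_sdiff.mp h).1
  · exact h.2

lemma StarF.twinPair (W : WM r m N b θ) (S : StarF m N b θ f v Nc co) {x : P}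
    (hx : x ∈ twY (2 * m) N) : TwinPair m (thX (twY (2 * m) N) (twT N)
      (fun x => tq m θ f Nc co (topOf x) x)) (Kb m - 1) (twT N x) x := by
  have T := S.twSys W
  have h1 := mem_twY.mp hx
  have hnY : twT N x ∉ twY (2 * m) N := fun h => T.nat x hx (T.sub h)
  refine (W.twinPair hx).mono ?_ ?_ ?_
  · rw [thX_not hnY, thX_not hnY]
    exact S.th_le _ _
  · rw [thX_of hx, thX_not hnY]
  · rw [thX_not hnY]
    choose B hB using S.natTop W
    have hn : twT N x ∈ Nq m N v (topOf (twT N x)) := (S.natSys W).mem_iff.mpr ⟨T.nat x hx, rfl⟩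
    exact ((hB (topOf (twT N x))).data _ (S.natSys W) rfl _ _ (fun _ _ => rfl)
      (fun _ _ => Iff.rfl)).le (twT N x) (T.nat x hx) rfl

/-- bounded sums off the frozen set -/
theorem StarF.bounds (W : WM r m N b θ) (S : StarF m N b θ f v Nc co) (β : P → ℕ)
    (hβ : ∀ x, x ∉ Rq m N v → β x ≤ thX (twY (2 * m) N) (twT N)
      (fun x => tq m θ f Nc co (topOf x) x) x) (n : ℕ) (hn : n < Kb m - 1) :
    (1 + X : ℤ[X]) ^ ((lv P m).card - 1) ∣ ZB m (Rq m N v) 0 β n := by
  choose B hB using S.natTop W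
  have h := bounds_of_tops hB (S.twSys W) (Kb m - 1) (fun x hx => S.twinPair W hx) β hβ n hn
  have h2 := S.sum_b W
  rwa [show ∑ s, bq m b f s = (lv P m).card - 1 by omega] at h

end

end Pool.Agent.GaussPoset
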