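import Pool.Agent.W_448s8_h76.SaP

/-!
The product of the two factors (MP_448cb3_co, S8).
-/

namespace Pool.Agent.GaussPoset

set_option linter.unusedSectionVars false

open Polynomial Finset

universe u

variable {P : Type u} [Fintype P] [PartialOrder P] [DecidableEq P] {r m : ℕ}
  {N : Tops P → Finset P} {b : Tops P → ℕ} {θ : Tops P → P → ℕ}
  {f v : P} {Nc : Finset P} {co : P → ℕ × ℕ}

lemma StarF.prod (W : WM r m N b θ) (S : StarF m N b θ f v Nc co) (β : P → ℕ) (n : ℕ) :
    ZB m (Rq m N v) 0 β n = ∑ ab ∈ antidiagonal n,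
      ZB (P := QT m N v) m ∅ 0 (fun x => β x.1.1) ab.1 *
      ZB (P := QR m N v) m ∅ 0 (fun x => β x.1.1) ab.2 := by
  rw [ZB_off_bound (S.lower W) (fun x hx => by
    have := S.lev_Rq W hx
    omega)]
  exact ZB_prod (fun x : QO m N v => topOf (x : P) = topOf v)
    (fun x y hxy => by rw [S.cp W hxy x.2]) m (fun x : QO m N v => β x) n

lemma StarF.lv_T (W : WM r m N b θ) (S : StarF m N b θ f v Nc co) :
    (lv (QT m N v) m).card = 1 := by
  classical
  have hm := W.ten
  have hh1 := hh_pos m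
  rw [← S.card_top W (l := m) (by omega)]
  unfold lv
  have h3 : (univ.filter (fun x : QT m N v => lev x = m)) =
      (univ.filter (fun x : QT m N v => lev (x.1.1 : P) = m)) :=
    Finset.filter_congr fun x _ => by rw [S.levT W]
  rw [h3, card_sub' (p := fun x : QO m N v => topOf (x : P) = topOf v)
    (fun x : QO m N v => lev (x : P) = m),
    card_sub' (p := fun x : P => x ∉ Rq m N v)
      (fun x : P => topOf x = topOf v ∧ lev x = m)]
  congr 1
  refine Finset.filter_congr fun x _ => ?_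
  constructor
  · rintro ⟨-, h4, h5⟩
    exact ⟨h5, h4⟩
  · rintro ⟨h4, h5⟩
    exact ⟨S.off W (by omega), h5, h4⟩

lemma StarF.lev_vT (W : WM r m N b θ) (S : StarF m N b θ f v Nc co) :
    lev (S.vT W) = 2 * m := by
  rw [S.levT W]
  exact S.hlv

lemma StarF.lev_fR (W : WM r m N b θ) (S : StarF m N b θ f v Nc co) :
    lev (S.fR W) = 2 * m := by
  rw [S.levR W]
  exact S.fold.lev

lemma StarF.two_le (W : WM r m N b θ) (S : StarF m N b θ f v Nc co) : 2 ≤ (lv P m).card := by
  have h1 := S.lv_R W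
  have h2 := one_le_nab (z := S.fR W) (l := m) (by rw [S.lev_fR W]; omega)
  have h3 := nab_le (S.fR W) m
  omega

/-- the order of the rest -/
theorem StarF.dvd_R (W : WM r m N b θ) (S : StarF m N b θ f v Nc co) (β : P → ℕ)
    (hβ : ∀ x, x ∉ Rq m N v → topOf x ≠ topOf v → β x ≤ thX (twY (2 * m) N) (twT N)
      (fun x => tq m θ f Nc co (topOf x) x) x) {n : ℕ} (hn : n < Kb m - 1) :
    (1 + X : ℤ[X]) ^ ((lv P m).card - 2) ∣
      ZB (P := QR m N v) m ∅ 0 (fun x => β x.1.1) n := by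
  classical
  have h2 := S.two_le W
  let β' : P → ℕ := fun x => if topOf x = topOf v then 0 else β x
  have e1 : (fun x : QT m N v => β' x.1.1) = 0 := by
    funext x
    exact if_pos x.2
  have e2 : (fun x : QR m N v => β' x.1.1) = (fun x : QR m N v => β x.1.1) := by
    funext x
    exact if_neg x.2
  refine dvd_of_prod (A := fun a => Z (QT m N v) m a)
    (B := fun a => ZB (P := QR m N v) m ∅ 0 (fun x => β x.1.1) a) (α := 1)
    (β := (lv P m).card - 2) (N := Kb m - 1) (u := below (QT m N v) m) ?_ ?_ ?_ n hn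
  · rw [Z_zero, S.lv_T W]
  · intro a
    refine dvd_Z_of_dvd_W ?_ a
    rw [pow_one]
    exact dvd_W_one ⟨S.vT W, by rw [S.lev_vT W]; omega⟩
  · intro n hn
    have h3 := S.bounds W β' (fun x hx => by
      show (if topOf x = topOf v then 0 else β x) ≤ _
      split_ifs with h
      · exact Nat.zero_le _
      · exact hβ x hx h) n hn
    rw [S.prod W, e1, e2, show (lv P m).card - 1 = 1 + ((lv P m).card - 2) by omega] at h3
    convert h3 using 2
    rw [Z_eq_ZB]

lemma StarF.vs_v (W : WM r m N b θ) (S : StarF m N b θ f v Nc co) (k : ℕ) :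
    vs m k v = NL m k + min k (hh m) := by
  have hm := W.ten
  have hh2 := hh_le m
  have h := vs_quad (k := k) (a := m + hh m) (v := v) (by omega) (by omega)
    (fun u hu => W.nab_quad S.q S.hlv (l := m + u) (by omega))
  rwa [Nat.add_sub_cancel_left] at h

lemma StarF.shift (W : WM r m N b θ) (S : StarF m N b θ f v Nc co) :
    ∑ x : QT m N v, min (hh m) (lev x - m) = NL m (hh m) + hh m := by
  classical
  have h1 := ct_eq_sum m (hh m) (S.vT W)
  rw [Finset.sum_congr rfl (fun x _ => if_pos (S.vT_le W x)), S.ctT W] at h1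
  rw [← h1]
  have h2 := ct_mid (k := hh m) S.hlv
  have h3 := S.vs_v W (hh m)
  rw [Nat.min_self] at h3
  exact h2.trans h3

lemma StarF.T_zero (W : WM r m N b θ) (S : StarF m N b θ f v Nc co) {a : ℕ}
    (ha : a < NL m (hh m) + hh m) :
    ZB (P := QT m N v) m ∅ 0 (sgz (S.vT W) (hh m)) a = 0 := by
  have hm := W.ten
  refine ZB_bottom_zero (S.vT_le W) (by rw [S.lev_vT W]; omega) ?_
  rw [S.shift W]
  exact ha

lemma StarF.T_eq (W : WM r m N b θ) (S : StarF m N b θ f v Nc co) (a : ℕ) :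
    ZB (P := QT m N v) m ∅ 0 (sgz (S.vT W) (hh m)) (a + (NL m (hh m) + hh m)) =
      Z (QT m N v) (m + hh m) a := by
  have hm := W.ten
  rw [← S.shift W]
  exact ZB_bottom (S.vT_le W) (by rw [S.lev_vT W]; omega) a

lemma StarF.T_dvd (W : WM r m N b θ) (S : StarF m N b θ f v Nc co) {a : ℕ}
    (ha : a ≤ NL m (hh m) + m) :
    (1 + X : ℤ[X]) ^ 2 ∣ ZB (P := QT m N v) m ∅ 0 (sgz (S.vT W) (hh m)) a := by
  have hm := W.ten
  have hh1 := hh_pos m
  have hh2 := hh_le m
  rcases Nat.lt_or_ge a (NL m (hh m) + hh m) with h | h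
  · rw [S.T_zero W h]
    exact dvd_zero _
  · obtain ⟨a', rfl⟩ : ∃ a', a = a' + (NL m (hh m) + hh m) := ⟨a - (NL m (hh m) + hh m), by omega⟩
    rw [S.T_eq W]
    obtain ⟨φ⟩ := S.isoT W
    exact quadric_dvd φ (by omega) (by omega)

lemma StarF.T_lead (W : WM r m N b θ) (S : StarF m N b θ f v Nc co) :
    (1 + X : ℤ[X]) ^ 2 ∣ ZB (P := QT m N v) m ∅ 0 (sgz (S.vT W) (hh m)) (NL m (hh m) + m + 1) +
      X ^ (m + hh m + 2) * (1 + X) := by
  have hm := W.ten
  have hh1 := hh_pos m
  have hh2 := hh_le m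
  rw [show NL m (hh m) + m + 1 = (m - hh m + 1) + (NL m (hh m) + hh m) by omega, S.T_eq W]
  obtain ⟨φ⟩ := S.isoT W
  exact quadric_lead φ (by omega)

/-- bounds on the part of `v` -/
lemma StarF.beta_T (W : WM r m N b θ) (S : StarF m N b θ f v Nc co) {β : P → ℕ}
    (hv : β v = hh m) (hv' : ∀ x, x ∉ Rq m N v → topOf x = topOf v → x ≠ v → β x = 0) :
    (fun x : QT m N v => β x.1.1) = sgz (S.vT W) (hh m) := by
  funext x
  by_cases hx : x = S.vT W
  · rw [hx, sgz_self]
    exact hv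
  · rw [sgz_ne _ hx]
    refine hv' _ x.1.2 x.2 fun h => hx ?_
    exact Subtype.ext (Subtype.ext h)

lemma StarF.R_zero (W : WM r m N b θ) (S : StarF m N b θ f v Nc co) {β : P → ℕ}
    (hf : hh m ≤ β f) {n : ℕ} (hn : n < NF m (hh m)) :
    ZB (P := QR m N v) m ∅ 0 (fun x => β x.1.1) n = 0 := by
  have hm := W.ten
  refine ZB_bound_zero (z := S.fR W) (by rw [S.lev_fR W]; omega) ?_
  rw [S.ctR W]
  have h1 : ct m (hh m) f = NF m (hh m) := (ct_mid S.fold.lev).trans (S.fold.vs _)
  have h2 := ct_mono (i := m) (le_refl f) hf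
  have h3 : ct m (β f) f = ct m (β (S.fR W).1.1) ((S.fR W).1.1 : P) := rfl
  rw [← h3]
  omega

lemma one_add_X_monic : (1 + X : ℤ[X]).Monic := by
  have := monic_X_add_C (1 : ℤ)
  rwa [map_one, add_comm] at this

/-- the energies below the first pole -/
theorem StarF.main_lt (W : WM r m N b θ) (S : StarF m N b θ f v Nc co) {β : P → ℕ}
    (hv : β v = hh m) (hv' : ∀ x, x ∉ Rq m N v → topOf x = topOf v → x ≠ v → β x = 0)
    (hf : hh m ≤ β f)
    (hβ : ∀ x, x ∉ Rq m N v → topOf x ≠ topOf v → β x ≤ thX (twY (2 * m) N) (twT N)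
      (fun x => tq m θ f Nc co (topOf x) x) x) {n : ℕ}
    (hn : n ≤ NF m (hh m) + NL m (hh m) + m) :
    (1 + X : ℤ[X]) ^ (lv P m).card ∣ ZB m (Rq m N v) 0 β n := by
  have hm := W.ten
  have hh1 := hh_pos m
  have hE := E0_lt m (by omega)
  have h2 := S.two_le W
  rw [S.prod W, S.beta_T W hv hv']
  refine Finset.dvd_sum fun ab hab => ?_
  rw [HasAntidiagonal.mem_antidiagonal] at hab
  rcases Nat.lt_or_ge ab.2 (NF m (hh m)) with h | h
  · rw [S.R_zero W hf h, mul_zero]
    exact dvd_zero _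
  · rw [show (lv P m).card = 2 + ((lv P m).card - 2) by omega, pow_add]
    refine mul_dvd_mul (S.T_dvd W (by omega)) (S.dvd_R W β hβ ?_)
    unfold E0 at hE
    omega

/-- the number of forced elements in the leading term -/
noncomputable def kst (m : ℕ) (N : Tops P → Finset P) (v : P) : ℕ :=
  m + hh m + 2 + (below (QR m N v) m + sgF m) + 1

lemma StarF.sign (W : WM r m N b θ) (S : StarF m N b θ f v Nc co) :
    (-1 : ℤ) ^ (kst m N v) = - sg1 P m := by
  have h1 := S.below_R W
  unfold kst sg1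
  rw [← h1, show m + hh m + 2 + (below (QR m N v) m + sgF m) + 1 =
    (below (QR m N v) m + m + sgF m + hh m) + 3 by ring, pow_add]
  ring

lemma StarF.nst_f (W : WM r m N b θ) (S : StarF m N b θ f v Nc co) :
    nst m (fun _ => hh m) f = sgF m := by
  have hm := W.ten
  have hh1 := hh_pos m
  have hh2 := hh_le m
  have n0 := S.fold.nab (u := 0) (by omega)
  have n1 := S.fold.nab (u := 1) (by omega)
  rw [Nat.add_zero] at n0
  unfold sgF
  have h12 : hh m = 1 ∨ hh m = 2 := by omega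
  rcases h12 with h | h
  · rw [nst_one (h := fun _ => hh m) (z := f) h, n0, h, Finset.sum_range_one]
  · rw [nst_two (h := fun _ => hh m) (z := f) h, n0, n1, h, Finset.sum_range_succ,
      Finset.sum_range_one]

/-- the rest at its lowest energy -/
lemma StarF.R_lead (W : WM r m N b θ) (S : StarF m N b θ f v Nc co) {β : P → ℕ}
    (hf : β f = hh m) (hf' : ∀ x, x ∉ Rq m N v → topOf x ≠ topOf v → x ≠ f → β x = 0) :
    ZB (P := QR m N v) m ∅ 0 (fun x => β x.1.1) (NF m (hh m)) =
      X ^ (below (QR m N v) m + sgF m) * (1 + X) ^ ((lv P m).card - 2) := by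
  have hm := W.ten
  have hh1 := hh_pos m
  have hh2 := hh_le m
  have e1 : (fun x : QR m N v => β x.1.1) = sgz (S.fR W) (hh m) := by
    funext x
    by_cases hx : x = S.fR W
    · rw [hx, sgz_self]
      exact hf
    · rw [sgz_ne _ hx]
      refine hf' _ x.1.2 x.2 fun h => hx ?_
      exact Subtype.ext (Subtype.ext h)
  have hgr : GradedBelow (QR m N v) :=
    gbel_sub (S.upR W) (gbel_sub (S.up W) W.gt.H.gradedBelow)
  have h1 := ZD_lead (i := m) (k := hh m) (z := S.fR W) hgr hh1 (by rw [S.lev_fR W]; omega)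
  have h2 : ct m (hh m) (S.fR W) = NF m (hh m) := by
    rw [S.ctR W]
    exact (ct_mid S.fold.lev).trans (S.fold.vs _)
  rw [h2] at h1
  rw [e1]
  refine Eq.trans h1 ?_
  unfold Lt
  have n0 : nab m (S.fR W) = nF m 0 := by
    rw [S.nabR W]
    have := S.fold.nab (u := 0) (by omega)
    rwa [Nat.add_zero] at this
  have n1 : nab (m + hh m) (S.fR W) = nF m (hh m) := by
    rw [S.nabR W]
    exact S.fold.nab (u := hh m) (by omega)
  have n2 : nst m (fun _ => hh m) (S.fR W) = sgF m := by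
    rw [S.nstR W]
    exact S.nst_f W
  have h3 := nF_drop (m := m) (by omega)
  have h4 := S.lv_R W
  have h5 := nab_le (S.fR W) m
  rw [n0] at h5
  simp only
  rw [n0, n1, n2]
  congr 2
  omega

/-- the first pole -/
theorem StarF.main_eq (W : WM r m N b θ) (S : StarF m N b θ f v Nc co) {β : P → ℕ}
    (hv : β v = hh m) (hv' : ∀ x, x ∉ Rq m N v → topOf x = topOf v → x ≠ v → β x = 0)
    (hf : β f = hh m) (hf' : ∀ x, x ∉ Rq m N v → topOf x ≠ topOf v → x ≠ f → β x = 0)
    (hβ : ∀ x, x ∉ Rq m N v → topOf x ≠ topOf v → β x ≤ thX (twY (2 * m) N) (twT N)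
      (fun x => tq m θ f Nc co (topOf x) x) x) :
    (1 + X : ℤ[X]) ^ (lv P m).card ∣
      ZB m (Rq m N v) 0 β (NF m (hh m) + NL m (hh m) + m + 1) -
        X ^ (kst m N v) * (1 + X) ^ ((lv P m).card - 1) := by
  classical
  have hm := W.ten
  have hh1 := hh_pos m
  have hE := E0_lt m (by omega)
  have h2 := S.two_le W
  have hmem : ((NL m (hh m) + m + 1, NF m (hh m)) : ℕ × ℕ) ∈
      antidiagonal (NF m (hh m) + NL m (hh m) + m + 1) := by
    rw [HasAntidiagonal.mem_antidiagonal]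
    simp only
    omega
  rw [S.prod W, S.beta_T W hv hv', ← Finset.add_sum_erase _ _ hmem]
  simp only
  rw [S.R_lead W hf hf']
  have h3 : (1 + X : ℤ[X]) ^ (lv P m).card ∣
      ∑ ab ∈ (antidiagonal (NF m (hh m) + NL m (hh m) + m + 1)).erase
        (NL m (hh m) + m + 1, NF m (hh m)),
      ZB (P := QT m N v) m ∅ 0 (sgz (S.vT W) (hh m)) ab.1 *
        ZB (P := QR m N v) m ∅ 0 (fun x => β x.1.1) ab.2 := by
    refine Finset.dvd_sum fun ab hab => ?_
    rw [mem_erase, HasAntidiagonal.mem_antidiagonal] at hab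
    obtain ⟨hne, hab⟩ := hab
    rcases Nat.lt_or_ge ab.2 (NF m (hh m)) with h | h
    · rw [S.R_zero W hf.ge h, mul_zero]
      exact dvd_zero _
    · rcases Nat.lt_or_ge (NL m (hh m) + m) ab.1 with h4 | h4
      · exfalso
        exact hne (Prod.ext (by simp only; omega) (by simp only; omega))
      · rw [show (lv P m).card = 2 + ((lv P m).card - 2) by omega, pow_add]
        refine mul_dvd_mul (S.T_dvd W h4) (S.dvd_R W β hβ ?_)
        unfold E0 at hE
        omega
  obtain ⟨q1, hq1⟩ := S.T_lead W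
  obtain ⟨q2, hq2⟩ := h3
  rw [hq2]
  have e1 : ZB (P := QT m N v) m ∅ 0 (sgz (S.vT W) (hh m)) (NL m (hh m) + m + 1) =
      (1 + X) ^ 2 * q1 - X ^ (m + hh m + 2) * (1 + X) := by
    rw [← hq1]
    ring
  rw [e1]
  obtain ⟨c, hc⟩ : ∃ c, (lv P m).card = c + 2 := ⟨(lv P m).card - 2, by omega⟩
  rw [hc, show c + 2 - 2 = c by omega, show c + 2 - 1 = c + 1 by omega]
  unfold kst
  refine ⟨q1 * X ^ (below (QR m N v) m + sgF m) + q2 -
    X ^ (m + hh m + 2 + (below (QR m N v) m + sgF m)), ?_⟩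
  ring

end Pool.Agent.GaussPoset
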