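import Pool.Agent.W_448s8_h76.SaQ

/-!
The labels below a star family, the first pole (MP_448cb3_co, S8).
-/

namespace Pool.Agent.GaussPoset

set_option linter.unusedSectionVars false

open Polynomial Finset

universe u

variable {P : Type u} [Fintype P] [PartialOrder P] [DecidableEq P] {r m : ℕ}
  {N : Tops P → Finset P} {b : Tops P → ℕ} {θ : Tops P → P → ℕ}
  {f v : P} {Nc : Finset P} {co : P → ℕ × ℕ}

lemma two_anchor {e c : P → ℕ} {k1 k2 : ℕ} (hf : ∀ x, f ≤ x → min k1 (lev x - m) ≤ e x)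
    (hv : ∀ x, v ≤ x → min k2 (lev x - m) ≤ e x) (hdis : ∀ x, f ≤ x → v ≤ x → False)
    (T : Finset P) (hT : ∀ y ∈ T, ¬ f ≤ y ∧ ¬ v ≤ y) (hc : ∀ y ∈ T, c y ≤ e y) :
    ct m k1 f + ct m k2 v + ∑ y ∈ T, c y ≤ ∑ x, e x := by
  classical
  have h1 : ∑ y ∈ T, c y = ∑ x, (if x ∈ T then c x else 0) := by
    rw [Finset.sum_ite_mem, Finset.univ_inter]
  rw [ct_eq_sum, ct_eq_sum, h1, ← Finset.sum_add_distrib, ← Finset.sum_add_distrib]
  refine Finset.sum_le_sum fun x _ => ?_
  by_cases h2 : x ∈ T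
  · have h3 := hT x h2
    rw [if_neg h3.1, if_neg h3.2, if_pos h2, Nat.zero_add]
    exact hc x h2
  · rw [if_neg h2, Nat.add_zero]
    by_cases h3 : f ≤ x
    · rw [if_pos h3, if_neg (fun h4 => hdis x h3 h4), Nat.add_zero]
      exact hf x h3
    · rw [if_neg h3, Nat.zero_add]
      split_ifs with h4
      · exact hv x h4
      · exact Nat.zero_le _

/-- a star join below `f` and `v` -/
structure StarZ (m : ℕ) (N : Tops P → Finset P) (b : Tops P → ℕ) (θ : Tops P → P → ℕ)
    (f v z : P) : Prop where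
  bd : z ∈ bdR (r2 (2 * m) N)
  st : StM m N b θ z
  hl : lev z = 2 * m + 1
  zf : z ⋖ f
  zv : z ⋖ v
  lab : h2 (2 * m) N θ z = hh m
  hcst : cst m (h2 (2 * m) N θ) z = E0 m + hh m

lemma NF_succ (m k : ℕ) (hk : k + 1 ≤ m) : NF m k + 1 ≤ NF m (k + 1) := by
  unfold NF
  have h1 : ∑ u ∈ range (m + 1), (min k u * nF m u + if u = k + 1 then 1 else 0) ≤
      ∑ u ∈ range (m + 1), min (k + 1) u * nF m u := by
    refine Finset.sum_le_sum fun u hu => ?_
    rw [mem_range] at hu
    by_cases h : u = k + 1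
    · subst h
      have h2 : 1 ≤ nF m (k + 1) := by
        unfold nF
        omega
      rw [if_pos rfl, Nat.min_eq_left (Nat.le_succ k), Nat.min_self]
      nlinarith
    · rw [if_neg h, Nat.add_zero]
      exact Nat.mul_le_mul_right _ (min_le_min (Nat.le_succ k) le_rfl)
  rw [Finset.sum_add_distrib, Finset.sum_ite_eq' (range (m + 1)) (k + 1),
    if_pos (mem_range.mpr (by omega))] at h1
  exact h1

lemma NL_succ (m k : ℕ) (hk : k ≤ m) : NL m (k + 1) = NL m k + (m - k) := by
  unfold NL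
  have h2 : ∀ n, k ≤ n → ∑ u ∈ range (n + 1), min (k + 1) u =
      ∑ u ∈ range (n + 1), min k u + (n - k) := by
    intro n hn
    induction n, hn using Nat.le_induction with
    | base =>
      rw [Nat.sub_self, Nat.add_zero]
      refine Finset.sum_congr rfl fun u hu => ?_
      rw [mem_range] at hu
      omega
    | succ n hn ih =>
      rw [Finset.sum_range_succ, ih, Finset.sum_range_succ _ (n + 1)]
      omega
  exact h2 m hk

lemma StarF.dis (W : WM r m N b θ) (S : StarF m N b θ f v Nc co) {x : P} (h1 : f ≤ x)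
    (h2 : v ≤ x) : False :=
  W.disjL S.fold.lev.le S.hlv.le S.ne h1 h2

/-- an element of the frozen set in the filter costs too much -/
lemma StarF.no_filter (W : WM r m N b θ) (S : StarF m N b θ f v Nc co) {e : P → ℕ}
    {F : Finset P} (hV : Vd m e F) {n : ℕ} (hs : ∑ x, e x = n) (hn : n ≤ E0 m + m + 1) {z : P}
    (Z : StarZ m N b θ f v z) (hd : Dgz (h2 (2 * m) N θ) e F z) {x : P} (hx : x ∈ Rq m N v) :
    x ∉ F := by
  classical
  intro hxF
  have hm := W.ten
  have hh2 := hh_le m
  have hlx := S.lev_Rq W hx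
  obtain ⟨y1, hy1, hl1⟩ := exists_above' (x := x) (j := 2 * m) hlx.le
  obtain ⟨y2, hy2, hl2⟩ := exists_above' (x := x) (j := 2 * m - 1) (by omega)
  have f1 := sub_le_of_mem hV (hV.1 x y1 hy1 hxF)
  have f2 := sub_le_of_mem hV (hV.1 x y2 hy2 hxF)
  have hc := ez_le hV (by rw [Z.hl]; omega) hd
  have hcb : ∀ y, ez m (h2 (2 * m) N θ) z y ≤ hh m := by
    intro y
    unfold ez
    split_ifs
    · rw [Z.lab]
      exact min_le_left _ _
    · exact Nat.zero_le _
  have hne : y1 ≠ y2 := by
    rintro rfl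
    omega
  have h1 : ∑ y, (ez m (h2 (2 * m) N θ) z y + ((if y = y1 then m - hh m else 0) +
      (if y = y2 then m - 1 - hh m else 0))) ≤ ∑ y, e y := by
    refine Finset.sum_le_sum fun y _ => ?_
    have hcy := hc y
    have hby := hcb y
    by_cases g1 : y = y1
    · subst g1
      rw [if_pos rfl, if_neg hne]
      omega
    · rw [if_neg g1, Nat.zero_add]
      by_cases g2 : y = y2
      · subst g2
        rw [if_pos rfl]
        omega
      · rw [if_neg g2, Nat.add_zero]
        exact hcy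
  rw [Finset.sum_add_distrib, Finset.sum_add_distrib, Finset.sum_ite_eq' univ y1,
    Finset.sum_ite_eq' univ y2, if_pos (mem_univ _), if_pos (mem_univ _)] at h1
  have h2 := Z.hcst
  unfold cst at h2
  omega

/-- the labels of configurations of small energy -/
theorem StarF.good_labels (W : WM r m N b θ) (S7 : S7M m N b θ) (S : StarF m N b θ f v Nc co)
    {g e : P → ℕ} {F : Finset P} (hC : Cst m (Rq m N v) g 0 e F) {n : ℕ} (hs : ∑ x, e x = n)
    (hn : n ≤ E0 m + m + 1) {z : P} (Z : StarZ m N b θ f v z) (hg : hh m ≤ g z) :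
    (∀ y ∈ Rq m N v, y ⋖ v → g y ≤ hh m) ∧
    ∀ y ∈ Rq m N v, ∀ x, x ∉ Rq m N v → y ⋖ x → topOf x ≠ topOf v →
      g y ≤ thX (twY (2 * m) N) (twT N) (fun x => tq m θ f Nc co (topOf x) x) x := by
  classical
  have hm := W.ten
  have hh1 := hh_pos m
  have hh2 := hh_le m
  have H := W.gt.H
  obtain ⟨hV, hR, -⟩ := hC
  have hzR : z ∈ Rq m N v := (S.mem_Rq W).mpr (Or.inl (bd_mem Z.bd))
  have hez : hh m ≤ e z := by
    rw [(hR z hzR).2]
    exact hg
  have hE : E0 m = NF m (hh m) + NL m (hh m) + hh m := rfl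
  have hup : ∀ (w : P), m < lev w → ∀ k, k ≤ e w → ∀ x, w ≤ x → min k (lev x - m) ≤ e x := by
    intro w hw k hk x hx
    have h1 := ez_le (h := fun _ => k) hV hw (Or.inr hk) x
    unfold ez at h1
    rwa [if_pos hx] at h1
  have ctf : ∀ k, ct m k f = NF m k := fun k => (ct_mid S.fold.lev).trans (S.fold.vs k)
  have ctv : ∀ k, ct m k v = NL m k + min k (hh m) := fun k => (ct_mid S.hlv).trans (S.vs_v W k)
  have hnot : ∀ w : P, lev w = 2 * m + 1 → ¬ f ≤ w ∧ ¬ v ≤ w := by
    intro w hw
    have key : ∀ a : P, lev a = 2 * m → ¬ a ≤ w := by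
      intro a ha haw
      rcases eq_or_lt_of_le haw with h | h
      · rw [h] at ha
        omega
      · have := lev_strictAnti h
        omega
    exact ⟨key f S.fold.lev, key v S.hlv⟩
  have hG1 : ∀ y ∈ Rq m N v, y ⋖ v → g y ≤ hh m := by
    intro y hy hyv
    by_contra hcon
    have hly : lev y = 2 * m + 1 := by
      have h1 := (H.covBy_iff.mp hyv).2
      have h2 := S.hlv
      omega
    have hey : hh m + 1 ≤ e y := by
      rw [(hR y hy).2]
      omega
    have hNL := NL_succ m (hh m) (by omega)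
    by_cases hyz : y = z
    · subst hyz
      have h1 := two_anchor (m := m) (f := f) (v := v) (e := e) (c := e) (k1 := hh m + 1)
        (k2 := hh m + 1)
        (fun x hx => hup y (by omega) _ hey x (Z.zf.1.le.trans hx))
        (fun x hx => hup y (by omega) _ hey x (Z.zv.1.le.trans hx))
        (fun x => S.dis W) {y} (fun w hw => by
          rw [mem_singleton] at hw
          rw [hw]
          exact hnot y hly) (fun _ _ => le_rfl)
      rw [Finset.sum_singleton, ctf, ctv] at h1
      have h2 := NF_succ m (hh m) (by omega)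
      omega
    · have h1 := two_anchor (m := m) (f := f) (v := v) (e := e) (c := e) (k1 := hh m)
        (k2 := hh m + 1)
        (fun x hx => hup z (by rw [Z.hl]; omega) _ hez x (Z.zf.1.le.trans hx))
        (fun x hx => hup y (by omega) _ hey x (hyv.1.le.trans hx))
        (fun x => S.dis W) {y, z} (fun w hw => by
          rw [mem_insert, mem_singleton] at hw
          rcases hw with rfl | rfl
          · exact hnot w hly
          · exact hnot w Z.hl) (fun _ _ => le_rfl)
      rw [Finset.sum_pair hyz, ctf, ctv] at h1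
      omega
  refine ⟨hG1, ?_⟩
  intro y hy x hx hyx hxt
  -- the element `y` is a boundary element of the old set
  have hyR : y ∈ r2 (2 * m) N := by
    rcases (S.mem_Rq W).mp hy with h | ⟨h1, h2⟩
    · exact h
    · by_contra hcon
      have hyY : y ∉ twY (2 * m) N := fun h => S.tw_ne W h h1
      have hyN : y ∉ unnat N := fun h => hcon (mem_sdiff.mpr ⟨h, hyY⟩)
      exact hxt ((W.natSys.cp y x hyx.1.le hyN).symm.trans h1)
  have hxR : x ∉ r2 (2 * m) N := fun h => hx ((S.mem_Rq W).mpr (Or.inl h))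
  have hyb : y ∈ bdR (r2 (2 * m) N) := mem_filter.mpr ⟨hyR, x, hxR, hyx⟩
  by_cases hyA : y ∈ fam m N z
  · have hup2 := (mem_fam.mp hyA).2
    have h1 : z ⋖ x := (cov_of_up hup2).mpr hyx
    have hfv : f ≠ v := fun h => S.ne (by rw [h])
    rcases uc_pair H Z.zf Z.zv hfv h1 with h2 | h2
    · subst h2
      have h3 : x ∉ twY (2 * m) N := by
        intro h
        have h4 := (mem_twY.mp h).2.1
        have h5 := S.fold.lev
        omega
      rw [thX_not h3, S.th_f W]
      have h4 := hG1 y hy ((cov_of_up hup2).mp Z.zv)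
      rw [hh_eq] at h4
      omega
    · exact absurd (by rw [h2]) hxt
  · have h1 := W.U_st S7 Z.bd hyb Z.st hyA
    have h3 : g y < h2 (2 * m) N θ y := by
      by_contra hcon
      have h4 : h2 (2 * m) N θ y ≤ e y := by
        rw [(hR y hy).2]
        exact not_lt.mp hcon
      have h5 := ez_le (h := h2 (2 * m) N θ) hV (by
        have := S.lev_Rq W hy
        omega) (Or.inr h4)
      have h6 := ez_le (h := h2 (2 * m) N θ) (z := z) hV (by rw [Z.hl]; omega) (Or.inr (by
        rw [Z.lab]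
        exact hez))
      have h7 : Uu m (h2 (2 * m) N θ) z y ≤ ∑ x, e x :=
        Finset.sum_le_sum fun w _ => max_le (h6 w) (h5 w)
      omega
    have h4 : h2 (2 * m) N θ y ≤
        thX (twY (2 * m) N) (twT N) (fun x => θ (topOf x) x) x + 1 := hcan_le hxR hyx
    have h5 : thX (twY (2 * m) N) (twT N) (fun x => θ (topOf x) x) x ≤
        thX (twY (2 * m) N) (twT N) (fun x => tq m θ f Nc co (topOf x) x) x := by
      unfold thX
      split_ifs
      · exact S.th_le _ _
      · exact S.th_le _ _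
    omega

/-- bounds from the labels -/
lemma StarF.bg_v (W : WM r m N b θ) (S : StarF m N b θ f v Nc co) {g : P → ℕ}
    (h1 : ∀ y ∈ Rq m N v, y ⋖ v → g y ≤ hh m) {z : P} (Z : StarZ m N b θ f v z)
    (hg : hh m ≤ g z) : bg (Rq m N v) g 0 v = hh m := by
  have hzR : z ∈ Rq m N v := (S.mem_Rq W).mpr (Or.inl (bd_mem Z.bd))
  exact le_antisymm (bg_le (Nat.zero_le _) h1) (hg.trans (le_bg' 0 hzR Z.zv))

lemma StarF.bg_T (W : WM r m N b θ) (S : StarF m N b θ f v Nc co) {g : P → ℕ} {x : P}
    (hx : x ∉ Rq m N v) (ht : topOf x = topOf v) (hne : x ≠ v) :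
    bg (Rq m N v) g 0 x = 0 := by
  have h1 := S.mem_T W hx ht
  refine Nat.le_zero.mp (bg_le (Nat.zero_le _) fun y hy hyx => ?_)
  exfalso
  have h2 := S.lev_Rq W hy
  have h3 := (W.gt.H.covBy_iff.mp hyx).2
  exact hne (S.q.unique h1.1 (le_topOf v) (by omega) S.hlv)

/-- the contribution of a label -/
theorem StarF.term_dvd (W : WM r m N b θ) (S7 : S7M m N b θ) (S : StarF m N b θ f v Nc co)
    {g : P → ℕ} (hg0 : ∀ x, x ∉ Rq m N v → g x = 0) {z : P} (Z : StarZ m N b θ f v z)
    (hg : hh m ≤ g z) {n : ℕ} (hn : n ≤ E0 m + m + 1)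
    (hne : ¬ (n = E0 m + m + 1 ∧ g = sgz z (hh m))) :
    (1 + X : ℤ[X]) ^ (lv P m).card ∣ ZB m (Rq m N v) g 0 n := by
  classical
  have hm := W.ten
  have hE : E0 m = NF m (hh m) + NL m (hh m) + hh m := rfl
  have hlev : ∀ x ∈ Rq m N v, m < lev x := fun x hx => by
    have := S.lev_Rq W hx
    omega
  have hzR : z ∈ Rq m N v := (S.mem_Rq W).mpr (Or.inl (bd_mem Z.bd))
  by_cases hex : ∃ e F, Cst m (Rq m N v) g 0 e F ∧ ∑ x, e x = n
  · obtain ⟨e, F, hC, hs⟩ := hex
    obtain ⟨G1, G2⟩ := S.good_labels W S7 hC hs hn Z hg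
    by_cases hc : ∀ x ∈ Rq m N v, ∀ y ∈ Rq m N v, x ≤ y → g x ≤ g y
    · have hsum : g z ≤ ∑ x, g x := Finset.single_le_sum (fun _ _ => Nat.zero_le _) (mem_univ z)
      have hle : ∑ x, g x ≤ n := by
        rw [← hs]
        refine Finset.sum_le_sum fun x _ => ?_
        by_cases hx : x ∈ Rq m N v
        · exact (hC.2.1 x hx).2.ge
        · rw [hg0 x hx]
          exact Nat.zero_le _
      obtain ⟨n', hn'⟩ : ∃ n', n = n' + ∑ x, g x := ⟨n - ∑ x, g x, by omega⟩
      rw [hn', ZB_shift 0 (S.lower W) hlev hg0 hc]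
      refine S.main_lt W (S.bg_v W G1 Z hg) (fun x hx ht hxv => S.bg_T W hx ht hxv)
        (hg.trans (le_bg' 0 hzR Z.zf)) (fun x hx ht => bg_le (Nat.zero_le _)
          fun y hy hyx => G2 y hy x hx hyx ht) ?_
      by_contra hcon
      refine hne ⟨by omega, ?_⟩
      have h5 : ∑ x, g x = hh m := by omega
      have h6 : g z = hh m := by omega
      funext x
      by_cases hx : x = z
      · rw [hx, sgz_self, h6]
      · rw [sgz_ne _ hx]
        have h7 : g z + g x ≤ ∑ x, g x := by
          rw [← Finset.add_sum_erase univ g (mem_univ z)]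
          exact Nat.add_le_add_left (Finset.single_le_sum (f := g) (fun _ _ => Nat.zero_le _)
            (mem_erase.mpr ⟨hx, mem_univ x⟩)) _
        omega
    · rw [ZB_zero_of_not_compat 0 hlev hc]
      exact dvd_zero _
  · have : ZB m (Rq m N v) g 0 n = 0 := by
      unfold ZB
      refine Finset.sum_eq_zero fun F _ => ?_
      rw [Finset.filter_eq_empty_iff.mpr, Finset.sum_empty]
      intro e he hC
      rw [mem_piAntidiag] at he
      exact hex ⟨e, F, hC, he.1⟩
    rw [this]
    exact dvd_zero _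

/-- the contribution of the lowest label -/
theorem StarF.term_lead (W : WM r m N b θ) (S : StarF m N b θ f v Nc co) {z : P}
    (Z : StarZ m N b θ f v z) :
    (1 + X : ℤ[X]) ^ (lv P m).card ∣ ZB m (Rq m N v) (sgz z (hh m)) 0 (E0 m + m + 1) -
      X ^ (kst m N v) * (1 + X) ^ ((lv P m).card - 1) := by
  classical
  have hm := W.ten
  have hh1 := hh_pos m
  have hE : E0 m = NF m (hh m) + NL m (hh m) + hh m := rfl
  have H := W.gt.H
  have hlev : ∀ x ∈ Rq m N v, m < lev x := fun x hx => by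
    have := S.lev_Rq W hx
    omega
  have hzR : z ∈ Rq m N v := (S.mem_Rq W).mpr (Or.inl (bd_mem Z.bd))
  have hfv : f ≠ v := fun h => S.ne (by rw [h])
  have hsum : ∑ x, sgz z (hh m) x = hh m := by
    unfold sgz
    rw [Finset.sum_ite_eq' univ z, if_pos (mem_univ z)]
  have hle : ∀ y, sgz z (hh m) y ≤ hh m := by
    intro y
    unfold sgz
    split_ifs
    · exact le_rfl
    · exact Nat.zero_le _
  have hg0 : ∀ x, x ∉ Rq m N v → sgz z (hh m) x = 0 := fun x hx =>
    sgz_ne _ (fun h => hx (h ▸ hzR))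
  have hc : ∀ x ∈ Rq m N v, ∀ y ∈ Rq m N v, x ≤ y → sgz z (hh m) x ≤ sgz z (hh m) y := by
    intro x hx y hy hxy
    by_cases h1 : x = z
    · subst h1
      have h2 : y = x := by
        by_contra hne
        have h3 : x < y := lt_of_le_of_ne hxy (Ne.symm hne)
        have h4 := lev_strictAnti h3
        have h5 := S.lev_Rq W hy
        have h6 := Z.hl
        omega
      rw [h2]
    · rw [sgz_ne _ h1]
      exact Nat.zero_le _
  rw [show E0 m + m + 1 = (NF m (hh m) + NL m (hh m) + m + 1) + ∑ x, sgz z (hh m) x by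
    rw [hsum]
    omega, ZB_shift 0 (S.lower W) hlev hg0 hc]
  have hcov : ∀ x, z ⋖ x → topOf x ≠ topOf v → x = f := by
    intro x hzx hxt
    rcases uc_pair H Z.zf Z.zv hfv hzx with h | h
    · exact h
    · exact absurd (by rw [h]) hxt
  refine S.main_eq W (S.bg_v W (fun y _ _ => hle y) Z (by rw [sgz_self]))
    (fun x hx ht hxv => S.bg_T W hx ht hxv) ?_ ?_ ?_
  · refine le_antisymm (bg_le (Nat.zero_le _) fun y _ _ => hle y) ?_
    have := le_bg' (g := sgz z (hh m)) 0 hzR Z.zf
    rwa [sgz_self] at this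
  · intro x hx ht hxf
    refine Nat.le_zero.mp (bg_le (Nat.zero_le _) fun y hy hyx => ?_)
    by_cases h1 : y = z
    · subst h1
      exact absurd (hcov x hyx ht) hxf
    · rw [sgz_ne _ h1]
  · intro x hx ht
    refine bg_le (Nat.zero_le _) fun y hy hyx => ?_
    by_cases h1 : y = z
    · subst h1
      have h2 := hcov x hyx ht
      subst h2
      have h3 : x ∉ twY (2 * m) N := by
        intro h
        have h4 := (mem_twY.mp h).2.1
        have h5 := S.fold.lev
        omega
      rw [thX_not h3, S.th_f W, sgz_self, hh_eq]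
      omega
    · rw [sgz_ne _ h1]
      exact Nat.zero_le _

/-- the star families: the first pole is at `E0 m + m + 1`, always with the same sign -/
theorem WM.star (W : WM r m N b θ) (S7 : S7M m N b θ) {z0 : P}
    (hz0 : z0 ∈ bdR (r2 (2 * m) N)) (hst : StM m N b θ z0) :
    Fz m N θ z0 (E0 m + m + 1) (- sg1 P m) := by
  classical
  have hm := W.ten
  have hh1 := hh_pos m
  have H := W.gt.H
  have hst0 := hst
  obtain ⟨hl, f, v, hf, hv, hv1, hne, hzf, hzv, hq⟩ := hst
  obtain ⟨Nc, co, hFT⟩ := W.fold_typ hf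
  have hlv : lev v = 2 * m := by
    have := (H.covBy_iff.mp hzv).2
    omega
  have S : StarF m N b θ f v Nc co := ⟨hf, hFT, hq, hne, hlv⟩
  have hZ : ∀ z ∈ fam m N z0, StarZ m N b θ f v z := by
    intro z hz
    obtain ⟨h1, h2⟩ := mem_fam.mp hz
    have hlz : lev z = 2 * m + 1 := by
      rw [← lev_eq_of_up h2]
      exact hl
    have h3 := (cov_of_up h2).mp hzf
    have h4 := (cov_of_up h2).mp hzv
    obtain ⟨-, s, hn⟩ := W.num_star (bd_mem h1) hlz hf hv hne h3 h4 hq
    exact ⟨h1, hst0.same h2, hlz, h3, h4, hn.lab, hn.cst⟩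
  have hAR : fam m N z0 ⊆ Rq m N v := fun z hz =>
    (S.mem_Rq W).mpr (Or.inl (bd_mem (hZ z hz).bd))
  have hlab : ∀ n, n ≤ E0 m + m + 1 → ZF m (h2 (2 * m) N θ) (fam m N z0) n =
      ∑ g ∈ Fintype.piFinset (fun _ : P => range (n + 1)),
        if (∀ x, x ∉ Rq m N v → g x = 0) ∧ (∃ z ∈ fam m N z0, h2 (2 * m) N θ z ≤ g z) then
          ZB m (Rq m N v) g 0 n else 0 := by
    intro n hn
    refine ZF_labels hAR ?_
    rintro e F hV hs ⟨z, hz, hd⟩ x hx
    exact S.no_filter W hV hs hn (hZ z hz) hd hx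
  constructor
  · intro n hn
    rw [hlab n hn.le]
    refine Finset.dvd_sum fun g _ => ?_
    split_ifs with h
    · obtain ⟨h1, z, hz, h3⟩ := h
      rw [(hZ z hz).lab] at h3
      exact S.term_dvd W S7 h1 (hZ z hz) h3 hn.le (fun h4 => by omega)
    · exact dvd_zero _
  · refine ⟨fun _ => kst m N v, ?_, fun _ _ => S.sign W⟩
    rw [hlab _ le_rfl]
    set n := E0 m + m + 1 with hn
    set I := (fam m N z0).image (fun z => sgz z (hh m)) with hI
    have hE : E0 m = NF m (hh m) + NL m (hh m) + hh m := rfl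
    have hsub : I ⊆ Fintype.piFinset (fun _ : P => range (n + 1)) := by
      intro g hg
      obtain ⟨z, hz, rfl⟩ := mem_image.mp hg
      rw [Fintype.mem_piFinset]
      intro x
      rw [mem_range]
      unfold sgz
      split_ifs <;> omega
    have hinj : ∀ z ∈ fam m N z0, ∀ z' ∈ fam m N z0, sgz z (hh m) = sgz z' (hh m) → z = z' := by
      intro z _ z' _ h
      by_contra hzz
      have h1 := congrFun h z
      rw [sgz_self, sgz_ne _ hzz] at h1
      omega
    rw [← Finset.sum_sdiff hsub, hI, Finset.sum_image hinj, ← hI, add_sub_assoc,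
      ← Finset.sum_sub_distrib]
    refine dvd_add (Finset.dvd_sum fun g hg => ?_) (Finset.dvd_sum fun z hz => ?_)
    · split_ifs with h
      · obtain ⟨h1, z, hz, h3⟩ := h
        rw [(hZ z hz).lab] at h3
        refine S.term_dvd W S7 h1 (hZ z hz) h3 le_rfl (fun h4 => ?_)
        refine (mem_sdiff.mp hg).2 ?_
        rw [hI, h4.2]
        exact mem_image_of_mem _ hz
      · exact dvd_zero _
    · rw [if_pos]
      · exact S.term_lead W (hZ z hz)
      · refine ⟨fun x hx => sgz_ne _ (fun h => hx (h ▸ hAR hz)), z, hz, ?_⟩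
        rw [sgz_self, (hZ z hz).lab]

end Pool.Agent.GaussPoset
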