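import Pool.Agent.W_448s8_h76.SaR
import Pool.Agent.W_448fc_h67.FcO
import Pool.Agent.W_448s8_h94.DaD
import Pool.Agent.W_448s8_h61.DD
import Pool.Agent.W_448s7_h5.SevGn

/-!
# S8: the fold ends (MP_448cb3_co)

An element of level `2 m + 1` below a fold end is natural or a twin of a natural element.
-/

namespace Pool.Agent.GaussPoset

set_option linter.unusedSectionVars false

open Polynomial Finset

universe u

variable {P : Type u} [Fintype P] [PartialOrder P] [DecidableEq P] {r m : ℕ}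
  {N : Tops P → Finset P} {b : Tops P → ℕ} {θ : Tops P → P → ℕ}

lemma sg1_ne (P : Type u) [Fintype P] [PartialOrder P] [DecidableEq P] (m : ℕ) :
    sg1 P m ≠ 0 := pow_ne_zero _ (by norm_num)

/-- the boundary: large cost or two fold ends -/
theorem WM.rows4 (W : WM r m N b θ) (S7 : S7M m N b θ) {z : P}
    (hz : z ∈ bdR (r2 (2 * m) N)) : Kb m - 1 ≤ cst m (h2 (2 * m) N θ) z ∨
      (lev z = 2 * m + 1 ∧ ∃ x x', FoldM m N b θ x ∧ FoldM m N b θ x' ∧ topOf x ≠ topOf x' ∧
        z ⋖ x ∧ z ⋖ x') :=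
  W.rows3 S7 (σ := - sg1 P m) (neg_ne_zero.mpr (sg1_ne P m)) (fun _ hz hc => W.fz_cc hz hc)
    (fun _ hz hs => W.star S7 hz hs) hz

/-- fold ends are no quadric ends -/
lemma WM.fold_not_quad (W : WM r m N b θ) {x : P} (h : FoldM m N b θ x) (h' : QdM m N θ x) :
    False := by
  have hm := W.ten
  have h1 := W.nab_quad h'.inf h.lev (l := m) (by omega)
  rw [if_pos rfl] at h1
  have h2 := h.nab (u := 0) (by omega)
  rw [Nat.add_zero, h1] at h2
  unfold nF at h2
  omega

/-- fold ends are not full -/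
lemma WM.fold_not_full (W : WM r m N b θ) {x : P} (h : FoldM m N b θ x)
    (h' : FullM m N θ x) : False := by
  have hm := W.ten
  have h1 := h.th
  rw [h'.th, h.lev] at h1
  omega

/-- elements below a fold end, in the set `r2` -/
theorem WM.below_fold (W : WM r m N b θ) (S7 : S7M m N b θ) {z x : P}
    (hl : lev z = 2 * m + 1) (hz : z ∈ r2 (2 * m) N) (hx : FoldM m N b θ x) (hzx : z ⋖ x) :
    ∃ x', FoldM m N b θ x' ∧ topOf x ≠ topOf x' ∧ z ⋖ x' := by
  have H := W.gt.H
  have hm := W.ten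
  have I := numI W.ten
  have i1 := I.i3
  have i4 := I.i4
  have hh2 := hh_le m
  have hzb := W.mem_bd hz hl
  have key : ∀ y y', FoldM m N b θ y → FoldM m N b θ y' → topOf y ≠ topOf y' → z ⋖ y → z ⋖ y' →
      ∃ x', FoldM m N b θ x' ∧ topOf x ≠ topOf x' ∧ z ⋖ x' := by
    intro y y' hy hy' ht hzy hzy'
    have hne : y ≠ y' := fun h => ht (by rw [h])
    rcases uc_pair H hzy hzy' hne hzx with h7 | h7
    · subst h7
      exact ⟨y', hy', ht, hzy'⟩
    · subst h7
      exact ⟨y, hy, Ne.symm ht, hzy⟩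
  rcases W.rows4 S7 hzb with h | ⟨-, y, y', hy, hy', ht, hzy, hzy'⟩
  · rcases W.class S7 hz hl with ⟨y, hy, hp⟩ | ⟨y, hy, hp⟩ | ⟨y, y', hy, hy', ht, hzy, hzy'⟩ |
      ⟨y, y', hy, hy', ht, hzy, hzy'⟩ | ⟨y, y', hy, hy', h1, ht, hzy, hzy'⟩ |
      ⟨y, y', Nc, co, hy, hcy, hy', hcy', hzy, hzy'⟩ | h5
    · have := (W.num_penF hz hl hy hp).cst
      omega
    · have h6 := hp.2 x hzx
      subst h6
      exact (W.fold_not_quad hx hy).elim
    · have h6 := (W.num_fq hz hl hy hy' ht hzy hzy').cst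
      rcases Nat.mod_two_eq_zero_or_one m with hp | hp
      · have := I.i6 hp
        omega
      · have := I.i7 hp
        omega
    · exact key y y' hy hy' ht hzy hzy'
    · rcases W.num_T hz hl hy hy' h1 ht hzy hzy' with ⟨d, s, hd, hn, -⟩ | ⟨-, s, hn⟩
      · have := hn.cst
        omega
      · have := hn.cst
        omega
    · obtain ⟨s, hn⟩ := W.num_cc hz hl hy hcy hy' hcy' hzy hzy'
      have := hn.cst
      omega
    · exact (W.fold_not_full hx (h5 x hzx)).elim
  · exact key y y' hy hy' ht hzy hzy'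

/-- no elements below the end of a complete quadric -/
theorem WM.no_quad (W : WM r m N b θ) (S7 : S7M m N b θ) :
    ∀ z x, lev z = 2 * m + 1 → QdM m N θ x → ¬ z ⋖ x := by
  intro z x hl hq hzx
  have H := W.gt.H
  have HN := W.natSys
  have hm := W.ten
  have I := numI W.ten
  have i4 := I.i4
  have i3 := I.i3
  have i1 := I.i1
  have hh2 := hh_le m
  -- natural elements below the quadric have level at most `2 m`
  have key : ∀ y : P, y ∉ unnat N → lev y = 2 * m + 1 → y ⋖ x → False := by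
    intro y hy hly hyx
    have h1 : y ∈ N (topOf y) := HN.mem_iff.mpr ⟨hy, rfl⟩
    rw [HN.cp y x hyx.1.le hy, hq.nat, mem_lowPart] at h1
    omega
  have hz : z ∈ r2 (2 * m) N := by
    refine mem_sdiff.mpr ⟨?_, fun hY => ?_⟩
    · by_contra h
      exact key z h hl hzx
    · exact key (twT N z) (W.twSys.nat z hY) (by rw [W.twSys.lev hY]; exact hl)
        ((W.twSys.cov hY).mpr hzx)
  have hqf : ¬ FoldM m N b θ x := fun h => W.fold_not_quad h hq
  have hqF : ¬ FullM m N θ x := by
    intro h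
    have h1 := h.th
    have h2 := hq.th
    have h3 := hq.lev
    have h4 := (H.covBy_iff.mp hzx).2
    omega
  have hzb := W.mem_bd hz hl
  have hc : Kb m - 1 ≤ cst m (h2 (2 * m) N θ) z := by
    rcases W.rows4 S7 hzb with h | ⟨-, y, y', hy, hy', ht, hzy, hzy'⟩
    · exact h
    · have hne : y ≠ y' := fun h => ht (by rw [h])
      rcases uc_pair H hzy hzy' hne hzx with h7 | h7
      · subst h7
        exact (hqf hy).elim
      · subst h7
        exact (hqf hy').elim
  rcases W.class S7 hz hl with ⟨y, hy, hp⟩ | ⟨y, hy, hp⟩ | ⟨y, y', hy, hy', ht, hzy, hzy'⟩ |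
    ⟨y, y', hy, hy', ht, hzy, hzy'⟩ | ⟨y, y', hy, hy', h1, ht, hzy, hzy'⟩ |
    ⟨y, y', Nc, co, hy, hcy, hy', hcy', hzy, hzy'⟩ | h5
  · have h6 := hp.2 x hzx
    subst h6
    exact hqf hy
  · have := (W.num_penQ hz hl hy hp).cst
    omega
  · have h6 := (W.num_fq hz hl hy hy' ht hzy hzy').cst
    rcases Nat.mod_two_eq_zero_or_one m with hp | hp
    · have := I.i6 hp
      omega
    · have := I.i7 hp
      omega
  · have hne : y ≠ y' := fun h => ht (by rw [h])
    rcases uc_pair H hzy hzy' hne hzx with h7 | h7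
    · subst h7
      exact hqf hy
    · subst h7
      exact hqf hy'
  · have hne : y ≠ y' := fun h => ht (by rw [h])
    rcases uc_pair H hzy hzy' hne hzx with h7 | h7
    · subst h7
      exact hqf hy
    · subst h7
      exact hqF hy'
  · obtain ⟨s, hn⟩ := W.num_cc hz hl hy hcy hy' hcy' hzy hzy'
    have := hn.cst
    omega
  · exact hqF (h5 x hzx)

/-- no join of two fold ends -/
theorem WM.no_ff (W : WM r m N b θ) (S7 : S7M m N b θ) {z x x' : P} (hl : lev z = 2 * m + 1)
    (hx : FoldM m N b θ x) (hx' : FoldM m N b θ x') (ht : topOf x ≠ topOf x') (hzx : z ⋖ x)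
    (hzx' : z ⋖ x') : False := by
  have H := W.gt.H
  have HN := W.natSys
  have hm := W.ten
  have I := numI W.ten
  rcases Nat.mod_two_eq_zero_or_one m with hp | hp
  · -- `m` even
    have i8 := I.i8 hp
    have hz : z ∈ r2 (2 * m) N := by
      refine mem_sdiff.mpr ⟨?_, fun hY => ?_⟩
      · by_contra h
        exact ht ((HN.cp z x hzx.1.le h).symm.trans (HN.cp z x' hzx'.1.le h))
      · have h := W.twSys.nat z hY
        exact ht ((HN.cp _ x ((W.twSys.cov hY).mpr hzx).1.le h).symm.trans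
          (HN.cp _ x' ((W.twSys.cov hY).mpr hzx').1.le h))
    have hrow : ∀ z ∈ bdR (r2 (2 * m) N), cst m (h2 (2 * m) N θ) z ≤ 2 * NF m (hh m) + hh m →
        Num m N θ z (hh m) (2 * NF m (hh m) + hh m) 2 (2 * sgF m) := by
      intro z hz hc
      rcases W.rows4 S7 hz with h | ⟨hl, y, y', hy, hy', ht, hzy, hzy'⟩
      · omega
      · exact W.num_ff (bd_mem hz) hl hy hy' ht hzy hzy'
    have hnum := W.num_ff hz hl hx hx' ht hzx hzx'
    refine W.kill (n := 2 * NF m (hh m) + hh m) i8 (fun z hz => ?_) 1 one_ne_zero 2 (by norm_num)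
      (fun z hz hc => ?_) (fun z hz hc _ => ?_) z (W.mem_bd hz hl) hnum.cst ?_
    · by_contra hcon
      have := (hrow z hz (by omega)).cst
      omega
    · have h := hrow z hz hc.le
      rw [h.lab]
      exact h.drop.le
    · have h := hrow z hz hc.le
      rw [h.nst, pow_mul]
      norm_num
    · rw [hnum.lab]
      exact hnum.drop
  · exact W.no_ff_odd hp (fun z x hl hz hx hzx => W.below_fold S7 hl hz hx hzx)
      (W.no_quad S7) S7 z x x' hl hx hx' ht hzx hzx'

/-- S8: the elements of level `2 m + 1` below a fold end are natural or twins -/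
theorem WM.fold_clear (W : WM r m N b θ) (S7 : S7M m N b θ) {z x : P}
    (hl : lev z = 2 * m + 1) (hx : FoldM m N b θ x) (hzx : z ⋖ x) : z ∉ r2 (2 * m) N := by
  intro hz
  obtain ⟨x', hx', ht, hzx'⟩ := W.below_fold S7 hl hz hx hzx
  exact W.no_ff S7 hl hx hx' ht hzx hzx'

/-- no join with a fold end -/
theorem WM.fold_no_join (W : WM r m N b θ) (S7 : S7M m N b θ) {z x x' : P}
    (hl : lev z = 2 * m + 1) (hx : FoldM m N b θ x) (hzx : z ⋖ x) (hzx' : z ⋖ x') :
    topOf x = topOf x' := by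
  have HN := W.natSys
  have h1 := W.fold_clear S7 hl hx hzx
  by_cases hY : z ∈ twY (2 * m) N
  · have h := W.twSys.nat z hY
    exact (HN.cp _ x ((W.twSys.cov hY).mpr hzx).1.le h).symm.trans
      (HN.cp _ x' ((W.twSys.cov hY).mpr hzx').1.le h)
  · have h : z ∉ unnat N := fun h => h1 (mem_sdiff.mpr ⟨h, hY⟩)
    exact (HN.cp z x hzx.1.le h).symm.trans (HN.cp z x' hzx'.1.le h)

/-- the second cover of an element below a fold end -/
theorem WM.fold_child (W : WM r m N b θ) (S7 : S7M m N b θ) {z f : P}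
    (hl : lev z = 2 * m + 1) (hf : FoldM m N b θ f) (hzf : z ⋖ f) : ∃ Nc co x',
      FT m N b θ f Nc co ∧ x' ∈ Nc ∧ co x' = (m - 1, m + 1) ∧ z ⋖ x' := by
  have H := W.gt.H
  have HN := W.natSys
  have hm := W.ten
  obtain ⟨Nc, co, T⟩ := W.fold_typ hf
  have key : ∀ y : P, y ∉ unnat N → y ⋖ f → ∃ x' ∈ Nc, co x' = (m - 1, m + 1) ∧ y ⋖ x' := by
    intro y hy hyf
    have h1 : y ∈ N (topOf y) := HN.mem_iff.mpr ⟨hy, rfl⟩
    rw [HN.cp y f hyf.1.le hy, T.nat, mem_natS] at h1
    have hyN : y ∈ Nc := by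
      rcases h1 with h | h
      · exact h
      · exfalso
        obtain ⟨x1, hE, hj⟩ := mem_junk.mp h
        have hj2 := (mem_jset.mp hj).2
        have e3 := hE.lt f T.mem (by rw [T.cell]; show 1 ≤ m; omega)
        rw [T.cell] at e3
        simp only at e3
        rcases hj2 f hyf.1.le with h3 | h3
        · have e1 := (T.stair.chart.le_iff f T.mem x1 hE.mem).mp h3
          rw [T.cell] at e1
          have e2 := e1.2
          simp only at e2
          omega
        · have e1 := (T.stair.chart.le_iff x1 hE.mem f T.mem).mp h3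
          rw [T.cell] at e1
          have e2 := e1.1
          have h0 := hE.fst
          simp only at e2
          omega
    have hS : (co y).1 ≤ (co y).2 := T.stair.chart.mem y hyN
    have hp := (chart_cov T.stair.chart H hyN T.mem).mp hyf
    rw [T.cell] at hp
    have hcy : co y = (m, m + 1) := by
      rcases hp with ⟨p1, p2⟩ | ⟨p1, p2⟩
      · simp only at p1 p2
        omega
      · simp only at p1 p2
        exact Prod.ext (by simp only; omega) (by simp only; omega)
    obtain ⟨x', hx', hcx'⟩ := T.stair.chart.low y hyN (m - 1, m + 1) (by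
      rw [hcy]
      exact ⟨Nat.sub_le _ _, le_rfl⟩) (show m - 1 ≤ m + 1 by omega)
    refine ⟨x', hx', hcx', ?_⟩
    rw [chart_cov T.stair.chart H hyN hx', hcx', hcy]
    exact Or.inl ⟨by simp only; omega, rfl⟩
  have h1 := W.fold_clear S7 hl hf hzf
  by_cases hY : z ∈ twY (2 * m) N
  · obtain ⟨x', h2, h3, h4⟩ := key _ (W.twSys.nat z hY) ((W.twSys.cov hY).mpr hzf)
    exact ⟨Nc, co, x', T, h2, h3, (W.twSys.cov hY).mp h4⟩
  · obtain ⟨x', h2, h3, h4⟩ := key z (fun h => h1 (mem_sdiff.mpr ⟨h, hY⟩)) hzf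
    exact ⟨Nc, co, x', T, h2, h3, h4⟩

end Pool.Agent.GaussPoset
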